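import Mathlib

/-!
Bilinear (Young-form) bounds for convolution kernels on `ℤ`.
-/

namespace Pool.Agent.Helper57.Mp

open Finset

/-- The energy `(1/p) ∑_S |a|^p + (1/q) ∑_T |b|^q`. -/
noncomputable def En (p q : ℝ) (S T : Finset ℤ) (a b : ℤ → ℂ) : ℝ :=
  (∑ y ∈ S, ‖a y‖ ^ p) / p + (∑ x ∈ T, ‖b x‖ ^ q) / q

/-- The bilinear form of the kernel `K`. -/
noncomputable def Bil (K : ℤ → ℂ) (S T : Finset ℤ) (a b : ℤ → ℂ) : ℂ :=
  ∑ x ∈ T, ∑ y ∈ S, K (x - y) * a y * b x

/-- Young-form multiplier bound. -/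
def Mult (p q : ℝ) (K : ℤ → ℂ) (C : ℝ) : Prop :=
  ∀ (S T : Finset ℤ) (a b : ℤ → ℂ), ‖Bil K S T a b‖ ≤ C * En p q S T a b

variable {p q : ℝ}

lemma sum_rpow_nonneg (r : ℝ) (S : Finset ℤ) (a : ℤ → ℂ) : 0 ≤ ∑ y ∈ S, ‖a y‖ ^ r :=
  Finset.sum_nonneg fun _ _ => Real.rpow_nonneg (norm_nonneg _) _

lemma En_nonneg (hpq : p.HolderConjugate q) (S T : Finset ℤ) (a b : ℤ → ℂ) :
    0 ≤ En p q S T a b := by
  unfold En
  have := sum_rpow_nonneg p S a
  have := sum_rpow_nonneg q T b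
  have := hpq.pos
  have := hpq.symm.pos
  positivity

lemma Mult.nonneg (hpq : p.HolderConjugate q) {K : ℤ → ℂ} {C : ℝ} (h : Mult p q K C) : 0 ≤ C := by
  have h1 := h {0} ∅ (fun _ => 1) (fun _ => 0)
  simp only [Bil, Finset.sum_empty, norm_zero, En, Finset.sum_singleton, norm_one,
    Real.one_rpow, zero_div, add_zero] at h1
  have := hpq.pos
  by_contra hC
  push Not at hC
  have : C * (1 / p) < 0 := mul_neg_of_neg_of_pos hC (by positivity)
  linarith

lemma Mult.mono (hpq : p.HolderConjugate q) {K : ℤ → ℂ} {C C' : ℝ} (h : Mult p q K C)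
    (hC : C ≤ C') : Mult p q K C' := fun S T a b =>
  (h S T a b).trans (mul_le_mul_of_nonneg_right hC (En_nonneg hpq S T a b))

lemma Mult.add {K K' : ℤ → ℂ} {C C' : ℝ} (h : Mult p q K C) (h' : Mult p q K' C') :
    Mult p q (fun x => K x + K' x) (C + C') := by
  intro S T a b
  have : Bil (fun x => K x + K' x) S T a b = Bil K S T a b + Bil K' S T a b := by
    simp only [Bil, add_mul, Finset.sum_add_distrib]
  rw [this, add_mul]
  exact (norm_add_le _ _).trans (add_le_add (h S T a b) (h' S T a b))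

lemma Mult.const_mul {K : ℤ → ℂ} {C : ℝ} (h : Mult p q K C) (c : ℂ) :
    Mult p q (fun x => c * K x) (‖c‖ * C) := by
  intro S T a b
  have : Bil (fun x => c * K x) S T a b = c * Bil K S T a b := by
    simp only [Bil, Finset.mul_sum]
    refine Finset.sum_congr rfl fun x _ => Finset.sum_congr rfl fun y _ => ?_
    ring
  rw [this, norm_mul, mul_assoc]
  exact mul_le_mul_of_nonneg_left (h S T a b) (norm_nonneg _)

lemma Mult.zero (hpq : p.HolderConjugate q) : Mult p q (fun _ => 0) 0 := by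
  intro S T a b
  simp [Bil]

lemma Mult.congr {K K' : ℤ → ℂ} {C : ℝ} (h : Mult p q K C) (hK : ∀ x, K x = K' x) :
    Mult p q K' C := by
  have : K = K' := funext hK
  rwa [← this]

lemma Mult.neg {K : ℤ → ℂ} {C : ℝ} (h : Mult p q K C) :
    Mult p q (fun x => - K x) C := by
  have := h.const_mul (-1)
  simp only [norm_neg, norm_one, one_mul, neg_mul] at this
  exact this

lemma Mult.sub {K K' : ℤ → ℂ} {C C' : ℝ} (h : Mult p q K C) (h' : Mult p q K' C') :
    Mult p q (fun x => K x - K' x) (C + C') := by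
  have := h.add h'.neg
  simpa [sub_eq_add_neg] using this

lemma Mult.sum (hpq : p.HolderConjugate q) {ι : Type*} (s : Finset ι) {K : ι → ℤ → ℂ} {C : ι → ℝ}
    (h : ∀ i ∈ s, Mult p q (K i) (C i)) :
    Mult p q (fun x => ∑ i ∈ s, K i x) (∑ i ∈ s, C i) := by
  classical
  induction s using Finset.induction_on with
  | empty => simpa using Mult.zero hpq
  | insert i s hi ih =>
    simp only [Finset.sum_insert hi]
    exact (h i (Finset.mem_insert_self i s)).add
      (ih fun j hj => h j (Finset.mem_insert_of_mem hj))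

/-- Modulation invariance: `K x * u^x` with `|u| = 1`. -/
lemma Mult.modulate {K : ℤ → ℂ} {C : ℝ} (h : Mult p q K C) {u : ℂ} (hu : ‖u‖ = 1) :
    Mult p q (fun x => u ^ x * K x) C := by
  have hu0 : u ≠ 0 := by
    rintro rfl
    simp at hu
  intro S T a b
  have h1 := h S T (fun y => u ^ (-y) * a y) (fun x => u ^ x * b x)
  have e1 : Bil (fun x => u ^ x * K x) S T a b =
      Bil K S T (fun y => u ^ (-y) * a y) (fun x => u ^ x * b x) := by
    simp only [Bil]
    refine Finset.sum_congr rfl fun x _ => Finset.sum_congr rfl fun y _ => ?_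
    rw [sub_eq_add_neg, zpow_add₀ hu0]
    ring
  have e2 : En p q S T (fun y => u ^ (-y) * a y) (fun x => u ^ x * b x) = En p q S T a b := by
    simp [En, norm_zpow, hu]
  rw [e1]
  rw [e2] at h1
  exact h1

/-- Shift invariance. -/
lemma Mult.shift {K : ℤ → ℂ} {C : ℝ} (h : Mult p q K C) (k : ℤ) :
    Mult p q (fun x => K (x - k)) C := by
  intro S T a b
  have h1 := h (S.map (addRightEmbedding k)) T (fun y => a (y - k)) b
  have e1 : Bil (fun x => K (x - k)) S T a b =
      Bil K (S.map (addRightEmbedding k)) T (fun y => a (y - k)) b := by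
    simp only [Bil, Finset.sum_map, addRightEmbedding_apply]
    refine Finset.sum_congr rfl fun x _ => Finset.sum_congr rfl fun y _ => ?_
    rw [add_sub_cancel_right, sub_add_eq_sub_sub]
  have e2 : En p q (S.map (addRightEmbedding k)) T (fun y => a (y - k)) b = En p q S T a b := by
    simp [En, Finset.sum_map]
  rw [e1]
  rw [e2] at h1
  exact h1

/-- Weighted average principle: if the form of `K'` is an average of forms of `K` with energies
controlled on average. -/
lemma Mult.of_average (hpq : p.HolderConjugate q) {K K' : ℤ → ℂ} {C D : ℝ}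
    (h : Mult p q K C)
    (hav : ∀ (S T : Finset ℤ) (a b : ℤ → ℂ), ∃ (ι : Type) (Z : Finset ι) (w : ι → ℝ)
      (S' T' : ι → Finset ℤ) (a' b' : ι → ℤ → ℂ), (∀ z ∈ Z, 0 ≤ w z) ∧
      Bil K' S T a b = ∑ z ∈ Z, (w z : ℂ) * Bil K (S' z) (T' z) (a' z) (b' z) ∧
      ∑ z ∈ Z, w z * En p q (S' z) (T' z) (a' z) (b' z) ≤ D * En p q S T a b) :
    Mult p q K' (C * D) := by
  intro S T a b
  obtain ⟨ι, Z, w, S', T', a', b', hw, h1, h2⟩ := hav S T a b
  rw [h1]
  calc ‖∑ z ∈ Z, (w z : ℂ) * Bil K (S' z) (T' z) (a' z) (b' z)‖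
      ≤ ∑ z ∈ Z, ‖(w z : ℂ) * Bil K (S' z) (T' z) (a' z) (b' z)‖ := norm_sum_le _ _
    _ ≤ ∑ z ∈ Z, w z * (C * En p q (S' z) (T' z) (a' z) (b' z)) := by
        apply Finset.sum_le_sum
        intro z hz
        rw [norm_mul, Complex.norm_real, Real.norm_of_nonneg (hw z hz)]
        exact mul_le_mul_of_nonneg_left (h _ _ _ _) (hw z hz)
    _ = C * ∑ z ∈ Z, w z * En p q (S' z) (T' z) (a' z) (b' z) := by
        rw [Finset.mul_sum]
        refine Finset.sum_congr rfl fun z _ => ?_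
        ring
    _ ≤ C * (D * En p q S T a b) := mul_le_mul_of_nonneg_left h2 (h.nonneg hpq)
    _ = C * D * En p q S T a b := by ring

/-- Kernels in `ℓ¹`. -/
lemma Mult.of_l1 (hpq : p.HolderConjugate q) {K : ℤ → ℂ} {C : ℝ}
    (h : ∀ S : Finset ℤ, ∑ x ∈ S, ‖K x‖ ≤ C) : Mult p q K C := by
  intro S T a b
  have hp := hpq.pos
  have hq := hpq.symm.pos
  have hrow : ∀ y : ℤ, ∑ x ∈ T, ‖K (x - y)‖ ≤ C := by
    intro y
    have := h (T.map (addRightEmbedding (-y)))
    simpa [Finset.sum_map, sub_eq_add_neg] using this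
  have hcol : ∀ x : ℤ, ∑ y ∈ S, ‖K (x - y)‖ ≤ C := by
    intro x
    have := h (S.map ⟨fun y => x - y, sub_right_injective⟩)
    simpa [Finset.sum_map] using this
  calc ‖Bil K S T a b‖ ≤ ∑ x ∈ T, ‖∑ y ∈ S, K (x - y) * a y * b x‖ := norm_sum_le _ _
    _ ≤ ∑ x ∈ T, ∑ y ∈ S, ‖K (x - y)‖ * (‖a y‖ ^ p / p + ‖b x‖ ^ q / q) := by
        apply Finset.sum_le_sum
        intro x _
        refine (norm_sum_le _ _).trans (Finset.sum_le_sum fun y _ => ?_)
        rw [norm_mul, norm_mul, mul_assoc]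
        exact mul_le_mul_of_nonneg_left
          (Real.young_inequality_of_nonneg (norm_nonneg _) (norm_nonneg _) hpq) (norm_nonneg _)
    _ = ∑ y ∈ S, (∑ x ∈ T, ‖K (x - y)‖) * (‖a y‖ ^ p / p) +
        ∑ x ∈ T, (∑ y ∈ S, ‖K (x - y)‖) * (‖b x‖ ^ q / q) := by
        simp only [mul_add, Finset.sum_add_distrib]
        congr 1
        · rw [Finset.sum_comm]
          simp only [Finset.sum_mul]
        · simp only [Finset.sum_mul]
    _ ≤ ∑ y ∈ S, C * (‖a y‖ ^ p / p) + ∑ x ∈ T, C * (‖b x‖ ^ q / q) := by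
        apply add_le_add
        · exact Finset.sum_le_sum fun y _ => mul_le_mul_of_nonneg_right (hrow y) (by positivity)
        · exact Finset.sum_le_sum fun x _ => mul_le_mul_of_nonneg_right (hcol x) (by positivity)
    _ = C * En p q S T a b := by
        rw [En, ← Finset.mul_sum, ← Finset.mul_sum, Finset.sum_div, Finset.sum_div]
        ring

/-- Symmetry: transposition exchanges `p` and `q`. -/
lemma Mult.transpose {K : ℤ → ℂ} {C : ℝ} (h : Mult p q K C) :
    Mult q p (fun x => K (-x)) C := by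
  intro S T a b
  have h1 := h T S b a
  have e1 : Bil (fun x => K (-x)) S T a b = Bil K T S b a := by
    simp only [Bil]
    rw [Finset.sum_comm]
    refine Finset.sum_congr rfl fun x _ => Finset.sum_congr rfl fun y _ => ?_
    rw [neg_sub]
    ring
  have e2 : En p q T S b a = En q p S T a b := by
    simp only [En]
    ring
  rw [e1, ← e2]
  exact h1

/-- The constant in the strong form. -/
noncomputable def strongC (p q C : ℝ) : ℝ := 2 * C / p * (2 * C / q) ^ (p / q)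

lemma strongC_nonneg (hpq : p.HolderConjugate q) {C : ℝ} (hC : 0 ≤ C) : 0 ≤ strongC p q C := by
  have hp := hpq.pos
  have hq := hpq.symm.pos
  unfold strongC
  positivity

lemma strongC_mono (hpq : p.HolderConjugate q) {C C' : ℝ} (hC : 0 ≤ C) (h : C ≤ C') :
    strongC p q C ≤ strongC p q C' := by
  have hp := hpq.pos
  have hq := hpq.symm.pos
  unfold strongC
  have hC' : 0 ≤ C' := hC.trans h
  gcongr

/-- The strong form: `∑_T |K * a|^p ≤ strongC * ∑_S |a|^p`. -/
lemma Mult.strong (hpq : p.HolderConjugate q) {K : ℤ → ℂ} {C : ℝ} (h : Mult p q K C)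
    (S T : Finset ℤ) (a : ℤ → ℂ) :
    ∑ x ∈ T, ‖∑ y ∈ S, K (x - y) * a y‖ ^ p ≤ strongC p q C * ∑ y ∈ S, ‖a y‖ ^ p := by
  have hp := hpq.pos
  have hq := hpq.symm.pos
  have hC := h.nonneg hpq
  have hp1 : 1 < p := hpq.lt
  set u : ℤ → ℂ := fun x => ∑ y ∈ S, K (x - y) * a y with hu
  set X : ℝ := ∑ x ∈ T, ‖u x‖ ^ p with hX
  set A : ℝ := ∑ y ∈ S, ‖a y‖ ^ p with hA
  have hX0 : 0 ≤ X := sum_rpow_nonneg p T u
  have hA0 : 0 ≤ A := sum_rpow_nonneg p S a
  -- dual element
  set b : ℤ → ℂ := fun x => (starRingEnd ℂ) (u x) * ((‖u x‖ ^ (p - 2) : ℝ) : ℂ) with hb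
  have hub : ∀ x, u x * b x = ((‖u x‖ ^ p : ℝ) : ℂ) := by
    intro x
    simp only [hb]
    rw [← mul_assoc, Complex.mul_conj, ← Complex.ofReal_mul, Complex.normSq_eq_norm_sq]
    congr 1
    by_cases h0 : ‖u x‖ = 0
    · rw [h0]
      rw [Real.zero_rpow hp.ne']
      simp
    · have hpos : 0 < ‖u x‖ := lt_of_le_of_ne (norm_nonneg _) (Ne.symm h0)
      rw [← Real.rpow_natCast, ← Real.rpow_add hpos]
      congr 1
      push_cast
      ring
  have hbn : ∀ x, ‖b x‖ ^ q = ‖u x‖ ^ p := by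
    intro x
    simp only [hb]
    rw [norm_mul, Complex.norm_conj, Complex.norm_real, Real.norm_of_nonneg (by positivity)]
    by_cases h0 : ‖u x‖ = 0
    · rw [h0, zero_mul, Real.zero_rpow hq.ne', Real.zero_rpow hp.ne']
    · have hpos : 0 < ‖u x‖ := lt_of_le_of_ne (norm_nonneg _) (Ne.symm h0)
      have : ‖u x‖ * ‖u x‖ ^ (p - 2) = ‖u x‖ ^ (p - 1) := by
        nth_rewrite 1 [← Real.rpow_one ‖u x‖]
        rw [← Real.rpow_add hpos]
        congr 1
        ring
      rw [this, ← Real.rpow_mul hpos.le]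
      congr 1
      exact hpq.sub_one_mul_conj
  have hBil : ∀ lam : ℝ, Bil K S T (fun y => (lam : ℂ) * a y) b = (lam : ℂ) * (X : ℂ) := by
    intro lam
    simp only [Bil]
    have : ∀ x ∈ T, ∑ y ∈ S, K (x - y) * ((lam : ℂ) * a y) * b x =
        (lam : ℂ) * ((‖u x‖ ^ p : ℝ) : ℂ) := by
      intro x _
      rw [← hub x, hu]
      simp only [Finset.sum_mul, Finset.mul_sum]
      refine Finset.sum_congr rfl fun y _ => ?_
      ring
    rw [Finset.sum_congr rfl this, ← Finset.mul_sum, hX]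
    push_cast
    rfl
  rcases eq_or_lt_of_le hC with hC0 | hCpos
  · -- C = 0
    have h1 := h S T a b
    have e := hBil 1
    simp only [Complex.ofReal_one, one_mul] at e
    rw [e, ← hC0, zero_mul, Complex.norm_real, Real.norm_of_nonneg hX0] at h1
    have : strongC p q 0 = 0 := by simp [strongC]
    rw [← hC0, this, zero_mul]
    exact h1
  · -- scaling parameter lam with lam^q = 2 C / q, and use (lam a, lam⁻¹ b)
    set lam : ℝ := (2 * C / q) ^ (1 / q) with hlam
    have hlampos : 0 < lam := by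
      rw [hlam]
      positivity
    have hlamq : lam ^ q = 2 * C / q := by
      rw [hlam, ← Real.rpow_mul (by positivity), one_div, inv_mul_cancel₀ hq.ne', Real.rpow_one]
    have hlamp : lam ^ p = (2 * C / q) ^ (p / q) := by
      rw [hlam, ← Real.rpow_mul (by positivity)]
      congr 1
      ring
    have h1 := h S T (fun y => (lam : ℂ) * a y) (fun x => ((lam⁻¹ : ℝ) : ℂ) * b x)
    have e1 : Bil K S T (fun y => (lam : ℂ) * a y) (fun x => ((lam⁻¹ : ℝ) : ℂ) * b x) = (X : ℂ) := by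
      have : Bil K S T (fun y => (lam : ℂ) * a y) (fun x => ((lam⁻¹ : ℝ) : ℂ) * b x) =
          ((lam⁻¹ : ℝ) : ℂ) * Bil K S T (fun y => (lam : ℂ) * a y) b := by
        simp only [Bil, Finset.mul_sum]
        refine Finset.sum_congr rfl fun x _ => Finset.sum_congr rfl fun y _ => ?_
        ring
      rw [this, hBil, ← mul_assoc, ← Complex.ofReal_mul, inv_mul_cancel₀ hlampos.ne']
      simp
    rw [e1, Complex.norm_real, Real.norm_of_nonneg hX0] at h1
    have e2 : En p q S T (fun y => (lam : ℂ) * a y) (fun x => ((lam⁻¹ : ℝ) : ℂ) * b x) =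
        lam ^ p * A / p + (lam ^ q)⁻¹ * X / q := by
      simp only [En, norm_mul, Complex.norm_real, Real.norm_of_nonneg hlampos.le,
        Real.norm_of_nonneg (inv_nonneg.mpr hlampos.le)]
      congr 2
      · rw [hA, Finset.mul_sum]
        refine Finset.sum_congr rfl fun y _ => ?_
        rw [Real.mul_rpow hlampos.le (norm_nonneg _)]
      · rw [hX, Finset.mul_sum]
        refine Finset.sum_congr rfl fun x _ => ?_
        rw [Real.mul_rpow (inv_nonneg.mpr hlampos.le) (norm_nonneg _), hbn,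
          Real.inv_rpow hlampos.le]
    rw [e2, hlamq, hlamp] at h1
    have e3 : C * ((2 * C / q)⁻¹ * X / q) = X / 2 := by
      field_simp
    have h4 : X ≤ C * ((2 * C / q) ^ (p / q) * A / p) + X / 2 := by
      rw [← e3, ← mul_add]
      exact h1
    have : X ≤ 2 * (C * ((2 * C / q) ^ (p / q) * A / p)) := by linarith
    calc X ≤ 2 * (C * ((2 * C / q) ^ (p / q) * A / p)) := this
      _ = strongC p q C * A := by
        unfold strongC
        ring

/-- Converse: an `ℓ^p` bound gives the Young form. -/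
lemma Mult.of_strong (hpq : p.HolderConjugate q) {K : ℤ → ℂ} {C : ℝ} (hC : 0 ≤ C)
    (h : ∀ (S T : Finset ℤ) (a : ℤ → ℂ),
      ∑ x ∈ T, ‖∑ y ∈ S, K (x - y) * a y‖ ^ p ≤ C * ∑ y ∈ S, ‖a y‖ ^ p) :
    Mult p q K (max C 1) := by
  intro S T a b
  have hp := hpq.pos
  have hq := hpq.symm.pos
  have hA0 : 0 ≤ ∑ y ∈ S, ‖a y‖ ^ p := sum_rpow_nonneg p S a
  have hB0 : 0 ≤ ∑ x ∈ T, ‖b x‖ ^ q := sum_rpow_nonneg q T b
  calc ‖Bil K S T a b‖ ≤ ∑ x ∈ T, ‖∑ y ∈ S, K (x - y) * a y * b x‖ := norm_sum_le _ _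
    _ = ∑ x ∈ T, ‖∑ y ∈ S, K (x - y) * a y‖ * ‖b x‖ := by
        refine Finset.sum_congr rfl fun x _ => ?_
        rw [← Finset.sum_mul, norm_mul]
    _ ≤ ∑ x ∈ T, (‖∑ y ∈ S, K (x - y) * a y‖ ^ p / p + ‖b x‖ ^ q / q) :=
        Finset.sum_le_sum fun x _ =>
          Real.young_inequality_of_nonneg (norm_nonneg _) (norm_nonneg _) hpq
    _ = (∑ x ∈ T, ‖∑ y ∈ S, K (x - y) * a y‖ ^ p) / p + (∑ x ∈ T, ‖b x‖ ^ q) / q := by
        rw [Finset.sum_add_distrib, Finset.sum_div, Finset.sum_div]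
    _ ≤ (C * ∑ y ∈ S, ‖a y‖ ^ p) / p + (∑ x ∈ T, ‖b x‖ ^ q) / q := by
        gcongr
        exact h S T a
    _ ≤ (max C 1 * ∑ y ∈ S, ‖a y‖ ^ p) / p + (max C 1 * ∑ x ∈ T, ‖b x‖ ^ q) / q := by
        have h1 : C * ∑ y ∈ S, ‖a y‖ ^ p ≤ max C 1 * ∑ y ∈ S, ‖a y‖ ^ p :=
          mul_le_mul_of_nonneg_right (le_max_left _ _) hA0
        have h2 : ∑ x ∈ T, ‖b x‖ ^ q ≤ max C 1 * ∑ x ∈ T, ‖b x‖ ^ q := by
          calc ∑ x ∈ T, ‖b x‖ ^ q = 1 * ∑ x ∈ T, ‖b x‖ ^ q := (one_mul _).symm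
            _ ≤ _ := mul_le_mul_of_nonneg_right (le_max_right _ _) hB0
        gcongr
    _ = max C 1 * En p q S T a b := by
        unfold En
        ring

end Pool.Agent.Helper57.Mp
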