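import Mathlib
import Pool.Agent.Helper57.Mp.Kernel

/-!
Fejér windows, products with finite kernels, dilations.
-/

namespace Pool.Agent.Helper57.Mp

open Finset

variable {p q : ℝ}

lemma card_window (M N : ℤ) (x y : ℤ) (hx : |x| + N ≤ M) (P : ℤ → Prop) [DecidablePred P]
    (hP : ∀ z, P z ↔ (z ≤ x ∧ x < z + N) ∧ (z ≤ y ∧ y < z + N)) :
    (((Finset.Icc (-M) M).filter P).card : ℤ) = max 0 (N - |x - y|) := by
  have : (Finset.Icc (-M) M).filter P =
      Finset.Ioc (max x y - N) (min x y) := by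
    ext z
    simp only [Finset.mem_filter, Finset.mem_Icc, Finset.mem_Ioc, sub_lt_iff_lt_add, max_lt_iff,
      le_min_iff, hP]
    have h1 := abs_le.mp (le_refl |x|)
    have h2 := abs_le.mp (le_refl |y|)
    constructor
    · rintro ⟨_, ⟨h3, h4⟩, h5, h6⟩
      exact ⟨⟨h4, h6⟩, h3, h5⟩
    · rintro ⟨⟨h4, h6⟩, h3, h5⟩
      refine ⟨⟨?_, ?_⟩, ⟨h3, h4⟩, h5, h6⟩ <;> omega
  rw [this, Int.card_Ioc]
  rcases le_total x y with h | h
  · rw [max_eq_right h, min_eq_left h, abs_of_nonpos (by omega)]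
    omega
  · rw [max_eq_left h, min_eq_right h, abs_of_nonneg (by omega)]
    omega

/-- Fejér means do not increase the bound. -/
lemma Mult.fejer (hpq : p.HolderConjugate q) {K : ℤ → ℂ} {C : ℝ} (h : Mult p q K C) (N : ℕ)
    (hN : 0 < N) : Mult p q (fun x => ((max 0 (1 - |(x : ℝ)| / N) : ℝ) : ℂ) * K x) C := by
  have hp := hpq.pos
  have hq := hpq.symm.pos
  have hNr : (0 : ℝ) < N := by exact_mod_cast hN
  have := h.of_average hpq (K' := fun x => ((max 0 (1 - |(x : ℝ)| / N) : ℝ) : ℂ) * K x) (D := 1) ?_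
  · simpa using this
  intro S T a b
  obtain ⟨M, hM⟩ : ∃ M : ℤ, ∀ x ∈ S ∪ T, |x| + N ≤ M := by
    obtain ⟨B, hB⟩ := ((S ∪ T).image (fun x => |x|)).bddAbove
    refine ⟨B + N, fun x hx => ?_⟩
    have := hB (Finset.mem_coe.mpr (Finset.mem_image_of_mem _ hx))
    omega
  classical
  set win : ℤ → ℤ → Prop := fun z x => z ≤ x ∧ x < z + N with hwin
  refine ⟨ℤ, Finset.Icc (-M) M, fun _ => 1 / N, fun _ => S, fun _ => T,
    fun z y => if win z y then a y else 0, fun z x => if win z x then b x else 0, ?_, ?_, ?_⟩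
  · intro z _
    positivity
  · -- the bilinear form
    simp only [Bil]
    simp_rw [Finset.mul_sum]
    symm
    rw [Finset.sum_comm]
    refine Finset.sum_congr rfl fun x hx => ?_
    rw [Finset.sum_comm]
    refine Finset.sum_congr rfl fun y hy => ?_
    have h1 : ∀ z ∈ Finset.Icc (-M) M, ((1 / (N : ℝ) : ℝ) : ℂ) * (K (x - y) *
        (if win z y then a y else 0) * (if win z x then b x else 0)) =
        if (win z x ∧ win z y) then ((1 / (N : ℝ) : ℝ) : ℂ) * (K (x - y) * a y * b x) else 0 := by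
      intro z _
      by_cases h1 : win z x <;> by_cases h2 : win z y <;> simp [h1, h2]
    rw [Finset.sum_congr rfl h1, ← Finset.sum_filter, Finset.sum_const, nsmul_eq_mul]
    have h2 := card_window M N x y (hM x (Finset.mem_union_right _ hx))
      (fun z => win z x ∧ win z y) (fun z => Iff.rfl)
    have h3 : ((((Finset.Icc (-M) M).filter (fun z => win z x ∧ win z y)).card : ℕ) : ℝ) =
        N * max 0 (1 - |((x - y : ℤ) : ℝ)| / N) := by
      have h4 : ((((Finset.Icc (-M) M).filter (fun z => win z x ∧ win z y)).card : ℤ) : ℝ) =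
          ((max 0 ((N : ℤ) - |x - y|) : ℤ) : ℝ) := by
        rw [h2]
      have h5 : ((((Finset.Icc (-M) M).filter (fun z => win z x ∧ win z y)).card : ℤ) : ℝ) =
        ((((Finset.Icc (-M) M).filter (fun z => win z x ∧ win z y)).card : ℕ) : ℝ) := by
        simp
      rw [← h5, h4, mul_max_of_nonneg _ _ hNr.le]
      push_cast
      congr 1
      · ring
      · field_simp
    have h6 : ((((Finset.Icc (-M) M).filter (fun z => win z x ∧ win z y)).card : ℕ) : ℂ) =
        ((N * max 0 (1 - |((x - y : ℤ) : ℝ)| / N) : ℝ) : ℂ) := by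
      rw [← h3]
      simp
    rw [h6]
    have hNc : (N : ℂ) ≠ 0 := by exact_mod_cast hN.ne'
    push_cast
    field_simp
  · -- energies
    simp only [En, one_mul]
    have key : ∀ (r : ℝ) (_ : 0 < r) (U : Finset ℤ) (c : ℤ → ℂ), (∀ x ∈ U, |x| + N ≤ M) →
        ∑ z ∈ Finset.Icc (-M) M, 1 / (N : ℝ) * ∑ y ∈ U, ‖if win z y then c y else 0‖ ^ r =
        ∑ y ∈ U, ‖c y‖ ^ r := by
      intro r hr U c hU
      simp_rw [Finset.mul_sum]
      rw [Finset.sum_comm]
      refine Finset.sum_congr rfl fun y hy => ?_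
      have h1 : ∀ z ∈ Finset.Icc (-M) M, 1 / (N : ℝ) * ‖if win z y then c y else 0‖ ^ r =
          if (win z y ∧ win z y) then 1 / (N : ℝ) * ‖c y‖ ^ r else 0 := by
        intro z _
        by_cases h2 : win z y
        · simp [h2]
        · simp [h2, Real.zero_rpow hr.ne']
      rw [Finset.sum_congr rfl h1, ← Finset.sum_filter, Finset.sum_const, nsmul_eq_mul]
      have h2 := card_window M N y y (hU y hy) (fun z => win z y ∧ win z y) (fun z => Iff.rfl)
      rw [sub_self, abs_zero, sub_zero, max_eq_right (by positivity)] at h2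
      have h3 : ((((Finset.Icc (-M) M).filter (fun z => win z y ∧ win z y)).card : ℕ) : ℝ) = N := by
        exact_mod_cast h2
      rw [h3]
      field_simp
    have e : ∑ z ∈ Finset.Icc (-M) M, 1 / (N : ℝ) *
        ((∑ y ∈ S, ‖if win z y then a y else 0‖ ^ p) / p +
          (∑ x ∈ T, ‖if win z x then b x else 0‖ ^ q) / q) =
        (∑ z ∈ Finset.Icc (-M) M, 1 / (N : ℝ) * ∑ y ∈ S, ‖if win z y then a y else 0‖ ^ p) / p +
        (∑ z ∈ Finset.Icc (-M) M, 1 / (N : ℝ) * ∑ x ∈ T, ‖if win z x then b x else 0‖ ^ q) / q := by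
      rw [Finset.sum_div, Finset.sum_div, ← Finset.sum_add_distrib]
      refine Finset.sum_congr rfl fun z _ => ?_
      ring
    rw [e, key p hp S a fun x hx => hM x (Finset.mem_union_left _ hx),
      key q hq T b fun x hx => hM x (Finset.mem_union_right _ hx)]

/-- Product with a finite kernel `m` (supported on `J`). -/
lemma Mult.finite_mul (hpq : p.HolderConjugate q) {K m : ℤ → ℂ} {C D : ℝ} (h : Mult p q K C)
    (hm : Mult p q m D) (J : Finset ℤ) (hJ : ∀ x, x ∉ J → m x = 0) :
    Mult p q (fun x => ∑ j ∈ J, m j * K (x - j)) (C * max (strongC p q D) 1) := by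
  classical
  have hp := hpq.pos
  have hq := hpq.symm.pos
  apply h.of_average hpq
  intro S T a b
  set S' : Finset ℤ := (S ×ˢ J).image (fun yj => yj.1 + yj.2) with hS'
  set a' : ℤ → ℂ := fun v => ∑ y ∈ S, m (v - y) * a y with ha'
  refine ⟨Unit, {()}, fun _ => 1, fun _ => S', fun _ => T, fun _ => a', fun _ => b, ?_, ?_, ?_⟩
  · intro _ _
    norm_num
  · simp only [Finset.sum_singleton, Complex.ofReal_one, one_mul, Bil]
    refine Finset.sum_congr rfl fun x _ => ?_
    simp only [ha', Finset.mul_sum, Finset.sum_mul]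
    rw [Finset.sum_comm (s := S')]
    refine Finset.sum_congr rfl fun y hy => ?_
    have h1 : ∑ v ∈ S', K (x - v) * (m (v - y) * a y) * b x =
        ∑ v ∈ J.map (addRightEmbedding y), K (x - v) * (m (v - y) * a y) * b x := by
      symm
      apply Finset.sum_subset
      · intro v hv
        rw [Finset.mem_map] at hv
        obtain ⟨j, hj, rfl⟩ := hv
        rw [hS', Finset.mem_image]
        exact ⟨(y, j), Finset.mem_product.mpr ⟨hy, hj⟩, by simp [add_comm]⟩
      · intro v _ hv
        have : m (v - y) = 0 := by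
          apply hJ
          intro hvy
          apply hv
          rw [Finset.mem_map]
          exact ⟨v - y, hvy, by simp⟩
        rw [this]
        ring
    rw [h1, Finset.sum_map]
    refine Finset.sum_congr rfl fun j _ => ?_
    simp only [addRightEmbedding_apply, add_sub_cancel_right]
    have : x - y - j = x - (j + y) := by ring
    rw [this]
    ring
  · simp only [Finset.sum_singleton, one_mul, En]
    have h1 := hm.strong hpq S S' a
    have hA0 := sum_rpow_nonneg p S a
    have hB0 := sum_rpow_nonneg q T b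
    have h2 : ∑ y ∈ S', ‖a' y‖ ^ p ≤ max (strongC p q D) 1 * ∑ y ∈ S, ‖a y‖ ^ p :=
      h1.trans (mul_le_mul_of_nonneg_right (le_max_left _ _) hA0)
    have h3 : ∑ x ∈ T, ‖b x‖ ^ q ≤ max (strongC p q D) 1 * ∑ x ∈ T, ‖b x‖ ^ q := by
      calc ∑ x ∈ T, ‖b x‖ ^ q = 1 * ∑ x ∈ T, ‖b x‖ ^ q := (one_mul _).symm
        _ ≤ _ := mul_le_mul_of_nonneg_right (le_max_right _ _) hB0
    calc (∑ y ∈ S', ‖a' y‖ ^ p) / p + (∑ x ∈ T, ‖b x‖ ^ q) / q
        ≤ (max (strongC p q D) 1 * ∑ y ∈ S, ‖a y‖ ^ p) / p +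
          (max (strongC p q D) 1 * ∑ x ∈ T, ‖b x‖ ^ q) / q := by gcongr
      _ = max (strongC p q D) 1 *
          ((∑ y ∈ S, ‖a y‖ ^ p) / p + (∑ x ∈ T, ‖b x‖ ^ q) / q) := by ring

/-- Dilation. -/
lemma Mult.dilate (hpq : p.HolderConjugate q) {K : ℤ → ℂ} {C : ℝ} (h : Mult p q K C) (n : ℕ)
    (hn : 0 < n) : Mult p q (fun x => if (n : ℤ) ∣ x then K (x / n) else 0) C := by
  classical
  have hp := hpq.pos
  have hq := hpq.symm.pos
  have hnz : (n : ℤ) ≠ 0 := by exact_mod_cast hn.ne'
  have hnpos : (0 : ℤ) < n := by exact_mod_cast hn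
  have := h.of_average hpq (K' := fun x => if (n : ℤ) ∣ x then K (x / n) else 0) (D := 1) ?_
  · simpa using this
  intro S T a b
  -- residue classes
  set R : Finset ℤ := Finset.Ico 0 (n : ℤ) with hR
  set cls : Finset ℤ → ℤ → Finset ℤ :=
    fun U r => (U.filter (fun y => y % n = r)).image (fun y => y / n) with hcls
  have hsum : ∀ (U : Finset ℤ) (r : ℤ) (g : ℤ → ℂ),
      ∑ y ∈ cls U r, g (r + n * y) = ∑ y ∈ U.filter (fun y => y % n = r), g y := by
    intro U r g
    rw [hcls]
    simp only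
    rw [Finset.sum_image]
    · refine Finset.sum_congr rfl fun y hy => ?_
      rw [Finset.mem_filter] at hy
      congr 1
      have := Int.emod_add_mul_ediv y n
      rw [hy.2] at this
      exact this
    · intro y hy y' hy' hyy
      simp only [Finset.coe_filter, Set.mem_ofPred_eq] at hy hy'
      have h1 := Int.emod_add_mul_ediv y n
      have h2 := Int.emod_add_mul_ediv y' n
      simp only at hyy
      rw [hy.2] at h1
      rw [hy'.2] at h2
      rw [← h1, ← h2, hyy]
  have hsumR : ∀ (U : Finset ℤ) (r : ℤ) (g : ℤ → ℝ),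
      ∑ y ∈ cls U r, g (r + n * y) = ∑ y ∈ U.filter (fun y => y % n = r), g y := by
    intro U r g
    have := hsum U r (fun y => (g y : ℂ))
    exact_mod_cast this
  have hpart : ∀ (U : Finset ℤ) (g : ℤ → ℂ),
      ∑ r ∈ R, ∑ y ∈ U.filter (fun y => y % n = r), g y = ∑ y ∈ U, g y := by
    intro U g
    apply Finset.sum_fiberwise_of_maps_to
    intro y _
    rw [hR, Finset.mem_Ico]
    exact ⟨Int.emod_nonneg y hnz, Int.emod_lt_of_pos y hnpos⟩
  have hpartR : ∀ (U : Finset ℤ) (g : ℤ → ℝ),
      ∑ r ∈ R, ∑ y ∈ U.filter (fun y => y % n = r), g y = ∑ y ∈ U, g y := by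
    intro U g
    apply Finset.sum_fiberwise_of_maps_to
    intro y _
    rw [hR, Finset.mem_Ico]
    exact ⟨Int.emod_nonneg y hnz, Int.emod_lt_of_pos y hnpos⟩
  refine ⟨ℤ, R, fun _ => 1, fun r => cls S r, fun r => cls T r,
    fun r y => a (r + n * y), fun r x => b (r + n * x), ?_, ?_, ?_⟩
  · intro _ _
    norm_num
  · simp only [Complex.ofReal_one, one_mul, Bil]
    rw [← hpart T]
    refine Finset.sum_congr rfl fun r _ => ?_
    have h1 : ∀ x' ∈ cls T r, ∑ y' ∈ cls S r, K (x' - y') * a (r + n * y') * b (r + n * x') =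
        ∑ y ∈ S, (if (n : ℤ) ∣ (r + n * x') - y then K (((r + n * x') - y) / n) else 0) * a y *
          b (r + n * x') := by
      intro x' _
      have h2 : ∀ y' ∈ cls S r, K (x' - y') * a (r + n * y') * b (r + n * x') =
          (fun y => (if (n : ℤ) ∣ (r + n * x') - y then K (((r + n * x') - y) / n) else 0) * a y *
          b (r + n * x')) (r + n * y') := by
        intro y' _
        simp only
        have h3 : (r + n * x') - (r + n * y') = n * (x' - y') := by ring
        rw [h3, if_pos (dvd_mul_right _ _), Int.mul_ediv_cancel_left _ hnz]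
      rw [Finset.sum_congr rfl h2, hsum S r (fun y => (if (n : ℤ) ∣ (r + n * x') - y then
        K (((r + n * x') - y) / n) else 0) * a y * b (r + n * x'))]
      rw [Finset.sum_filter]
      refine Finset.sum_congr rfl fun y _ => ?_
      by_cases hy : y % n = r
      · rw [if_pos hy]
      · rw [if_neg hy]
        have : ¬ (n : ℤ) ∣ (r + n * x') - y := by
          intro hd
          apply hy
          have hr : r % n = r := by
            -- `r` is a residue because `x' ∈ cls T r`
            rename_i hx' _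
            rw [hcls] at hx'
            simp only [Finset.mem_image, Finset.mem_filter] at hx'
            obtain ⟨w, ⟨_, hw⟩, _⟩ := hx'
            rw [← hw]
            exact Int.emod_emod_of_dvd w (dvd_refl _)
          have h4 : y % n = (r + n * x') % n := Int.modEq_iff_dvd.mpr hd
          rw [h4, Int.add_mul_emod_self_left, hr]
        rw [if_neg this]
        ring
    rw [Finset.sum_congr rfl h1]
    exact (hsum T r (fun x => ∑ y ∈ S, (if (n : ℤ) ∣ x - y then K ((x - y) / n) else 0) * a y *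
      b x)).symm
  · simp only [one_mul, En]
    rw [Finset.sum_add_distrib, ← Finset.sum_div, ← Finset.sum_div]
    have h1 : ∑ r ∈ R, ∑ y ∈ cls S r, ‖a (r + n * y)‖ ^ p = ∑ y ∈ S, ‖a y‖ ^ p := by
      rw [← hpartR S]
      exact Finset.sum_congr rfl fun r _ => hsumR S r (fun y => ‖a y‖ ^ p)
    have h2 : ∑ r ∈ R, ∑ x ∈ cls T r, ‖b (r + n * x)‖ ^ q = ∑ x ∈ T, ‖b x‖ ^ q := by
      rw [← hpartR T]
      exact Finset.sum_congr rfl fun r _ => hsumR T r (fun x => ‖b x‖ ^ q)
    rw [h1, h2]

end Pool.Agent.Helper57.Mp
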