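import Mathlib
import Pool.Agent.Helper57.Mp.Kernel2

/-!
M. Riesz's theorem for the discrete Hilbert transform on `ℓ^p(ℤ)`.
-/

namespace Pool.Agent.Helper57.Mp

open Finset MeasureTheory Filter Topology

variable {p q : ℝ}

/-- The pointwise inequality behind M. Riesz's theorem. -/
lemma pointwise_riesz (hp1 : 1 < p) (hp2 : p ≤ 2) :
    ∃ A B : ℝ, 0 < A ∧ 0 < B ∧ ∀ w : ℂ, 0 < w.re →
      |w.im| ^ p ≤ A * w.re ^ p - B * (w ^ (p : ℂ)).re := by
  have hpi := Real.pi_pos
  have hp0 : 0 < p := by linarith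
  set φ₀ : ℝ := Real.pi * (1 + p) / (4 * p) with hφ₀
  have hφ₀pos : 0 < φ₀ := by positivity
  have hφ₀lt : φ₀ < Real.pi / 2 := by
    rw [hφ₀, div_lt_div_iff₀ (by positivity) (by norm_num)]
    nlinarith
  have hpφ₀ : φ₀ * p = Real.pi * (1 + p) / 4 := by
    rw [hφ₀]
    field_simp
  have hcneg : Real.cos (φ₀ * p) < 0 := by
    rw [hpφ₀]
    apply Real.cos_neg_of_pi_div_two_lt_of_lt <;> nlinarith
  have hcos0 : 0 < Real.cos φ₀ := Real.cos_pos_of_mem_Ioo ⟨by linarith, hφ₀lt⟩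
  set c₀ : ℝ := -Real.cos (φ₀ * p) with hc₀
  have hc₀pos : 0 < c₀ := by rw [hc₀]; linarith
  set B : ℝ := 1 / c₀ with hB
  have hBpos : 0 < B := by positivity
  set A : ℝ := (1 + B) / (Real.cos φ₀) ^ p with hA
  have hcosp : 0 < (Real.cos φ₀) ^ p := Real.rpow_pos_of_pos hcos0 p
  have hApos : 0 < A := by positivity
  refine ⟨A, B, hApos, hBpos, ?_⟩
  intro w hw
  set φ : ℝ := Complex.arg w with hφ
  have hφlt : |φ| < Real.pi / 2 := Complex.abs_arg_lt_pi_div_two_iff.mpr (Or.inl hw)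
  have hr : 0 ≤ ‖w‖ := norm_nonneg w
  have hre : w.re = ‖w‖ * Real.cos φ := (Complex.norm_mul_cos_arg w).symm
  have him : w.im = ‖w‖ * Real.sin φ := (Complex.norm_mul_sin_arg w).symm
  have hpow : (w ^ (p : ℂ)).re = ‖w‖ ^ p * Real.cos (φ * p) := Complex.cpow_ofReal_re w p
  have hcosφ : 0 < Real.cos φ := Real.cos_pos_of_mem_Ioo ⟨by linarith [(abs_lt.mp hφlt).1],
    (abs_lt.mp hφlt).2⟩
  have key : |Real.sin φ| ^ p ≤ A * Real.cos φ ^ p - B * Real.cos (φ * p) := by
    have hsin : |Real.sin φ| ^ p ≤ 1 :=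
      Real.rpow_le_one (abs_nonneg _) (Real.abs_sin_le_one φ) hp0.le
    have hcosabs : Real.cos (φ * p) = Real.cos (|φ| * p) := by
      rw [← Real.cos_abs (φ * p), abs_mul, abs_of_pos hp0]
    rcases le_total φ₀ |φ| with h | h
    · have h1 : Real.cos (|φ| * p) ≤ Real.cos (φ₀ * p) := by
        apply Real.cos_le_cos_of_nonneg_of_le_pi
        · positivity
        · calc |φ| * p ≤ Real.pi / 2 * 2 := by
                apply mul_le_mul hφlt.le hp2 hp0.le (by positivity)
            _ = Real.pi := by ring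
        · exact mul_le_mul_of_nonneg_right h hp0.le
      have h2 : 1 ≤ -(B * Real.cos (φ * p)) := by
        rw [hcosabs]
        have : B * c₀ = 1 := by rw [hB]; field_simp
        nlinarith
      have h3 : 0 ≤ A * Real.cos φ ^ p := by positivity
      linarith
    · have h1 : Real.cos φ₀ ≤ Real.cos φ := by
        rw [← Real.cos_abs φ]
        apply Real.cos_le_cos_of_nonneg_of_le_pi (abs_nonneg _) (by linarith) h
      have h2 : 1 + B ≤ A * Real.cos φ ^ p := by
        calc 1 + B = A * Real.cos φ₀ ^ p := by rw [hA]; field_simp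
          _ ≤ A * Real.cos φ ^ p := by
            apply mul_le_mul_of_nonneg_left _ hApos.le
            exact Real.rpow_le_rpow hcos0.le h1 hp0.le
      have h3 : B * Real.cos (φ * p) ≤ B := by
        calc B * Real.cos (φ * p) ≤ B * 1 :=
              mul_le_mul_of_nonneg_left (Real.cos_le_one _) hBpos.le
          _ = B := mul_one B
      linarith
  calc |w.im| ^ p = ‖w‖ ^ p * |Real.sin φ| ^ p := by
        rw [him, abs_mul, abs_of_nonneg hr, Real.mul_rpow hr (abs_nonneg _)]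
    _ ≤ ‖w‖ ^ p * (A * Real.cos φ ^ p - B * Real.cos (φ * p)) :=
        mul_le_mul_of_nonneg_left key (Real.rpow_nonneg hr p)
    _ = A * w.re ^ p - B * (w ^ (p : ℂ)).re := by
        rw [hpow, hre, Real.mul_rpow hr hcosφ.le]
        ring

/-- The Poisson-type kernel. -/
noncomputable def Pk (t : ℝ) : ℝ := 1 / (1 + t ^ 2)

/-- The conjugate kernel. -/
noncomputable def Qk (t : ℝ) : ℝ := t / (1 + t ^ 2)

lemma Pk_pos (t : ℝ) : 0 < Pk t := by
  unfold Pk
  positivity

/-- `Pk` is controlled on unit intervals. -/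
lemma Pk_shift_le (u s : ℝ) (hs : 0 ≤ s) (hs1 : s ≤ 1) : Pk (u + s) ≤ 3 * Pk u := by
  unfold Pk
  rw [mul_one_div, div_le_div_iff₀ (by positivity) (by positivity)]
  nlinarith [sq_nonneg (u + 2 * s), sq_nonneg (u + s), sq_nonneg s]

lemma Qk_shift_le (u s : ℝ) (hs : 0 ≤ s) (hs1 : s ≤ 1) : |Qk u - Qk (u + s)| ≤ 3 * Pk u := by
  unfold Pk Qk
  have h1 : (0 : ℝ) < 1 + u ^ 2 := by positivity
  have h2 : (0 : ℝ) < 1 + (u + s) ^ 2 := by positivity
  have e : u / (1 + u ^ 2) - (u + s) / (1 + (u + s) ^ 2) =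
      (s * (u * (u + s) - 1)) / ((1 + u ^ 2) * (1 + (u + s) ^ 2)) := by
    field_simp
    ring
  rw [e, abs_div, abs_of_pos (mul_pos h1 h2), mul_one_div, div_le_div_iff₀ (mul_pos h1 h2) h1]
  have h3 : |s * (u * (u + s) - 1)| ≤ 3 * (1 + (u + s) ^ 2) := by
    rw [abs_mul, abs_of_nonneg hs]
    have h4 : |u * (u + s) - 1| ≤ 3 * (1 + (u + s) ^ 2) := by
      rw [abs_le]
      constructor <;> nlinarith [sq_nonneg (u + s + 1), sq_nonneg (u + s - 1), sq_nonneg (u + s),
        mul_nonneg hs (sq_nonneg (u + s)), sq_nonneg u, mul_nonneg hs (sub_nonneg.mpr hs1)]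
    calc s * |u * (u + s) - 1| ≤ 1 * |u * (u + s) - 1| :=
          mul_le_mul_of_nonneg_right hs1 (abs_nonneg _)
      _ ≤ _ := by rw [one_mul]; exact h4
  calc |s * (u * (u + s) - 1)| * (1 + u ^ 2) ≤ 3 * (1 + (u + s) ^ 2) * (1 + u ^ 2) :=
        mul_le_mul_of_nonneg_right h3 h1.le
    _ = 3 * ((1 + u ^ 2) * (1 + (u + s) ^ 2)) := by ring

/-- Summability constant. -/
lemma exists_l1_bound : ∃ w : ℝ, 0 ≤ w ∧ ∀ S : Finset ℤ, ∑ x ∈ S, Pk (x : ℝ) ≤ w := by
  have h1 : Summable (fun n : ℤ => 1 / (n : ℝ) ^ 2) :=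
    Real.summable_one_div_int_pow.mpr (by norm_num)
  have h2 : Summable (fun n : ℤ => if n = 0 then (1 : ℝ) else 0) :=
    summable_of_ne_finset_zero (s := {0}) (by intro b hb; simp at hb; simp [hb])
  have h3 : Summable (fun n : ℤ => Pk (n : ℝ)) := by
    refine Summable.of_nonneg_of_le (fun n => (Pk_pos _).le) (fun n => ?_) (h1.add h2)
    by_cases hn : n = 0
    · simp [hn, Pk]
    · simp only [hn, if_false, add_zero]
      unfold Pk
      have : (0 : ℝ) < (n : ℝ) ^ 2 := by positivity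
      apply one_div_le_one_div_of_le this
      linarith
  refine ⟨∑' n : ℤ, Pk (n : ℝ), tsum_nonneg fun n => (Pk_pos _).le, fun S => ?_⟩
  exact h3.sum_le_tsum S fun n _ => (Pk_pos _).le

/-- The analytic function. -/
noncomputable def Fan (S : Finset ℤ) (a : ℤ → ℝ) (z : ℂ) : ℂ :=
  ∑ y ∈ S, (a y : ℂ) * (Complex.I / (z - y))

lemma I_div_re (z : ℂ) : (Complex.I / z).re = z.im / Complex.normSq z := by
  simp [Complex.div_re]

lemma I_div_im (z : ℂ) : (Complex.I / z).im = z.re / Complex.normSq z := by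
  simp [Complex.div_im]

lemma Fan_re (S : Finset ℤ) (a : ℤ → ℝ) (t : ℝ) :
    (Fan S a (t + Complex.I)).re = ∑ y ∈ S, a y * Pk (t - y) := by
  unfold Fan
  rw [Complex.re_sum]
  refine Finset.sum_congr rfl fun y _ => ?_
  rw [Complex.re_ofReal_mul, I_div_re]
  simp [Complex.normSq_apply, Pk]
  left
  ring

lemma Fan_im (S : Finset ℤ) (a : ℤ → ℝ) (t : ℝ) :
    (Fan S a (t + Complex.I)).im = ∑ y ∈ S, a y * Qk (t - y) := by
  unfold Fan
  rw [Complex.im_sum]
  refine Finset.sum_congr rfl fun y _ => ?_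
  rw [Complex.im_ofReal_mul, I_div_im]
  simp [Complex.normSq_apply, Qk]
  left
  congr 1
  ring

lemma Fan_re_pos (S : Finset ℤ) (a : ℤ → ℝ) (ha : ∀ y ∈ S, 0 ≤ a y) (hpos : ∃ y ∈ S, 0 < a y)
    (z : ℂ) (hz : 0 < z.im) : 0 < (Fan S a z).re := by
  unfold Fan
  rw [Complex.re_sum]
  apply Finset.sum_pos'
  · intro y hy
    rw [Complex.re_ofReal_mul, I_div_re]
    apply mul_nonneg (ha y hy)
    apply div_nonneg _ (Complex.normSq_nonneg _)
    simp [hz.le]
  · obtain ⟨y, hy, hay⟩ := hpos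
    refine ⟨y, hy, ?_⟩
    rw [Complex.re_ofReal_mul, I_div_re]
    apply mul_pos hay
    apply div_pos
    · simpa using hz
    · apply Complex.normSq_pos.mpr
      intro h
      have := congrArg Complex.im h
      simp at this
      linarith

lemma Fan_norm_le (S : Finset ℤ) (a : ℤ → ℝ) (ha : ∀ y ∈ S, 0 ≤ a y) (z : ℂ) (R : ℝ) (hR : 0 < R)
    (hz : ∀ y ∈ S, R ≤ ‖z - y‖) : ‖Fan S a z‖ ≤ (∑ y ∈ S, a y) / R := by
  unfold Fan
  rw [Finset.sum_div]
  refine (norm_sum_le _ _).trans (Finset.sum_le_sum fun y hy => ?_)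
  rw [norm_mul, norm_div, Complex.norm_I, Complex.norm_real, Real.norm_of_nonneg (ha y hy),
    mul_one_div]
  exact div_le_div_of_nonneg_left (ha y hy) hR (hz y hy)

lemma Fan_differentiableAt (S : Finset ℤ) (a : ℤ → ℝ) (z : ℂ) (hz : 0 < z.im) :
    DifferentiableAt ℂ (Fan S a) z := by
  unfold Fan
  apply DifferentiableAt.fun_sum
  intro y _
  apply DifferentiableAt.const_mul
  apply DifferentiableAt.div (differentiableAt_const _)
  · exact differentiableAt_id.sub (differentiableAt_const _)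
  · intro h
    have := congrArg Complex.im h
    simp at this
    linarith

/-- The contour integral tends to zero. -/
lemma contour_tendsto (hp1 : 1 < p) (S : Finset ℤ) (a : ℤ → ℝ) (ha : ∀ y ∈ S, 0 ≤ a y)
    (hpos : ∃ y ∈ S, 0 < a y) :
    Tendsto (fun R : ℕ => ∫ t in (-(R : ℝ))..R, (Fan S a (t + Complex.I)) ^ (p : ℂ)) atTop
      (𝓝 0) := by
  have hp0 : 0 < p := by linarith
  set A₁ : ℝ := ∑ y ∈ S, a y with hA₁
  have hA₁0 : 0 ≤ A₁ := Finset.sum_nonneg ha
  obtain ⟨B, hB⟩ : ∃ B : ℝ, ∀ y ∈ S, |(y : ℝ)| ≤ B := by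
    obtain ⟨B, hB⟩ := (S.image (fun y : ℤ => |(y : ℝ)|)).bddAbove
    exact ⟨B, fun y hy => hB (Finset.mem_coe.mpr (Finset.mem_image_of_mem _ hy))⟩
  have hdiff : ∀ z : ℂ, 0 < z.im → DifferentiableAt ℂ (fun z => Fan S a z ^ (p : ℂ)) z := by
    intro z hz
    apply (Fan_differentiableAt S a z hz).cpow_const
    exact Or.inl (Fan_re_pos S a ha hpos z hz)
  have hbound : ∀ᶠ R : ℕ in atTop,
      ‖∫ t in (-(R : ℝ))..R, (Fan S a (t + Complex.I)) ^ (p : ℂ)‖ ≤
        4 * (2 * A₁) ^ p * (R : ℝ) ^ (1 - p) := by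
    filter_upwards [eventually_ge_atTop (max 1 ⌈2 * B⌉₊)] with R hR
    have hR1 : (1 : ℝ) ≤ R := by exact_mod_cast (le_max_left _ _).trans hR
    have hRB : 2 * B ≤ R := (Nat.le_ceil _).trans (by exact_mod_cast (le_max_right _ _).trans hR)
    have hR0 : (0 : ℝ) < R := by linarith
    have hrect := Complex.integral_boundary_rect_eq_zero_of_differentiableOn
      (fun z => Fan S a z ^ (p : ℂ)) (-(R : ℝ) + Complex.I) (R + R * Complex.I) (by
        intro z hz
        apply (hdiff z _).differentiableWithinAt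
        have := hz.2
        simp only [Set.mem_preimage] at this
        simp at this
        rw [Set.uIcc_of_le hR1] at this
        linarith [this.1])
    have e1 : (-(R : ℝ) + Complex.I : ℂ).re = -R := by simp
    have e2 : (-(R : ℝ) + Complex.I : ℂ).im = 1 := by simp
    have e3 : (R + R * Complex.I : ℂ).re = R := by simp
    have e4 : (R + R * Complex.I : ℂ).im = R := by simp
    rw [e1, e2, e3, e4] at hrect
    have hM : ∀ z : ℂ, (∀ y ∈ S, (R : ℝ) / 2 ≤ ‖z - y‖) →
        ‖Fan S a z ^ (p : ℂ)‖ ≤ (2 * A₁) ^ p * (R : ℝ) ^ (-p) := by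
      intro z hz
      rw [Complex.norm_cpow_real]
      have h1 := Fan_norm_le S a ha z (R / 2) (by positivity) hz
      calc ‖Fan S a z‖ ^ p ≤ (A₁ / (R / 2)) ^ p := Real.rpow_le_rpow (norm_nonneg _) h1 hp0.le
        _ = (2 * A₁) ^ p * (R : ℝ) ^ (-p) := by
          rw [show A₁ / ((R : ℝ) / 2) = (2 * A₁) * (R : ℝ)⁻¹ by field_simp,
            Real.mul_rpow (by positivity) (by positivity), Real.inv_rpow hR0.le,
            Real.rpow_neg hR0.le]
    have htop : ‖∫ x in (-(R : ℝ))..R, Fan S a ((x : ℂ) + ((R : ℝ) : ℂ) * Complex.I) ^ (p : ℂ)‖ ≤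
        (2 * A₁) ^ p * (R : ℝ) ^ (-p) * |(R : ℝ) - (-R)| := by
      apply intervalIntegral.norm_integral_le_of_norm_le_const
      intro x _
      apply hM
      intro y _
      calc (R : ℝ) / 2 ≤ R := by linarith
        _ = |((x : ℂ) + ((R : ℝ) : ℂ) * Complex.I - y).im| := by simp
        _ ≤ _ := Complex.abs_im_le_norm _
    have hright : ‖∫ y' in (1 : ℝ)..R, Fan S a (((R : ℝ) : ℂ) + (y' : ℂ) * Complex.I) ^ (p : ℂ)‖ ≤
        (2 * A₁) ^ p * (R : ℝ) ^ (-p) * |(R : ℝ) - 1| := by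
      apply intervalIntegral.norm_integral_le_of_norm_le_const
      intro y' _
      apply hM
      intro y hy
      have h1 := hB y hy
      calc (R : ℝ) / 2 ≤ R - y := by linarith [le_abs_self (y : ℝ)]
        _ ≤ |(R : ℝ) - y| := le_abs_self _
        _ = |(((R : ℝ) : ℂ) + (y' : ℂ) * Complex.I - y).re| := by simp
        _ ≤ _ := Complex.abs_re_le_norm _
    have hleft : ‖∫ y' in (1 : ℝ)..R, Fan S a (((-(R : ℝ) : ℝ) : ℂ) + (y' : ℂ) * Complex.I)
        ^ (p : ℂ)‖ ≤ (2 * A₁) ^ p * (R : ℝ) ^ (-p) * |(R : ℝ) - 1| := by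
      apply intervalIntegral.norm_integral_le_of_norm_le_const
      intro y' _
      apply hM
      intro y hy
      have h1 := hB y hy
      calc (R : ℝ) / 2 ≤ R + y := by linarith [neg_abs_le (y : ℝ)]
        _ ≤ |-((R : ℝ) + y)| := by rw [abs_neg]; exact le_abs_self _
        _ = |(((-(R : ℝ) : ℝ) : ℂ) + (y' : ℂ) * Complex.I - y).re| := by
          simp
          congr 1
          ring
        _ ≤ _ := Complex.abs_re_le_norm _
    have hmain : ∫ t in (-(R : ℝ))..R, (Fan S a (t + Complex.I)) ^ (p : ℂ) =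
        (∫ x in (-(R : ℝ))..R, Fan S a ((x : ℂ) + ((R : ℝ) : ℂ) * Complex.I) ^ (p : ℂ)) -
        Complex.I * (∫ y' in (1 : ℝ)..R, Fan S a (((R : ℝ) : ℂ) + (y' : ℂ) * Complex.I) ^ (p : ℂ)) +
        Complex.I * (∫ y' in (1 : ℝ)..R, Fan S a (((-(R : ℝ) : ℝ) : ℂ) + (y' : ℂ) * Complex.I)
          ^ (p : ℂ)) := by
      simp only [Complex.ofReal_one, one_mul, smul_eq_mul] at hrect
      linear_combination hrect
    have hmul : (2 * A₁) ^ p * (R : ℝ) ^ (-p) * R = (2 * A₁) ^ p * (R : ℝ) ^ (1 - p) := by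
      rw [mul_assoc]
      congr 1
      rw [show (1 - p) = -p + 1 by ring, Real.rpow_add hR0, Real.rpow_one]
    have hnn : 0 ≤ (2 * A₁) ^ p * (R : ℝ) ^ (-p) := by positivity
    rw [hmain]
    calc _ ≤ ‖∫ x in (-(R : ℝ))..R, Fan S a ((x : ℂ) + ((R : ℝ) : ℂ) * Complex.I) ^ (p : ℂ)‖ +
        ‖Complex.I * (∫ y' in (1 : ℝ)..R, Fan S a (((R : ℝ) : ℂ) + (y' : ℂ) * Complex.I)
          ^ (p : ℂ))‖ +
        ‖Complex.I * (∫ y' in (1 : ℝ)..R, Fan S a (((-(R : ℝ) : ℝ) : ℂ) + (y' : ℂ) * Complex.I)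
          ^ (p : ℂ))‖ := (norm_add_le _ _).trans (by gcongr; exact norm_sub_le _ _)
      _ ≤ (2 * A₁) ^ p * (R : ℝ) ^ (-p) * (2 * R) + (2 * A₁) ^ p * (R : ℝ) ^ (-p) * R +
          (2 * A₁) ^ p * (R : ℝ) ^ (-p) * R := by
        rw [norm_mul, norm_mul, Complex.norm_I, one_mul, one_mul]
        have h2R : |(R : ℝ) - (-R)| = 2 * R := by
          rw [sub_neg_eq_add, abs_of_pos (by linarith)]
          ring
        have hR1' : |(R : ℝ) - 1| ≤ R := by
          rw [abs_of_nonneg (by linarith)]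
          linarith
        rw [h2R] at htop
        gcongr
        · exact hright.trans (mul_le_mul_of_nonneg_left hR1' hnn)
        · exact hleft.trans (mul_le_mul_of_nonneg_left hR1' hnn)
      _ = 4 * (2 * A₁) ^ p * (R : ℝ) ^ (1 - p) := by
        linear_combination 4 * hmul
  have hlim : Tendsto (fun R : ℕ => 4 * (2 * A₁) ^ p * (R : ℝ) ^ (1 - p)) atTop (𝓝 0) := by
    have h1 : Tendsto (fun R : ℕ => (R : ℝ) ^ (-(p - 1))) atTop (𝓝 0) :=
      (tendsto_rpow_neg_atTop (by linarith)).comp tendsto_natCast_atTop_atTop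
    have h2 := h1.const_mul (4 * (2 * A₁) ^ p)
    rw [mul_zero] at h2
    refine h2.congr fun R => ?_
    rw [show -(p - 1) = 1 - p by ring]
  exact squeeze_zero_norm' hbound hlim


lemma sum_unit_integrals (φ : ℝ → ℝ) (hφ : Continuous φ) (R : ℕ) :
    ∑ x ∈ Finset.Ico (-(R : ℤ)) R, ∫ t in (x : ℝ)..(x + 1), φ t = ∫ t in (-(R : ℝ))..R, φ t := by
  induction R with
  | zero => simp
  | succ R ih =>
    have hi : ∀ a b : ℝ, IntervalIntegrable φ volume a b := fun a b => hφ.intervalIntegrable a b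
    have h1 : Finset.Ico (-((R + 1 : ℕ) : ℤ)) ((R + 1 : ℕ) : ℤ) =
        insert (-((R : ℤ) + 1)) (insert (R : ℤ) (Finset.Ico (-(R : ℤ)) R)) := by
      ext x
      simp only [Finset.mem_Ico, Finset.mem_insert]
      push_cast
      omega
    rw [h1, Finset.sum_insert, Finset.sum_insert, ih]
    · have h2 : ((-((R : ℤ) + 1) : ℤ) : ℝ) = -((R + 1 : ℕ) : ℝ) := by push_cast; ring
      have h3 : ((-((R : ℤ) + 1) : ℤ) : ℝ) + 1 = -(R : ℝ) := by push_cast; ring
      have h4 : ((R : ℤ) : ℝ) + 1 = ((R + 1 : ℕ) : ℝ) := by push_cast; ring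
      have h5 : ((R : ℤ) : ℝ) = (R : ℝ) := by push_cast; ring
      rw [h3, h2, h4, h5]
      have e1 := intervalIntegral.integral_add_adjacent_intervals
        (hi (-((R + 1 : ℕ) : ℝ)) (-(R : ℝ))) (hi (-(R : ℝ)) ((R + 1 : ℕ) : ℝ))
      have e2 := intervalIntegral.integral_add_adjacent_intervals
        (hi (-(R : ℝ)) (R : ℝ)) (hi (R : ℝ) ((R + 1 : ℕ) : ℝ))
      rw [← e1, ← e2]
      ring
    · simp
    · simp only [Finset.mem_insert, Finset.mem_Ico]
      omega

/-- M. Riesz's inequality for nonnegative sequences, `1 < p ≤ 2`. -/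
lemma riesz_nonneg (hp1 : 1 < p) (hp2 : p ≤ 2) (hpq : p.HolderConjugate q) :
    ∃ C : ℝ, 0 ≤ C ∧ ∀ (S T : Finset ℤ) (a : ℤ → ℝ), (∀ y ∈ S, 0 ≤ a y) →
      ∑ x ∈ T, |∑ y ∈ S, a y * Qk ((x : ℝ) - y)| ^ p ≤ C * ∑ y ∈ S, a y ^ p := by
  have hp0 : 0 < p := by linarith
  obtain ⟨A, B, hA, hB, hAB⟩ := pointwise_riesz hp1 hp2
  obtain ⟨w, hw0, hw⟩ := exists_l1_bound
  -- the kernel 3 Pk
  have hK : Mult p q (fun x => ((3 * Pk (x : ℝ) : ℝ) : ℂ)) (3 * w) := by
    apply Mult.of_l1 hpq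
    intro S
    calc ∑ x ∈ S, ‖((3 * Pk (x : ℝ) : ℝ) : ℂ)‖ = 3 * ∑ x ∈ S, Pk (x : ℝ) := by
          rw [Finset.mul_sum]
          refine Finset.sum_congr rfl fun x _ => ?_
          rw [Complex.norm_real, Real.norm_of_nonneg]
          have := Pk_pos (x : ℝ)
          positivity
      _ ≤ 3 * w := mul_le_mul_of_nonneg_left (hw S) (by norm_num)
  set C₀ : ℝ := strongC p q (3 * w) with hC₀
  have hC₀0 : 0 ≤ C₀ := strongC_nonneg hpq (by positivity)
  have hW : ∀ (S T : Finset ℤ) (a : ℤ → ℝ), (∀ y ∈ S, 0 ≤ a y) →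
      ∑ x ∈ T, (∑ y ∈ S, a y * (3 * Pk ((x : ℝ) - y))) ^ p ≤ C₀ * ∑ y ∈ S, a y ^ p := by
    intro S T a ha
    have h1 := hK.strong hpq S T (fun y => (a y : ℂ))
    have h2 : ∀ x ∈ T, ‖∑ y ∈ S, ((3 * Pk ((x - y : ℤ) : ℝ) : ℝ) : ℂ) * (a y : ℂ)‖ ^ p =
        (∑ y ∈ S, a y * (3 * Pk ((x : ℝ) - y))) ^ p := by
      intro x _
      have h3 : ∑ y ∈ S, ((3 * Pk ((x - y : ℤ) : ℝ) : ℝ) : ℂ) * (a y : ℂ) =
          ((∑ y ∈ S, a y * (3 * Pk ((x : ℝ) - y)) : ℝ) : ℂ) := by
        push_cast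
        refine Finset.sum_congr rfl fun y _ => ?_
        ring
      rw [h3, Complex.norm_real, Real.norm_of_nonneg]
      apply Finset.sum_nonneg
      intro y hy
      have := Pk_pos ((x : ℝ) - y)
      have := ha y hy
      positivity
    rw [Finset.sum_congr rfl h2] at h1
    have h4 : ∑ y ∈ S, ‖((a y : ℝ) : ℂ)‖ ^ p = ∑ y ∈ S, a y ^ p := by
      refine Finset.sum_congr rfl fun y hy => ?_
      rw [Complex.norm_real, Real.norm_of_nonneg (ha y hy)]
    rw [h4] at h1
    exact h1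
  refine ⟨2 ^ (p - 1) * (A * C₀ + C₀), by positivity, ?_⟩
  intro S T a ha
  by_cases hpos : ∃ y ∈ S, 0 < a y
  swap
  · -- all zero
    push Not at hpos
    have hz : ∀ y ∈ S, a y = 0 := fun y hy => le_antisymm (hpos y hy) (ha y hy)
    have h1 : ∑ x ∈ T, |∑ y ∈ S, a y * Qk ((x : ℝ) - y)| ^ p = 0 := by
      apply Finset.sum_eq_zero
      intro x _
      rw [Finset.sum_eq_zero (fun y hy => by rw [hz y hy, zero_mul]), abs_zero,
        Real.zero_rpow hp0.ne']
    rw [h1]
    have : 0 ≤ ∑ y ∈ S, a y ^ p := Finset.sum_nonneg fun y hy => Real.rpow_nonneg (ha y hy) p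
    positivity
  set E : ℝ := ∑ y ∈ S, a y ^ p with hE
  have hE0 : 0 ≤ E := Finset.sum_nonneg fun y hy => Real.rpow_nonneg (ha y hy) p
  set U : ℝ → ℝ := fun t => ∑ y ∈ S, a y * Pk (t - y) with hU
  set V : ℝ → ℝ := fun t => ∑ y ∈ S, a y * Qk (t - y) with hV
  have hcontPk : Continuous Pk := by
    unfold Pk
    apply Continuous.div continuous_const (by fun_prop)
    intro t
    positivity
  have hcontQk : Continuous Qk := by
    unfold Qk
    apply Continuous.div continuous_id (by fun_prop)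
    intro t
    positivity
  have hUc : Continuous U := by
    rw [hU]
    fun_prop
  have hVc : Continuous V := by
    rw [hV]
    fun_prop
  have hU0 : ∀ t, 0 ≤ U t := fun t => Finset.sum_nonneg fun y hy =>
    mul_nonneg (ha y hy) (Pk_pos _).le
  have hFc : Continuous (fun t : ℝ => (Fan S a (t + Complex.I)) ^ (p : ℂ)) := by
    rw [continuous_iff_continuousAt]
    intro t
    have h1 : DifferentiableAt ℂ (fun z => Fan S a z ^ (p : ℂ)) (t + Complex.I) := by
      apply (Fan_differentiableAt S a _ (by simp)).cpow_const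
      exact Or.inl (Fan_re_pos S a ha hpos _ (by simp))
    have h2 : ContinuousAt (fun t : ℝ => (t : ℂ) + Complex.I) t := by fun_prop
    exact ContinuousAt.comp (g := fun z => Fan S a z ^ (p : ℂ)) (f := fun t : ℝ => (t : ℂ) +
      Complex.I) h1.continuousAt h2
  have hUpc : Continuous (fun t => U t ^ p) := hUc.rpow_const fun t => Or.inr hp0.le
  have hVpc : Continuous (fun t => |V t| ^ p) := hVc.abs.rpow_const fun t => Or.inr hp0.le
  -- main inequality on [-R, R]
  have hmain : ∀ R : ℕ, ∫ t in (-(R : ℝ))..R, |V t| ^ p ≤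
      A * (∫ t in (-(R : ℝ))..R, U t ^ p) -
        B * (∫ t in (-(R : ℝ))..R, (Fan S a (t + Complex.I)) ^ (p : ℂ)).re := by
    intro R
    have hle : -(R : ℝ) ≤ R := by
      have : (0 : ℝ) ≤ R := by positivity
      linarith
    have hre : (∫ t in (-(R : ℝ))..R, (Fan S a (t + Complex.I)) ^ (p : ℂ)).re =
        ∫ t in (-(R : ℝ))..R, ((Fan S a (t + Complex.I)) ^ (p : ℂ)).re := by
      have := Complex.reCLM.intervalIntegral_comp_comm (hFc.intervalIntegrable (μ := volume)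
        (-(R : ℝ)) R)
      simp only [Complex.reCLM_apply] at this
      exact this.symm
    rw [hre, ← intervalIntegral.integral_const_mul, ← intervalIntegral.integral_const_mul,
      ← intervalIntegral.integral_sub]
    · apply intervalIntegral.integral_mono_on hle (hVpc.intervalIntegrable _ _)
      · apply Continuous.intervalIntegrable
        have := Complex.continuous_re.comp hFc
        fun_prop
      · intro t _
        have h1 := hAB (Fan S a (t + Complex.I)) (Fan_re_pos S a ha hpos _ (by simp))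
        rw [Fan_re, Fan_im] at h1
        exact h1
    · apply Continuous.intervalIntegrable
      fun_prop
    · apply Continuous.intervalIntegrable
      have := Complex.continuous_re.comp hFc
      fun_prop
  -- bound of the U integral
  have hUint : ∀ R : ℕ, ∫ t in (-(R : ℝ))..R, U t ^ p ≤ C₀ * E := by
    intro R
    rw [← sum_unit_integrals _ hUpc R]
    refine le_trans (Finset.sum_le_sum fun x _ => ?_) (hW S (Finset.Ico (-(R : ℤ)) R) a ha)
    have h1 : ∀ t ∈ Set.Icc (x : ℝ) (x + 1), U t ^ p ≤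
        (∑ y ∈ S, a y * (3 * Pk ((x : ℝ) - y))) ^ p := by
      intro t ht
      apply Real.rpow_le_rpow (hU0 t) _ hp0.le
      apply Finset.sum_le_sum
      intro y hy
      apply mul_le_mul_of_nonneg_left _ (ha y hy)
      have := Pk_shift_le ((x : ℝ) - y) (t - x) (by linarith [ht.1]) (by linarith [ht.2])
      rw [show (x : ℝ) - y + (t - x) = t - y by ring] at this
      exact this
    calc ∫ t in (x : ℝ)..(x + 1), U t ^ p ≤ ∫ t in (x : ℝ)..(x + 1),
          (∑ y ∈ S, a y * (3 * Pk ((x : ℝ) - y))) ^ p :=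
          intervalIntegral.integral_mono_on (by linarith) (hUpc.intervalIntegrable _ _)
            (continuous_const.intervalIntegrable _ _) h1
      _ = _ := by simp
  -- discretisation
  have hdisc : ∀ x : ℤ, |V x| ^ p ≤ 2 ^ (p - 1) * ((∫ t in (x : ℝ)..(x + 1), |V t| ^ p) +
      (∑ y ∈ S, a y * (3 * Pk ((x : ℝ) - y))) ^ p) := by
    intro x
    set Wx : ℝ := ∑ y ∈ S, a y * (3 * Pk ((x : ℝ) - y)) with hWx
    have hWx0 : 0 ≤ Wx := Finset.sum_nonneg fun y hy => by
      have := Pk_pos ((x : ℝ) - y)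
      have := ha y hy
      positivity
    have h1 : ∀ t ∈ Set.Icc (x : ℝ) (x + 1), |V x| ^ p ≤ 2 ^ (p - 1) * (|V t| ^ p + Wx ^ p) := by
      intro t ht
      have h2 : |V x| ≤ |V t| + Wx := by
        have h3 : |V x - V t| ≤ Wx := by
          rw [hV]
          simp only
          rw [← Finset.sum_sub_distrib]
          refine (Finset.abs_sum_le_sum_abs _ _).trans (Finset.sum_le_sum fun y hy => ?_)
          rw [← mul_sub, abs_mul, abs_of_nonneg (ha y hy)]
          apply mul_le_mul_of_nonneg_left _ (ha y hy)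
          have := Qk_shift_le ((x : ℝ) - y) (t - x) (by linarith [ht.1]) (by linarith [ht.2])
          rw [show (x : ℝ) - y + (t - x) = t - y by ring] at this
          exact this
        calc |V x| = |V t + (V x - V t)| := by ring_nf
          _ ≤ |V t| + |V x - V t| := abs_add_le _ _
          _ ≤ _ := by linarith
      calc |V x| ^ p ≤ (|V t| + Wx) ^ p := Real.rpow_le_rpow (abs_nonneg _) h2 hp0.le
        _ ≤ 2 ^ (p - 1) * (|V t| ^ p + Wx ^ p) := by
          have := NNReal.rpow_add_le_mul_rpow_add_rpow ⟨|V t|, abs_nonneg _⟩ ⟨Wx, hWx0⟩ hp1.le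
          exact_mod_cast this
    calc |V x| ^ p = ∫ t in (x : ℝ)..(x + 1), |V x| ^ p := by simp
      _ ≤ ∫ t in (x : ℝ)..(x + 1), 2 ^ (p - 1) * (|V t| ^ p + Wx ^ p) := by
        apply intervalIntegral.integral_mono_on (by linarith)
          (continuous_const.intervalIntegrable _ _)
        · apply Continuous.intervalIntegrable
          fun_prop
        · exact h1
      _ = _ := by
        rw [intervalIntegral.integral_const_mul, intervalIntegral.integral_add
          (hVpc.intervalIntegrable _ _) (continuous_const.intervalIntegrable _ _)]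
        simp
  -- conclusion
  have hconc : ∀ᶠ R : ℕ in atTop, ∑ x ∈ T, |V x| ^ p ≤ 2 ^ (p - 1) * ((A * (C₀ * E) -
      B * (∫ t in (-(R : ℝ))..R, (Fan S a (t + Complex.I)) ^ (p : ℂ)).re) + C₀ * E) := by
    obtain ⟨R₀, hR₀⟩ : ∃ R₀ : ℕ, ∀ x ∈ T, |x| < R₀ := by
      obtain ⟨b, hb⟩ := (T.image (fun y : ℤ => |y|)).bddAbove
      refine ⟨b.toNat + 1, fun x hx => ?_⟩
      have := hb (Finset.mem_coe.mpr (Finset.mem_image_of_mem _ hx))
      have := Int.self_le_toNat b
      push_cast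
      omega
    filter_upwards [eventually_ge_atTop R₀] with R hR
    have hTR : T ⊆ Finset.Ico (-(R : ℤ)) R := by
      intro x hx
      have h1 := abs_lt.mp (hR₀ x hx)
      rw [Finset.mem_Ico]
      omega
    have h1 : ∑ x ∈ T, (∫ t in (x : ℝ)..(x + 1), |V t| ^ p) ≤ ∫ t in (-(R : ℝ))..R, |V t| ^ p := by
      rw [← sum_unit_integrals _ hVpc R]
      apply Finset.sum_le_sum_of_subset_of_nonneg hTR
      intro x _ _
      apply intervalIntegral.integral_nonneg (by linarith)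
      intro t _
      positivity
    calc ∑ x ∈ T, |V x| ^ p ≤ ∑ x ∈ T, 2 ^ (p - 1) * ((∫ t in (x : ℝ)..(x + 1), |V t| ^ p) +
          (∑ y ∈ S, a y * (3 * Pk ((x : ℝ) - y))) ^ p) := Finset.sum_le_sum fun x _ => hdisc x
      _ = 2 ^ (p - 1) * (∑ x ∈ T, (∫ t in (x : ℝ)..(x + 1), |V t| ^ p) +
          ∑ x ∈ T, (∑ y ∈ S, a y * (3 * Pk ((x : ℝ) - y))) ^ p) := by
        rw [← Finset.mul_sum, Finset.sum_add_distrib]
      _ ≤ _ := by
        apply mul_le_mul_of_nonneg_left _ (by positivity)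
        apply add_le_add _ (hW S T a ha)
        refine h1.trans ((hmain R).trans ?_)
        have := mul_le_mul_of_nonneg_left (hUint R) hA.le
        linarith
  have hlim : Tendsto (fun R : ℕ => 2 ^ (p - 1) * ((A * (C₀ * E) -
      B * (∫ t in (-(R : ℝ))..R, (Fan S a (t + Complex.I)) ^ (p : ℂ)).re) + C₀ * E)) atTop
      (𝓝 (2 ^ (p - 1) * ((A * (C₀ * E) - B * 0) + C₀ * E))) := by
    have h1 := (Complex.continuous_re.tendsto _).comp (contour_tendsto hp1 S a ha hpos)
    simp only [Complex.zero_re] at h1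
    exact (((tendsto_const_nhds.sub (h1.const_mul B)).add_const _).const_mul _)
  have hfin := ge_of_tendsto hlim hconc
  calc ∑ x ∈ T, |∑ y ∈ S, a y * Qk ((x : ℝ) - y)| ^ p = ∑ x ∈ T, |V x| ^ p := rfl
    _ ≤ _ := hfin
    _ = 2 ^ (p - 1) * (A * C₀ + C₀) * E := by ring


/-- The kernel of the sawtooth function `1/2 - {θ}`. -/
noncomputable def Kb (x : ℤ) : ℂ := 1 / (2 * (Real.pi : ℂ) * Complex.I * (x : ℂ))

lemma Kb_zero : Kb 0 = 0 := by simp [Kb]

/-- Multiplier bound for the conjugate kernel, `1 < p ≤ 2`. -/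
lemma mult_Qk_of_le_two (hp1 : 1 < p) (hp2 : p ≤ 2) (hpq : p.HolderConjugate q) :
    ∃ C : ℝ, Mult p q (fun x => ((Qk (x : ℝ) : ℝ) : ℂ)) C := by
  obtain ⟨C, hC, h⟩ := riesz_nonneg hp1 hp2 hpq
  have hp0 := hpq.pos
  have hq0 := hpq.symm.pos
  refine ⟨4 * max C 1, ?_⟩
  -- nonnegative a
  have hnn : ∀ (S T : Finset ℤ) (a : ℤ → ℝ) (a' b : ℤ → ℂ), (∀ y, 0 ≤ a y) →
      (∀ y, a y ≤ ‖a' y‖) →
      ‖Bil (fun x => ((Qk (x : ℝ) : ℝ) : ℂ)) S T (fun y => (a y : ℂ)) b‖ ≤
        max C 1 * En p q S T a' b := by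
    intro S T a a' b ha haa
    have h1 := h S T a (fun y _ => ha y)
    have hB0 : 0 ≤ ∑ x ∈ T, ‖b x‖ ^ q := sum_rpow_nonneg q T b
    have hA0 : 0 ≤ ∑ y ∈ S, ‖a' y‖ ^ p := sum_rpow_nonneg p S a'
    have hAA : ∑ y ∈ S, a y ^ p ≤ ∑ y ∈ S, ‖a' y‖ ^ p :=
      Finset.sum_le_sum fun y _ => Real.rpow_le_rpow (ha y) (haa y) hp0.le
    calc ‖Bil (fun x => ((Qk (x : ℝ) : ℝ) : ℂ)) S T (fun y => (a y : ℂ)) b‖
        ≤ ∑ x ∈ T, |∑ y ∈ S, a y * Qk ((x : ℝ) - y)| * ‖b x‖ := by
          unfold Bil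
          refine (norm_sum_le _ _).trans (Finset.sum_le_sum fun x _ => ?_)
          rw [← Finset.sum_mul, norm_mul]
          apply mul_le_mul_of_nonneg_right _ (norm_nonneg _)
          rw [← Real.norm_eq_abs, ← Complex.norm_real]
          apply le_of_eq
          congr 1
          push_cast
          refine Finset.sum_congr rfl fun y _ => ?_
          ring
      _ ≤ ∑ x ∈ T, (|∑ y ∈ S, a y * Qk ((x : ℝ) - y)| ^ p / p + ‖b x‖ ^ q / q) :=
          Finset.sum_le_sum fun x _ =>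
            Real.young_inequality_of_nonneg (abs_nonneg _) (norm_nonneg _) hpq
      _ = (∑ x ∈ T, |∑ y ∈ S, a y * Qk ((x : ℝ) - y)| ^ p) / p + (∑ x ∈ T, ‖b x‖ ^ q) / q := by
          rw [Finset.sum_add_distrib, Finset.sum_div, Finset.sum_div]
      _ ≤ (max C 1 * ∑ y ∈ S, ‖a' y‖ ^ p) / p + (max C 1 * ∑ x ∈ T, ‖b x‖ ^ q) / q := by
          have e1 : ∑ x ∈ T, |∑ y ∈ S, a y * Qk ((x : ℝ) - y)| ^ p ≤
              max C 1 * ∑ y ∈ S, ‖a' y‖ ^ p :=
            h1.trans ((mul_le_mul_of_nonneg_left hAA hC).trans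
              (mul_le_mul_of_nonneg_right (le_max_left _ _) hA0))
          have e2 : ∑ x ∈ T, ‖b x‖ ^ q ≤ max C 1 * ∑ x ∈ T, ‖b x‖ ^ q := by
            calc ∑ x ∈ T, ‖b x‖ ^ q = 1 * ∑ x ∈ T, ‖b x‖ ^ q := (one_mul _).symm
              _ ≤ _ := mul_le_mul_of_nonneg_right (le_max_right _ _) hB0
          gcongr
      _ = max C 1 * En p q S T a' b := by
          unfold En
          ring
  intro S T a b
  set K : ℤ → ℂ := fun x => ((Qk (x : ℝ) : ℝ) : ℂ) with hK
  have hlin : Bil K S T a b = Bil K S T (fun y => ((max (a y).re 0 : ℝ) : ℂ)) b -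
      Bil K S T (fun y => ((max (-(a y).re) 0 : ℝ) : ℂ)) b +
      Complex.I * Bil K S T (fun y => ((max (a y).im 0 : ℝ) : ℂ)) b -
      Complex.I * Bil K S T (fun y => ((max (-(a y).im) 0 : ℝ) : ℂ)) b := by
    have hdec : ∀ z : ℂ, z = ((max z.re 0 : ℝ) : ℂ) - ((max (-z.re) 0 : ℝ) : ℂ) +
        Complex.I * ((max z.im 0 : ℝ) : ℂ) - Complex.I * ((max (-z.im) 0 : ℝ) : ℂ) := by
      intro z
      have h1 : max z.re 0 - max (-z.re) 0 = z.re := by
        rcases le_total z.re 0 with h | h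
        · rw [max_eq_right h, max_eq_left (by linarith)]; ring
        · rw [max_eq_left h, max_eq_right (by linarith)]; ring
      have h2 : max z.im 0 - max (-z.im) 0 = z.im := by
        rcases le_total z.im 0 with h | h
        · rw [max_eq_right h, max_eq_left (by linarith)]; ring
        · rw [max_eq_left h, max_eq_right (by linarith)]; ring
      apply Complex.ext
      · simp only [Complex.add_re, Complex.sub_re, Complex.mul_re, Complex.ofReal_re, Complex.I_re,
          Complex.I_im, Complex.ofReal_im]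
        linarith
      · simp only [Complex.add_im, Complex.sub_im, Complex.mul_im, Complex.ofReal_re, Complex.I_re,
          Complex.I_im, Complex.ofReal_im]
        linarith
    simp only [Bil, Finset.mul_sum]
    rw [← Finset.sum_sub_distrib, ← Finset.sum_add_distrib, ← Finset.sum_sub_distrib]
    refine Finset.sum_congr rfl fun x _ => ?_
    rw [← Finset.sum_sub_distrib, ← Finset.sum_add_distrib, ← Finset.sum_sub_distrib]
    refine Finset.sum_congr rfl fun y _ => ?_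
    nth_rewrite 1 [hdec (a y)]
    ring
  have hbd : ∀ (r : ℤ → ℝ), (∀ y, |r y| ≤ ‖a y‖) →
      ‖Bil K S T (fun y => ((max (r y) 0 : ℝ) : ℂ)) b‖ ≤ max C 1 * En p q S T a b := by
    intro r hr
    apply hnn S T _ a b (fun y => le_max_right _ _)
    intro y
    apply max_le _ (norm_nonneg _)
    exact (le_abs_self _).trans (hr y)
  have b1 := hbd (fun y => (a y).re) (fun y => Complex.abs_re_le_norm _)
  have b2 := hbd (fun y => -(a y).re) (fun y => by rw [abs_neg]; exact Complex.abs_re_le_norm _)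
  have b3 := hbd (fun y => (a y).im) (fun y => Complex.abs_im_le_norm _)
  have b4 := hbd (fun y => -(a y).im) (fun y => by rw [abs_neg]; exact Complex.abs_im_le_norm _)
  rw [hlin]
  refine (norm_sub_le _ _).trans ?_
  refine (add_le_add ((norm_add_le _ _).trans (add_le_add (norm_sub_le _ _) le_rfl)) le_rfl).trans ?_
  rw [norm_mul, norm_mul, Complex.norm_I, one_mul, one_mul]
  linarith

/-- Multiplier bound for the conjugate kernel. -/
lemma mult_Qk (hpq : p.HolderConjugate q) :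
    ∃ C : ℝ, Mult p q (fun x => ((Qk (x : ℝ) : ℝ) : ℂ)) C := by
  rcases le_total p 2 with hp | hp
  · exact mult_Qk_of_le_two hpq.lt hp hpq
  · have hq : q ≤ 2 := by
      have h1 := hpq.inv_add_inv_eq_one
      have hp0 := hpq.pos
      have hq0 := hpq.symm.pos
      have h2 : p⁻¹ ≤ 2⁻¹ := inv_anti₀ (by norm_num) hp
      have h3 : (2 : ℝ)⁻¹ ≤ q⁻¹ := by linarith
      exact (inv_le_inv₀ (by norm_num) hq0).mp h3
    obtain ⟨C, hC⟩ := mult_Qk_of_le_two hpq.symm.lt hq hpq.symm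
    refine ⟨C, ?_⟩
    have h1 := hC.transpose.neg
    refine h1.congr fun x => ?_
    have : Qk ((-x : ℤ) : ℝ) = - Qk (x : ℝ) := by
      unfold Qk
      push_cast
      rw [neg_sq, neg_div]
    rw [this]
    push_cast
    ring

/-- **M. Riesz's theorem** for the sawtooth kernel. -/
theorem mult_Kb (hpq : p.HolderConjugate q) : ∃ C : ℝ, Mult p q Kb C := by
  obtain ⟨C, hC⟩ := mult_Qk hpq
  obtain ⟨w, hw0, hw⟩ := exists_l1_bound
  have hE : Mult p q (fun x : ℤ => ((if x = 0 then 0 else 1 / ((x : ℝ) * (1 + (x : ℝ) ^ 2)) : ℝ) : ℂ))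
      w := by
    apply Mult.of_l1 hpq
    intro S
    refine (Finset.sum_le_sum fun x _ => ?_).trans (hw S)
    rw [Complex.norm_real, Real.norm_eq_abs]
    by_cases hx : x = 0
    · simp only [hx, if_true, abs_zero]
      exact (Pk_pos _).le
    · simp only [hx, if_false]
      have hx1 : (1 : ℝ) ≤ |(x : ℝ)| := by
        exact_mod_cast Int.one_le_abs hx
      unfold Pk
      rw [abs_div, abs_one, abs_mul, abs_of_pos (by positivity : (0 : ℝ) < 1 + (x : ℝ) ^ 2)]
      apply one_div_le_one_div_of_le (by positivity)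
      nlinarith [sq_nonneg (x : ℝ)]
  have h1 := (hC.add hE).const_mul (1 / (2 * (Real.pi : ℂ) * Complex.I))
  refine ⟨_, h1.congr fun x => ?_⟩
  by_cases hx : x = 0
  · simp [hx, Qk, Kb]
  · simp only [hx, if_false]
    unfold Qk Kb
    have hxr : (x : ℂ) ≠ 0 := by exact_mod_cast hx
    have hpi : (Real.pi : ℂ) ≠ 0 := by exact_mod_cast Real.pi_ne_zero
    have h2 : (1 + (x : ℂ) ^ 2) ≠ 0 := by
      have : (1 + (x : ℝ) ^ 2) ≠ 0 := by positivity
      exact_mod_cast this
    push_cast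
    field_simp
    ring

end Pool.Agent.Helper57.Mp
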