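import Mathlib
import Pool.Agent.Helper57.Mp.Kernel2

/-!
Transference: multiplying a (smoothed) kernel by an almost periodic positive kernel.
-/

namespace Pool.Agent.Helper57.Mp

open Finset Filter Topology

variable {p q : ℝ}

/-- The circle `ℝ/ℤ`. -/
abbrev T1 : Type := AddCircle (1 : ℝ)

/-- The character `ee x t = exp(2 π i x t)`. -/
noncomputable def ee (x : ℤ) (t : T1) : ℂ := fourier x t

lemma ee_add_left (x y : ℤ) (t : T1) : ee (x + y) t = ee x t * ee y t := fourier_add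

lemma ee_add_right (x : ℤ) (s t : T1) : ee x (s + t) = ee x s * ee x t := by
  simp only [ee, fourier_apply, smul_add, AddCircle.toCircle_add, Circle.coe_mul]

lemma ee_zero_left (t : T1) : ee 0 t = 1 := fourier_zero

lemma ee_zero_right (x : ℤ) : ee x 0 = 1 := fourier_eval_zero x

lemma norm_ee (x : ℤ) (t : T1) : ‖ee x t‖ = 1 := Circle.norm_coe _

lemma ee_ne_zero (x : ℤ) (t : T1) : ee x t ≠ 0 := by
  intro h
  have := norm_ee x t
  rw [h] at this
  simp at this

lemma ee_neg_right (x : ℤ) (t : T1) : ee x (-t) = ee (-x) t := by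
  simp only [ee, fourier_apply, smul_neg, neg_smul]

lemma ee_neg_left (x : ℤ) (t : T1) : ee (-x) t = (starRingEnd ℂ) (ee x t) := fourier_neg

lemma ee_sub_left (x y : ℤ) (t : T1) : ee (x - y) t = ee x t * ee (-y) t := by
  rw [sub_eq_add_neg, ee_add_left]

lemma ee_sub_right (x : ℤ) (s t : T1) : ee x (s - t) = ee x s * ee (-x) t := by
  rw [sub_eq_add_neg, ee_add_right, ee_neg_right]

lemma ee_natCast (n : ℕ) (t : T1) : ee (n : ℤ) t = ee 1 t ^ n := by
  induction n with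
  | zero => simp [ee_zero_left]
  | succ n ih => rw [Nat.cast_succ, ee_add_left, ih, pow_succ]

lemma ee_zpow (n : ℤ) (t : T1) : ee n t = ee 1 t ^ n := by
  cases n with
  | ofNat n => simpa using ee_natCast n t
  | negSucc n =>
    rw [zpow_negSucc, ← ee_natCast, Int.negSucc_eq, ee_neg_left, ← Complex.inv_eq_conj]
    · push_cast
      rfl
    · exact norm_ee _ _

lemma ee_one_ne_one {t : T1} (ht : t ≠ 0) : ee 1 t ≠ 1 := by
  intro h
  apply ht
  have h1 : AddCircle.toCircle t = AddCircle.toCircle (0 : T1) := by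
    apply Circle.ext
    rw [AddCircle.toCircle_zero, Circle.coe_one, ← h, ee, fourier_one]
  exact AddCircle.injective_toCircle one_ne_zero h1

/-- Geometric sums of nontrivial characters are bounded. -/
lemma geom_bound {t : T1} (ht : t ≠ 0) (m : ℤ) (L : ℕ) :
    ‖∑ i ∈ Finset.range L, ee (m + i) t‖ ≤ 2 / ‖ee 1 t - 1‖ := by
  have h1 : ee 1 t ≠ 1 := ee_one_ne_one ht
  have h2 : ∑ i ∈ Finset.range L, ee (m + i) t = ee m t * ((ee 1 t ^ L - 1) / (ee 1 t - 1)) := by
    rw [← geom_sum_eq h1, Finset.mul_sum]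
    refine Finset.sum_congr rfl fun i _ => ?_
    rw [ee_add_left, ee_natCast]
  rw [h2, norm_mul, norm_ee, one_mul, norm_div]
  apply div_le_div_of_nonneg_right _ (norm_nonneg _)
  calc ‖ee 1 t ^ L - 1‖ ≤ ‖ee 1 t ^ L‖ + ‖(1 : ℂ)‖ := norm_sub_le _ _
    _ = 2 := by rw [norm_pow, norm_ee, one_pow, norm_one]; norm_num

/-- A nonnegative almost periodic kernel with finitely many frequencies. -/
structure PosKer where
  D : Finset T1
  c : T1 → ℝ
  Φ : ℤ → ℝ
  Φ_nonneg : ∀ z, 0 ≤ Φ z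
  Φ_eq : ∀ z, (Φ z : ℂ) = ∑ t ∈ D, (c t : ℂ) * ee z t
  zero_mem : (0 : T1) ∈ D
  c_zero : c 0 = 1
  neg_mem : ∀ t ∈ D, -t ∈ D
  c_neg : ∀ t, c (-t) = c t
  c_nonneg : ∀ t, 0 ≤ c t
  c_le_one : ∀ t, c t ≤ 1

/-- The squared kernel. -/
noncomputable def PosKer.h (k : PosKer) (u : ℤ) : ℂ := ∑ t ∈ k.D, ((k.c t ^ 2 : ℝ) : ℂ) * ee u t

/-- Local averages are eventually at most `2`. -/
lemma PosKer.avg_bound (k : PosKer) : ∃ L₀ : ℕ, 0 < L₀ ∧ ∀ L : ℕ, L₀ ≤ L → ∀ m : ℤ,
    ∑ i ∈ Finset.range L, k.Φ (m + i) ≤ 2 * L := by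
  classical
  set B : ℝ := ∑ t ∈ k.D.erase 0, k.c t * (2 / ‖ee 1 t - 1‖) with hB
  have hB0 : 0 ≤ B := Finset.sum_nonneg fun t _ => by
    have := k.c_nonneg t
    positivity
  refine ⟨⌈B⌉₊ + 1, by omega, fun L hL m => ?_⟩
  have hBL : B ≤ L := (Nat.le_ceil B).trans (by exact_mod_cast (by omega : ⌈B⌉₊ ≤ L))
  have h1 : ((∑ i ∈ Finset.range L, k.Φ (m + i) : ℝ) : ℂ) =
      L + ∑ t ∈ k.D.erase 0, (k.c t : ℂ) * ∑ i ∈ Finset.range L, ee (m + i) t := by
    push_cast
    simp_rw [k.Φ_eq]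
    rw [Finset.sum_comm, ← Finset.add_sum_erase _ _ k.zero_mem]
    congr 1
    · simp [k.c_zero, ee_zero_right]
    · refine Finset.sum_congr rfl fun t _ => ?_
      rw [Finset.mul_sum]
  have h2 : ∑ i ∈ Finset.range L, k.Φ (m + i) - L ≤ B := by
    have h3 : ((∑ i ∈ Finset.range L, k.Φ (m + i) - L : ℝ) : ℂ) =
        ∑ t ∈ k.D.erase 0, (k.c t : ℂ) * ∑ i ∈ Finset.range L, ee (m + i) t := by
      rw [Complex.ofReal_sub, h1]
      push_cast
      ring
    calc ∑ i ∈ Finset.range L, k.Φ (m + i) - L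
        ≤ |∑ i ∈ Finset.range L, k.Φ (m + i) - L| := le_abs_self _
      _ = ‖((∑ i ∈ Finset.range L, k.Φ (m + i) - L : ℝ) : ℂ)‖ := by
          rw [Complex.norm_real, Real.norm_eq_abs]
      _ ≤ B := by
          rw [h3]
          refine (norm_sum_le _ _).trans (Finset.sum_le_sum fun t ht => ?_)
          rw [norm_mul, Complex.norm_real, Real.norm_of_nonneg (k.c_nonneg t)]
          exact mul_le_mul_of_nonneg_left (geom_bound (Finset.ne_of_mem_erase ht) m L)
            (k.c_nonneg t)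
  linarith

/-- Averages of characters. -/
lemma tendsto_avg_ee (τ : T1) :
    Tendsto (fun Q : ℕ => (1 / (Q : ℂ)) * ∑ z ∈ Finset.range Q, ee (z : ℤ) τ) atTop
      (𝓝 (if τ = 0 then 1 else 0)) := by
  by_cases h : τ = 0
  · simp only [h, if_true]
    refine tendsto_const_nhds.congr' ?_
    filter_upwards [eventually_ge_atTop 1] with Q hQ
    have : (Q : ℂ) ≠ 0 := by
      have : Q ≠ 0 := by omega
      exact_mod_cast this
    simp [ee_zero_right, this]
  · simp only [h, if_false]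
    apply squeeze_zero_norm (a := fun Q : ℕ => (1 / (Q : ℝ)) * (2 / ‖ee 1 τ - 1‖))
    · intro Q
      rw [norm_mul]
      have h1 := geom_bound h 0 Q
      simp only [zero_add] at h1
      have h2 : ‖1 / (Q : ℂ)‖ = 1 / (Q : ℝ) := by simp
      rw [h2]
      exact mul_le_mul_of_nonneg_left h1 (by positivity)
    · have h1 : Tendsto (fun Q : ℕ => (1 / (Q : ℝ))) atTop (𝓝 0) :=
        tendsto_one_div_atTop_nhds_zero_nat
      simpa using h1.mul_const (2 / ‖ee 1 τ - 1‖)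

lemma PosKer.avg_limit (k : PosKer) (x y : ℤ) :
    Tendsto (fun Q : ℕ => (1 / (Q : ℂ)) * ∑ z ∈ Finset.range Q,
      ((k.Φ (z - y) : ℝ) : ℂ) * ((k.Φ (z - x) : ℝ) : ℂ)) atTop (𝓝 (k.h (x - y))) := by
  classical
  have h1 : ∀ Q : ℕ, (1 / (Q : ℂ)) * ∑ z ∈ Finset.range Q,
      ((k.Φ (z - y) : ℝ) : ℂ) * ((k.Φ (z - x) : ℝ) : ℂ) =
      ∑ t ∈ k.D, ∑ t' ∈ k.D, ((k.c t : ℂ) * (k.c t' : ℂ) * ee (-y) t * ee (-x) t') *
        ((1 / (Q : ℂ)) * ∑ z ∈ Finset.range Q, ee (z : ℤ) (t + t')) := by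
    intro Q
    simp_rw [k.Φ_eq, Finset.sum_mul_sum, Finset.mul_sum]
    rw [Finset.sum_comm]
    refine Finset.sum_congr rfl fun t _ => ?_
    rw [Finset.sum_comm]
    refine Finset.sum_congr rfl fun t' _ => Finset.sum_congr rfl fun z _ => ?_
    rw [ee_sub_left, ee_sub_left, ee_add_right]
    ring
  simp_rw [h1]
  have h2 : k.h (x - y) = ∑ t ∈ k.D, ∑ t' ∈ k.D,
      ((k.c t : ℂ) * (k.c t' : ℂ) * ee (-y) t * ee (-x) t') * (if t + t' = 0 then 1 else 0) := by
    rw [PosKer.h]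
    refine Finset.sum_congr rfl fun t ht => ?_
    rw [Finset.sum_eq_single (-t)]
    · simp only [add_neg_cancel, if_true, mul_one, k.c_neg, ee_neg_right, neg_neg, ee_sub_left]
      push_cast
      ring
    · intro t' _ ht'
      have : t + t' ≠ 0 := by
        intro h
        apply ht'
        exact (neg_eq_of_add_eq_zero_right h).symm
      simp [this]
    · intro h
      exact absurd (k.neg_mem t ht) h
  rw [h2]
  apply tendsto_finsetSum
  intro t _
  apply tendsto_finsetSum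
  intro t' _
  exact (tendsto_avg_ee (t + t')).const_mul _

/-- Weighted Jensen inequality with total mass at most `2`. -/
lemma jensen_two {r : ℝ} (hr : 1 < r) {ι : Type*} (s : Finset ι) (w : ι → ℝ) (f : ι → ℝ)
    (hw : ∀ i ∈ s, 0 ≤ w i) (hf : ∀ i ∈ s, 0 ≤ f i) (hsum : ∑ i ∈ s, w i ≤ 2) :
    (∑ i ∈ s, w i * f i) ^ r ≤ 2 ^ (r - 1) * ∑ i ∈ s, w i * f i ^ r := by
  have hr0 : 0 < r := by linarith
  set r' : ℝ := r / (r - 1) with hr'
  have hconj : r.HolderConjugate r' := Real.HolderConjugate.conjExponent hr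
  have hr'0 : 0 < r' := hconj.symm.pos
  have h1 := Real.inner_le_Lp_mul_Lq_of_nonneg (s := s) hconj
    (f := fun i => w i ^ (1 / r) * f i) (g := fun i => w i ^ (1 / r'))
    (fun i hi => mul_nonneg (Real.rpow_nonneg (hw i hi) _) (hf i hi))
    (fun i hi => Real.rpow_nonneg (hw i hi) _)
  have e1 : ∑ i ∈ s, w i ^ (1 / r) * f i * w i ^ (1 / r') = ∑ i ∈ s, w i * f i := by
    refine Finset.sum_congr rfl fun i hi => ?_
    have h2 : w i ^ (1 / r) * w i ^ (1 / r') = w i := by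
      have h3 : 1 / r + 1 / r' = 1 := by
        have := hconj.inv_add_inv_eq_one
        simpa [one_div] using this
      rcases eq_or_lt_of_le (hw i hi) with h4 | h4
      · rw [← h4, Real.zero_rpow (by positivity), zero_mul]
      · rw [← Real.rpow_add h4, h3, Real.rpow_one]
    calc w i ^ (1 / r) * f i * w i ^ (1 / r') = (w i ^ (1 / r) * w i ^ (1 / r')) * f i := by ring
      _ = w i * f i := by rw [h2]
  have e2 : ∑ i ∈ s, (w i ^ (1 / r) * f i) ^ r = ∑ i ∈ s, w i * f i ^ r := by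
    refine Finset.sum_congr rfl fun i hi => ?_
    rw [Real.mul_rpow (Real.rpow_nonneg (hw i hi) _) (hf i hi), ← Real.rpow_mul (hw i hi),
      one_div, inv_mul_cancel₀ hr0.ne', Real.rpow_one]
  have e3 : ∑ i ∈ s, (w i ^ (1 / r')) ^ r' = ∑ i ∈ s, w i := by
    refine Finset.sum_congr rfl fun i hi => ?_
    rw [← Real.rpow_mul (hw i hi), one_div, inv_mul_cancel₀ hr'0.ne', Real.rpow_one]
  rw [e1, e2, e3] at h1
  have hE0 : 0 ≤ ∑ i ∈ s, w i * f i ^ r := Finset.sum_nonneg fun i hi =>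
    mul_nonneg (hw i hi) (Real.rpow_nonneg (hf i hi) _)
  have hW0 : 0 ≤ ∑ i ∈ s, w i := Finset.sum_nonneg hw
  calc (∑ i ∈ s, w i * f i) ^ r
      ≤ ((∑ i ∈ s, w i * f i ^ r) ^ (1 / r) * (∑ i ∈ s, w i) ^ (1 / r')) ^ r := by
        apply Real.rpow_le_rpow _ h1 hr0.le
        exact Finset.sum_nonneg fun i hi => mul_nonneg (hw i hi) (hf i hi)
    _ = (∑ i ∈ s, w i * f i ^ r) * (∑ i ∈ s, w i) ^ (r - 1) := by
        rw [Real.mul_rpow (Real.rpow_nonneg hE0 _) (Real.rpow_nonneg hW0 _),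
          ← Real.rpow_mul hE0, ← Real.rpow_mul hW0, one_div, inv_mul_cancel₀ hr0.ne',
          Real.rpow_one]
        congr 2
        rw [hr']
        field_simp
    _ ≤ (∑ i ∈ s, w i * f i ^ r) * 2 ^ (r - 1) := by
        apply mul_le_mul_of_nonneg_left _ hE0
        exact Real.rpow_le_rpow hW0 hsum (by linarith)
    _ = _ := by ring

lemma sum_shift (S S' : Finset ℤ) (j : ℤ) (hS : ∀ y ∈ S, y + j ∈ S') {M : Type*}
    [AddCommMonoid M] (g : ℤ → M) (hg : ∀ y, y ∉ S → g y = 0) :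
    ∑ v ∈ S', g (v - j) = ∑ y ∈ S, g y := by
  classical
  have h1 : ∑ y ∈ S, g y = ∑ v ∈ S.map (addRightEmbedding j), g (v - j) := by
    simp [Finset.sum_map]
  rw [h1]
  symm
  apply Finset.sum_subset
  · intro v hv
    rw [Finset.mem_map] at hv
    obtain ⟨y, hy, rfl⟩ := hv
    exact hS y hy
  · intro v _ hv
    apply hg
    intro hvj
    apply hv
    rw [Finset.mem_map]
    exact ⟨v - j, hvj, by simp⟩


/-- The box-smoothed kernel. -/
noncomputable def smooth (L : ℕ) (K : ℤ → ℂ) (n : ℤ) : ℂ :=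
  (1 / (L : ℂ) ^ 2) * ∑ i ∈ Finset.range L, ∑ j ∈ Finset.range L, K (n - i - j)

/-- **Transference**: multiplying the box-smoothed kernel by `k.h` keeps the bound, uniformly. -/
theorem Mult.transfer (hpq : p.HolderConjugate q) (k : PosKer) {L : ℕ} (hL0 : 0 < L)
    (hL : ∀ L' : ℕ, L ≤ L' → ∀ m : ℤ, ∑ i ∈ Finset.range L', k.Φ (m + i) ≤ 2 * L')
    {K : ℤ → ℂ} {C : ℝ} (h : Mult p q K C) :
    Mult p q (fun n => k.h n * smooth L K n) (C * max (2 ^ p) (2 ^ q)) := by
  classical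
  intro S T a b
  have hp1 : 1 < p := hpq.lt
  have hq1 : 1 < q := hpq.symm.lt
  have hp0 := hpq.pos
  have hq0 := hpq.symm.pos
  have hLr : (0 : ℝ) < L := by exact_mod_cast hL0
  have hLc : (L : ℂ) ≠ 0 := by exact_mod_cast hL0.ne'
  set a0 : ℤ → ℂ := fun y => if y ∈ S then a y else 0 with ha0
  set b0 : ℤ → ℂ := fun x => if x ∈ T then b x else 0 with hb0
  have ha0' : ∀ y, y ∉ S → a0 y = 0 := fun y hy => by simp [ha0, hy]
  have hb0' : ∀ x, x ∉ T → b0 x = 0 := fun x hx => by simp [hb0, hx]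
  have haS : ∀ y ∈ S, a0 y = a y := fun y hy => by simp [ha0, hy]
  have hbT : ∀ x ∈ T, b0 x = b x := fun x hx => by simp [hb0, hx]
  set S' : Finset ℤ := (S ×ˢ Finset.range L).image (fun yj => yj.1 + (yj.2 : ℤ)) with hS'
  set T' : Finset ℤ := (T ×ˢ Finset.range L).image (fun xi => xi.1 - (xi.2 : ℤ)) with hT'
  have hSS : ∀ j ∈ Finset.range L, ∀ y ∈ S, y + (j : ℤ) ∈ S' := by
    intro j hj y hy
    rw [hS', Finset.mem_image]
    exact ⟨(y, j), Finset.mem_product.mpr ⟨hy, hj⟩, rfl⟩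
  have hTT : ∀ i ∈ Finset.range L, ∀ x ∈ T, x + (-(i : ℤ)) ∈ T' := by
    intro i hi x hx
    rw [hT', Finset.mem_image]
    exact ⟨(x, i), Finset.mem_product.mpr ⟨hx, hi⟩, rfl⟩
  set Az : ℤ → ℤ → ℂ := fun z v => ∑ j ∈ Finset.range L,
    ((k.Φ (z - (v - j)) / L : ℝ) : ℂ) * a0 (v - j) with hAz
  set Bz : ℤ → ℤ → ℂ := fun z u => ∑ i ∈ Finset.range L,
    ((k.Φ (z - (u - (-(i : ℤ)))) / L : ℝ) : ℂ) * b0 (u - (-(i : ℤ))) with hBz
  -- energies
  have hweightA : ∀ z v : ℤ, ∑ j ∈ Finset.range L, k.Φ (z - (v - j)) / L ≤ 2 := by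
    intro z v
    rw [← Finset.sum_div, div_le_iff₀ hLr]
    refine le_trans (le_of_eq ?_) (hL L le_rfl (z - v))
    refine Finset.sum_congr rfl fun j _ => ?_
    congr 1
    ring
  have hweightB : ∀ z u : ℤ, ∑ i ∈ Finset.range L, k.Φ (z - (u - (-(i : ℤ)))) / L ≤ 2 := by
    intro z u
    rw [← Finset.sum_div, div_le_iff₀ hLr]
    refine le_trans (le_of_eq ?_) (hL L le_rfl (z - u - (L - 1)))
    rw [← Finset.sum_range_reflect]
    refine Finset.sum_congr rfl fun i hi => ?_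
    rw [Finset.mem_range] at hi
    congr 1
    have : ((L - 1 - i : ℕ) : ℤ) = (L : ℤ) - 1 - i := by omega
    rw [this]
    ring
  have hEA : ∀ z : ℤ, ∑ v ∈ S', ‖Az z v‖ ^ p ≤ 2 ^ (p - 1) * ∑ y ∈ S, k.Φ (z - y) * ‖a y‖ ^ p := by
    intro z
    calc ∑ v ∈ S', ‖Az z v‖ ^ p ≤ ∑ v ∈ S', 2 ^ (p - 1) *
          ∑ j ∈ Finset.range L, k.Φ (z - (v - j)) / L * ‖a0 (v - j)‖ ^ p := by
          apply Finset.sum_le_sum
          intro v _
          have h1 : ‖Az z v‖ ≤ ∑ j ∈ Finset.range L, k.Φ (z - (v - j)) / L * ‖a0 (v - j)‖ := by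
            refine (norm_sum_le _ _).trans (le_of_eq (Finset.sum_congr rfl fun j _ => ?_))
            rw [norm_mul, Complex.norm_real, Real.norm_of_nonneg]
            have := k.Φ_nonneg (z - (v - j))
            positivity
          refine (Real.rpow_le_rpow (norm_nonneg _) h1 hp0.le).trans ?_
          apply jensen_two hp1 _ _ _ _ _ (hweightA z v)
          · intro j _
            have := k.Φ_nonneg (z - (v - j))
            positivity
          · intro j _
            positivity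
      _ = 2 ^ (p - 1) * ∑ j ∈ Finset.range L, ∑ v ∈ S',
          k.Φ (z - (v - j)) / L * ‖a0 (v - j)‖ ^ p := by
          rw [← Finset.mul_sum, Finset.sum_comm]
      _ = 2 ^ (p - 1) * ∑ j ∈ Finset.range L, ∑ y ∈ S, k.Φ (z - y) / L * ‖a y‖ ^ p := by
          congr 1
          refine Finset.sum_congr rfl fun j hj => ?_
          rw [sum_shift S S' j (hSS j hj) (fun y => k.Φ (z - y) / L * ‖a0 y‖ ^ p)]
          · refine Finset.sum_congr rfl fun y hy => ?_
            rw [haS y hy]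
          · intro y hy
            rw [ha0' y hy, norm_zero, Real.zero_rpow hp0.ne', mul_zero]
      _ = _ := by
          rw [Finset.sum_const, Finset.card_range, nsmul_eq_mul, Finset.mul_sum]
          congr 1
          refine Finset.sum_congr rfl fun y _ => ?_
          field_simp
  have hEB : ∀ z : ℤ, ∑ u ∈ T', ‖Bz z u‖ ^ q ≤ 2 ^ (q - 1) * ∑ x ∈ T, k.Φ (z - x) * ‖b x‖ ^ q := by
    intro z
    calc ∑ u ∈ T', ‖Bz z u‖ ^ q ≤ ∑ u ∈ T', 2 ^ (q - 1) *
          ∑ i ∈ Finset.range L, k.Φ (z - (u - (-(i : ℤ)))) / L * ‖b0 (u - (-(i : ℤ)))‖ ^ q := by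
          apply Finset.sum_le_sum
          intro u _
          have h1 : ‖Bz z u‖ ≤ ∑ i ∈ Finset.range L,
              k.Φ (z - (u - (-(i : ℤ)))) / L * ‖b0 (u - (-(i : ℤ)))‖ := by
            refine (norm_sum_le _ _).trans (le_of_eq (Finset.sum_congr rfl fun j _ => ?_))
            rw [norm_mul, Complex.norm_real, Real.norm_of_nonneg]
            have := k.Φ_nonneg (z - (u - (-(j : ℤ))))
            positivity
          refine (Real.rpow_le_rpow (norm_nonneg _) h1 hq0.le).trans ?_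
          apply jensen_two hq1 _ _ _ _ _ (hweightB z u)
          · intro j _
            have := k.Φ_nonneg (z - (u - (-(j : ℤ))))
            positivity
          · intro j _
            positivity
      _ = 2 ^ (q - 1) * ∑ i ∈ Finset.range L, ∑ u ∈ T',
          k.Φ (z - (u - (-(i : ℤ)))) / L * ‖b0 (u - (-(i : ℤ)))‖ ^ q := by
          rw [← Finset.mul_sum, Finset.sum_comm]
      _ = 2 ^ (q - 1) * ∑ i ∈ Finset.range L, ∑ x ∈ T, k.Φ (z - x) / L * ‖b x‖ ^ q := by
          congr 1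
          refine Finset.sum_congr rfl fun i hi => ?_
          rw [sum_shift T T' (-(i : ℤ)) (hTT i hi) (fun x => k.Φ (z - x) / L * ‖b0 x‖ ^ q)]
          · refine Finset.sum_congr rfl fun x hx => ?_
            rw [hbT x hx]
          · intro x hx
            rw [hb0' x hx, norm_zero, Real.zero_rpow hq0.ne', mul_zero]
      _ = _ := by
          rw [Finset.sum_const, Finset.card_range, nsmul_eq_mul, Finset.mul_sum]
          congr 1
          refine Finset.sum_congr rfl fun y _ => ?_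
          field_simp
  -- average over z of the weights
  have hzavg : ∀ Q : ℕ, L ≤ Q → ∀ y : ℤ,
      (1 / (Q : ℝ)) * ∑ z ∈ Finset.range Q, k.Φ ((z : ℤ) - y) ≤ 2 := by
    intro Q hQ y
    have hQ0 : (0 : ℝ) < Q := by
      have : 0 < Q := by omega
      exact_mod_cast this
    have h1 := hL Q hQ (-y)
    rw [one_div, inv_mul_le_iff₀ hQ0]
    calc ∑ z ∈ Finset.range Q, k.Φ ((z : ℤ) - y) = ∑ i ∈ Finset.range Q, k.Φ (-y + i) := by
          refine Finset.sum_congr rfl fun z _ => ?_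
          congr 1
          ring
      _ ≤ 2 * Q := h1
      _ = Q * 2 := by ring
  -- bound for each Q
  have hbound : ∀ Q : ℕ, L ≤ Q →
      ‖(1 / (Q : ℂ)) * ∑ z ∈ Finset.range Q, Bil K S' T' (Az z) (Bz z)‖ ≤
        C * max (2 ^ p) (2 ^ q) * En p q S T a b := by
    intro Q hQ
    have hQ0 : (0 : ℝ) < Q := by
      have : 0 < Q := by omega
      exact_mod_cast this
    have hA0 := sum_rpow_nonneg p S a
    have hB0 := sum_rpow_nonneg q T b
    have hC := h.nonneg hpq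
    have h1 : ∀ z : ℤ, En p q S' T' (Az z) (Bz z) ≤
        (2 ^ (p - 1) * ∑ y ∈ S, k.Φ (z - y) * ‖a y‖ ^ p) / p +
        (2 ^ (q - 1) * ∑ x ∈ T, k.Φ (z - x) * ‖b x‖ ^ q) / q := by
      intro z
      unfold En
      have := hEA z
      have := hEB z
      gcongr
    have havg : ∀ (r : ℝ) (U : Finset ℤ) (c : ℤ → ℂ),
        (1 / (Q : ℝ)) * ∑ z ∈ Finset.range Q, ∑ y ∈ U, k.Φ ((z : ℤ) - y) * ‖c y‖ ^ r ≤
          2 * ∑ y ∈ U, ‖c y‖ ^ r := by
      intro r U c
      rw [Finset.sum_comm, Finset.mul_sum, Finset.mul_sum]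
      apply Finset.sum_le_sum
      intro y _
      rw [← Finset.sum_mul, ← mul_assoc]
      exact mul_le_mul_of_nonneg_right (hzavg Q hQ y) (by positivity)
    calc ‖(1 / (Q : ℂ)) * ∑ z ∈ Finset.range Q, Bil K S' T' (Az z) (Bz z)‖
        ≤ (1 / (Q : ℝ)) * ∑ z ∈ Finset.range Q, C * En p q S' T' (Az z) (Bz z) := by
          rw [norm_mul]
          have h2 : ‖1 / (Q : ℂ)‖ = 1 / (Q : ℝ) := by simp
          rw [h2]
          apply mul_le_mul_of_nonneg_left _ (by positivity)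
          exact (norm_sum_le _ _).trans (Finset.sum_le_sum fun z _ => h S' T' (Az z) (Bz z))
      _ ≤ (1 / (Q : ℝ)) * ∑ z ∈ Finset.range Q, C *
          ((2 ^ (p - 1) * ∑ y ∈ S, k.Φ ((z : ℤ) - y) * ‖a y‖ ^ p) / p +
          (2 ^ (q - 1) * ∑ x ∈ T, k.Φ ((z : ℤ) - x) * ‖b x‖ ^ q) / q) := by
          apply mul_le_mul_of_nonneg_left _ (by positivity)
          exact Finset.sum_le_sum fun z _ => mul_le_mul_of_nonneg_left (h1 z) hC
      _ = C * ((2 ^ (p - 1) * ((1 / (Q : ℝ)) * ∑ z ∈ Finset.range Q, ∑ y ∈ S,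
          k.Φ ((z : ℤ) - y) * ‖a y‖ ^ p)) / p +
          (2 ^ (q - 1) * ((1 / (Q : ℝ)) * ∑ z ∈ Finset.range Q, ∑ x ∈ T,
          k.Φ ((z : ℤ) - x) * ‖b x‖ ^ q)) / q) := by
          rw [← Finset.mul_sum, Finset.sum_add_distrib, ← Finset.sum_div, ← Finset.sum_div,
            ← Finset.mul_sum, ← Finset.mul_sum]
          ring
      _ ≤ C * ((2 ^ (p - 1) * (2 * ∑ y ∈ S, ‖a y‖ ^ p)) / p +
          (2 ^ (q - 1) * (2 * ∑ x ∈ T, ‖b x‖ ^ q)) / q) := by
          have e1 := havg p S a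
          have e2 := havg q T b
          gcongr
      _ = C * ((2 ^ p * ∑ y ∈ S, ‖a y‖ ^ p) / p + (2 ^ q * ∑ x ∈ T, ‖b x‖ ^ q) / q) := by
          have e1 : (2 : ℝ) ^ p = 2 ^ (p - 1) * 2 := by
            nth_rewrite 3 [← Real.rpow_one (2 : ℝ)]
            rw [← Real.rpow_add (by norm_num)]
            congr 1
            ring
          have e2 : (2 : ℝ) ^ q = 2 ^ (q - 1) * 2 := by
            nth_rewrite 3 [← Real.rpow_one (2 : ℝ)]
            rw [← Real.rpow_add (by norm_num)]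
            congr 1
            ring
          rw [e1, e2]
          ring
      _ ≤ C * ((max (2 ^ p) (2 ^ q) * ∑ y ∈ S, ‖a y‖ ^ p) / p +
          (max (2 ^ p) (2 ^ q) * ∑ x ∈ T, ‖b x‖ ^ q) / q) := by
          have e1 := le_max_left ((2 : ℝ) ^ p) (2 ^ q)
          have e2 := le_max_right ((2 : ℝ) ^ p) (2 ^ q)
          gcongr
      _ = C * max (2 ^ p) (2 ^ q) * En p q S T a b := by
          unfold En
          ring
  -- identity for each Q
  have hident : ∀ z : ℤ, Bil K S' T' (Az z) (Bz z) = ∑ x ∈ T, ∑ y ∈ S,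
      (smooth L K (x - y) * a y * b x) * (((k.Φ (z - y) : ℝ) : ℂ) * ((k.Φ (z - x) : ℝ) : ℂ)) := by
    intro z
    have e1 : Bil K S' T' (Az z) (Bz z) = ∑ i ∈ Finset.range L, ∑ j ∈ Finset.range L,
        ∑ u ∈ T', ∑ v ∈ S', K (u - v) * (((k.Φ (z - (v - j)) / L : ℝ) : ℂ) * a0 (v - j)) *
          (((k.Φ (z - (u - (-(i : ℤ)))) / L : ℝ) : ℂ) * b0 (u - (-(i : ℤ)))) := by
      simp only [Bil, hAz, hBz]
      have : ∀ u v : ℤ, K (u - v) * (∑ j ∈ Finset.range L,
          ((k.Φ (z - (v - j)) / L : ℝ) : ℂ) * a0 (v - j)) * (∑ i ∈ Finset.range L,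
          ((k.Φ (z - (u - (-(i : ℤ)))) / L : ℝ) : ℂ) * b0 (u - (-(i : ℤ)))) =
          ∑ i ∈ Finset.range L, ∑ j ∈ Finset.range L,
          K (u - v) * (((k.Φ (z - (v - j)) / L : ℝ) : ℂ) * a0 (v - j)) *
          (((k.Φ (z - (u - (-(i : ℤ)))) / L : ℝ) : ℂ) * b0 (u - (-(i : ℤ)))) := by
        intro u v
        rw [Finset.mul_sum]
        refine Finset.sum_congr rfl fun i _ => ?_
        rw [Finset.mul_sum, Finset.sum_mul]
      simp_rw [this]
      have c1 : ∀ u ∈ T', ∑ v ∈ S', ∑ i ∈ Finset.range L, ∑ j ∈ Finset.range L,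
          K (u - v) * (((k.Φ (z - (v - j)) / L : ℝ) : ℂ) * a0 (v - j)) *
          (((k.Φ (z - (u - (-(i : ℤ)))) / L : ℝ) : ℂ) * b0 (u - (-(i : ℤ)))) =
          ∑ i ∈ Finset.range L, ∑ j ∈ Finset.range L, ∑ v ∈ S',
          K (u - v) * (((k.Φ (z - (v - j)) / L : ℝ) : ℂ) * a0 (v - j)) *
          (((k.Φ (z - (u - (-(i : ℤ)))) / L : ℝ) : ℂ) * b0 (u - (-(i : ℤ)))) := by
        intro u _
        rw [Finset.sum_comm]
        refine Finset.sum_congr rfl fun i _ => ?_
        rw [Finset.sum_comm]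
      rw [Finset.sum_congr rfl c1, Finset.sum_comm]
      refine Finset.sum_congr rfl fun i _ => ?_
      rw [Finset.sum_comm]
    have e2 : ∀ i ∈ Finset.range L, ∀ j ∈ Finset.range L,
        ∑ u ∈ T', ∑ v ∈ S', K (u - v) * (((k.Φ (z - (v - j)) / L : ℝ) : ℂ) * a0 (v - j)) *
          (((k.Φ (z - (u - (-(i : ℤ)))) / L : ℝ) : ℂ) * b0 (u - (-(i : ℤ)))) =
        ∑ x ∈ T, ∑ y ∈ S, K (x - y - i - j) * (((k.Φ (z - y) / L : ℝ) : ℂ) * a y) *
          (((k.Φ (z - x) / L : ℝ) : ℂ) * b x) := by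
      intro i hi j hj
      have f1 : ∀ u ∈ T', ∑ v ∈ S', K (u - v) * (((k.Φ (z - (v - j)) / L : ℝ) : ℂ) *
          a0 (v - j)) * (((k.Φ (z - (u - (-(i : ℤ)))) / L : ℝ) : ℂ) * b0 (u - (-(i : ℤ)))) =
          (fun x => ∑ y ∈ S, K (x - i - (y + j)) * (((k.Φ (z - y) / L : ℝ) : ℂ) * a0 y) *
          (((k.Φ (z - x) / L : ℝ) : ℂ) * b0 x)) (u - (-(i : ℤ))) := by
        intro u _
        simp only
        rw [← sum_shift S S' j (hSS j hj) (fun y => K (u - (-(i : ℤ)) - i - (y + j)) *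
          (((k.Φ (z - y) / L : ℝ) : ℂ) * a0 y) *
          (((k.Φ (z - (u - (-(i : ℤ)))) / L : ℝ) : ℂ) * b0 (u - (-(i : ℤ)))))]
        · refine Finset.sum_congr rfl fun v _ => ?_
          have : u - (-(i : ℤ)) - i - (v - j + j) = u - v := by ring
          rw [this]
        · intro y hy
          rw [ha0' y hy]
          ring
      rw [Finset.sum_congr rfl f1]
      rw [sum_shift T T' (-(i : ℤ)) (hTT i hi) (fun x => ∑ y ∈ S, K (x - i - (y + j)) *
        (((k.Φ (z - y) / L : ℝ) : ℂ) * a0 y) * (((k.Φ (z - x) / L : ℝ) : ℂ) * b0 x))]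
      · refine Finset.sum_congr rfl fun x hx => Finset.sum_congr rfl fun y hy => ?_
        rw [haS y hy, hbT x hx]
        have : x - (i : ℤ) - (y + j) = x - y - i - j := by ring
        rw [this]
      · intro x hx
        apply Finset.sum_eq_zero
        intro y _
        rw [hb0' x hx]
        ring
    rw [e1, Finset.sum_congr rfl fun i hi => Finset.sum_congr rfl fun j hj => e2 i hi j hj]
    have c2 : ∀ i ∈ Finset.range L, ∑ j ∈ Finset.range L, ∑ x ∈ T, ∑ y ∈ S,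
        K (x - y - i - j) * (((k.Φ (z - y) / L : ℝ) : ℂ) * a y) *
          (((k.Φ (z - x) / L : ℝ) : ℂ) * b x) =
        ∑ x ∈ T, ∑ y ∈ S, ∑ j ∈ Finset.range L,
        K (x - y - i - j) * (((k.Φ (z - y) / L : ℝ) : ℂ) * a y) *
          (((k.Φ (z - x) / L : ℝ) : ℂ) * b x) := by
      intro i _
      rw [Finset.sum_comm]
      refine Finset.sum_congr rfl fun x _ => ?_
      rw [Finset.sum_comm]
    rw [Finset.sum_congr rfl c2, Finset.sum_comm]
    refine Finset.sum_congr rfl fun x _ => ?_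
    rw [Finset.sum_comm]
    refine Finset.sum_congr rfl fun y _ => ?_
    rw [smooth]
    simp only [Finset.mul_sum, Finset.sum_mul]
    refine Finset.sum_congr rfl fun i _ => Finset.sum_congr rfl fun j _ => ?_
    push_cast
    field_simp
  -- pass to the limit
  have hlim : Tendsto (fun Q : ℕ => (1 / (Q : ℂ)) *
      ∑ z ∈ Finset.range Q, Bil K S' T' (Az z) (Bz z)) atTop
      (𝓝 (Bil (fun n => k.h n * smooth L K n) S T a b)) := by
    have e1 : ∀ Q : ℕ, (1 / (Q : ℂ)) * ∑ z ∈ Finset.range Q, Bil K S' T' (Az z) (Bz z) =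
        ∑ x ∈ T, ∑ y ∈ S, (smooth L K (x - y) * a y * b x) * ((1 / (Q : ℂ)) *
          ∑ z ∈ Finset.range Q, ((k.Φ ((z : ℤ) - y) : ℝ) : ℂ) * ((k.Φ ((z : ℤ) - x) : ℝ) : ℂ)) := by
      intro Q
      simp_rw [hident]
      rw [Finset.mul_sum]
      simp_rw [Finset.mul_sum]
      rw [Finset.sum_comm]
      refine Finset.sum_congr rfl fun x _ => ?_
      rw [Finset.sum_comm]
      refine Finset.sum_congr rfl fun y _ => Finset.sum_congr rfl fun z _ => ?_
      ring
    simp_rw [e1]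
    have e2 : Bil (fun n => k.h n * smooth L K n) S T a b =
        ∑ x ∈ T, ∑ y ∈ S, (smooth L K (x - y) * a y * b x) * k.h (x - y) := by
      simp only [Bil]
      refine Finset.sum_congr rfl fun x _ => Finset.sum_congr rfl fun y _ => ?_
      ring
    rw [e2]
    apply tendsto_finsetSum
    intro x _
    apply tendsto_finsetSum
    intro y _
    exact (k.avg_limit x y).const_mul _
  apply le_of_tendsto hlim.norm
  filter_upwards [eventually_ge_atTop L] with Q hQ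
  exact hbound Q hQ

end Pool.Agent.Helper57.Mp
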