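import Mathlib
import Pool.Agent.Helper57.Mp.Riesz
import Pool.Agent.Helper57.Mp.Transfer

/-!
Functions on the circle: the sawtooth, Fourier coefficients, Fejér means.
-/

namespace Pool.Agent.Helper57.Mp

open Finset Filter Topology MeasureTheory

/-- Normalised Haar measure on the circle. -/
noncomputable abbrev μT : Measure T1 := AddCircle.haarAddCircle

/-- The fractional part. -/
noncomputable def fr (x : T1) : ℝ := (AddCircle.equivIco 1 0 x : ℝ)

/-- The sawtooth `1/2 - {x}`. -/
noncomputable def bb (x : T1) : ℝ := 1 / 2 - fr x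

lemma fr_coe (r : ℝ) : fr (r : T1) = Int.fract r := by
  have := AddCircle.coe_equivIco_mk_apply (p := (1 : ℝ)) r
  rw [div_one, mul_one] at this
  exact this

lemma coe_fr (x : T1) : ((fr x : ℝ) : T1) = x := AddCircle.coe_equivIco

lemma fr_nonneg (x : T1) : 0 ≤ fr x := (AddCircle.equivIco 1 0 x).2.1

lemma fr_lt_one (x : T1) : fr x < 1 := by
  have h : fr x < 0 + 1 := (AddCircle.equivIco 1 0 x).2.2
  linarith

lemma abs_bb_le (x : T1) : |bb x| ≤ 1 / 2 := by
  unfold bb
  rw [abs_le]
  constructor <;> linarith [fr_nonneg x, fr_lt_one x]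

lemma abs_bb_sub_le (x y : T1) : |bb x - bb y| ≤ 1 := by
  unfold bb
  rw [abs_le]
  constructor <;> linarith [fr_nonneg x, fr_lt_one x, fr_nonneg y, fr_lt_one y]

lemma norm_eq_min (x : T1) : ‖x‖ = min (fr x) (1 - fr x) := by
  have h1 : ‖((fr x : ℝ) : T1)‖ = |fr x - round (fr x)| := UnitAddCircle.norm_eq
  rw [coe_fr] at h1
  rw [h1, abs_sub_round_eq_min, Int.fract_eq_self.mpr ⟨fr_nonneg x, fr_lt_one x⟩]

lemma fr_sub (x : T1) (s : ℝ) (hs : |s| < ‖x‖) : fr (x - (s : T1)) = fr x - s := by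
  rw [norm_eq_min] at hs
  have h1 := lt_min_iff.mp hs
  have h2 := abs_lt.mp h1.1
  have h3 := abs_lt.mp h1.2
  have h4 : x - (s : T1) = ((fr x - s : ℝ) : T1) := by
    rw [AddCircle.coe_sub, coe_fr]
  rw [h4, fr_coe, Int.fract_eq_self.mpr ⟨by linarith, by linarith⟩]

/-- Local affinity of the sawtooth. -/
lemma bb_sub (x : T1) (s : ℝ) (hs : |s| < ‖x‖) : bb (x - (s : T1)) = bb x + s := by
  unfold bb
  rw [fr_sub x s hs]
  ring

lemma bb_coe_pos (η : ℝ) (h0 : 0 < η) (h1 : η < 1) : bb (η : T1) = 1 / 2 - η := by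
  unfold bb
  rw [fr_coe, Int.fract_eq_self.mpr ⟨h0.le, h1⟩]

lemma bb_coe_neg (η : ℝ) (h0 : 0 < η) (h1 : η < 1) : bb (-(η : T1)) = η - 1 / 2 := by
  have h2 : -(η : T1) = ((1 - η : ℝ) : T1) := by
    rw [AddCircle.coe_sub]
    have : ((1 : ℝ) : T1) = 0 := AddCircle.coe_period 1
    rw [this, zero_sub]
  unfold bb
  rw [h2, fr_coe, Int.fract_eq_self.mpr ⟨by linarith, by linarith⟩]
  ring

lemma exists_real_rep (x : T1) : ∃ r : ℝ, (r : T1) = x ∧ |r| = ‖x‖ := by
  refine ⟨fr x - round (fr x), ?_, ?_⟩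
  · rw [AddCircle.coe_sub, coe_fr]
    have : ((round (fr x) : ℝ) : T1) = 0 := by
      have h1 : ((round (fr x) : ℝ) : T1) = (round (fr x)) • ((1 : ℝ) : T1) := by
        rw [← AddCircle.coe_zsmul]
        congr 1
        simp
      rw [h1, AddCircle.coe_period, smul_zero]
    rw [this, sub_zero]
  · have h1 : ‖((fr x : ℝ) : T1)‖ = |fr x - round (fr x)| := UnitAddCircle.norm_eq
    rw [← h1, coe_fr]

lemma measurable_fr : Measurable fr :=
  measurable_subtype_coe.comp (AddCircle.measurableEquivIco 1 0).measurable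

lemma measurable_bb : Measurable bb := measurable_const.sub measurable_fr

lemma continuous_ee (n : ℤ) : Continuous (ee n) := map_continuous (fourier n)

lemma ee_coe (n : ℤ) (r : ℝ) : ee n (r : T1) =
    Complex.exp (2 * (Real.pi : ℂ) * Complex.I * (n : ℂ) * (r : ℂ)) := by
  unfold ee
  rw [fourier_coe_apply]
  congr 1
  push_cast
  ring

lemma integrable_of_bounded {G : T1 → ℂ} (hG : AEStronglyMeasurable G μT) (M : ℝ)
    (hM : ∀ᵐ x ∂μT, ‖G x‖ ≤ M) : Integrable G μT :=
  Integrable.of_bound hG M hM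

/-- Fourier coefficients. -/
noncomputable def fc (G : T1 → ℂ) (n : ℤ) : ℂ := ∫ x, ee (-n) x * G x ∂μT

lemma fc_eq (G : T1 → ℂ) (n : ℤ) : fc G n = fourierCoeff G n := rfl

lemma integrable_ee_mul {G : T1 → ℂ} (hG : Integrable G μT) (n : ℤ) :
    Integrable (fun x => ee n x * G x) μT := hG.fourier_smul n

lemma fc_add {F G : T1 → ℂ} (hF : Integrable F μT) (hG : Integrable G μT) (n : ℤ) :
    fc (fun x => F x + G x) n = fc F n + fc G n := by
  unfold fc
  rw [← integral_add (integrable_ee_mul hF _) (integrable_ee_mul hG _)]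
  congr 1
  funext x
  ring

lemma fc_const_mul (c : ℂ) (G : T1 → ℂ) (n : ℤ) : fc (fun x => c * G x) n = c * fc G n := by
  unfold fc
  rw [← integral_const_mul]
  congr 1
  funext x
  ring

lemma fc_sub {F G : T1 → ℂ} (hF : Integrable F μT) (hG : Integrable G μT) (n : ℤ) :
    fc (fun x => F x - G x) n = fc F n - fc G n := by
  unfold fc
  rw [← integral_sub (integrable_ee_mul hF _) (integrable_ee_mul hG _)]
  congr 1
  funext x
  ring

lemma fc_sum {ι : Type*} (s : Finset ι) (F : ι → T1 → ℂ) (hF : ∀ i ∈ s, Integrable (F i) μT)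
    (n : ℤ) : fc (fun x => ∑ i ∈ s, F i x) n = ∑ i ∈ s, fc (F i) n := by
  unfold fc
  simp_rw [Finset.mul_sum]
  rw [integral_finsetSum]
  intro i hi
  exact integrable_ee_mul (hF i hi) _

lemma fc_translate (G : T1 → ℂ) (t : T1) (n : ℤ) :
    fc (fun x => G (x - t)) n = ee (-n) t * fc G n := by
  unfold fc
  rw [← integral_const_mul]
  rw [← integral_sub_right_eq_self (fun x => ee (-n) t * (ee (-n) x * G x)) t]
  congr 1
  funext x
  rw [← mul_assoc, ← ee_add_right, add_sub_cancel]

lemma fc_ee_mul (G : T1 → ℂ) (k n : ℤ) : fc (fun x => ee k x * G x) n = fc G (n - k) := by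
  unfold fc
  congr 1
  funext x
  rw [← mul_assoc, ← ee_add_left]
  congr 2
  ring

lemma fc_bb (n : ℤ) : fc (fun x => (bb x : ℂ)) n = Kb n := by
  have h1 : (fun x : T1 => (bb x : ℂ)) = fun x => (-1 : ℂ) * (((↑) ∘ periodizedBernoulli 1) x : ℂ) := by
    funext x
    have h2 : periodizedBernoulli 1 x = fr x - 1 / 2 := by
      unfold periodizedBernoulli
      conv_lhs => rw [← coe_fr x]
      rw [AddCircle.liftIco_coe_apply ⟨fr_nonneg x, by rw [zero_add]; exact fr_lt_one x⟩,
        bernoulliFun_one]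
    simp only [Function.comp_apply, h2, bb]
    push_cast
    ring
  rw [h1, fc_const_mul, fc_eq, fourierCoeff_bernoulli_eq one_ne_zero]
  unfold Kb
  rw [pow_one, Nat.factorial_one]
  push_cast
  ring

lemma fc_one (n : ℤ) : fc (fun _ => 1) n = if n = 0 then 1 else 0 := by
  unfold fc
  by_cases h : n = 0
  · simp [h, ee_zero_left]
  · simp only [h, if_false, mul_one]
    have h1 : ∫ x, ee (-n) x ∂μT = ∫ x, ee (-n) (x - ((1 / (2 * n) : ℝ) : T1)) ∂μT :=
      (integral_sub_right_eq_self _ _).symm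
    have h2 : ∀ x : T1, ee (-n) (x - ((1 / (2 * n) : ℝ) : T1)) = - ee (-n) x := by
      intro x
      rw [ee_sub_right, neg_neg, ee_coe]
      have hn : (n : ℂ) ≠ 0 := by exact_mod_cast h
      have : 2 * (Real.pi : ℂ) * Complex.I * (n : ℂ) * ((1 / (2 * n) : ℝ) : ℂ) =
          Real.pi * Complex.I := by
        push_cast
        field_simp
      rw [this, Complex.exp_pi_mul_I]
      ring
    simp_rw [h2] at h1
    rw [integral_neg] at h1
    have h3 : (2 : ℂ) * ∫ x, ee (-n) x ∂μT = 0 := by linear_combination h1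
    simpa using h3

lemma fc_ee (k n : ℤ) : fc (ee k) n = if n = k then 1 else 0 := by
  have h1 : ee k = fun x => ee k x * 1 := by funext x; ring
  rw [h1, fc_ee_mul, fc_one]
  congr 1
  rw [sub_eq_zero]

lemma integrable_ee (k : ℤ) : Integrable (ee k) μT :=
  integrable_of_bounded (continuous_ee k).aestronglyMeasurable 1
    (Eventually.of_forall fun x => (norm_ee k x).le)

lemma integrable_bb_shift (t : T1) : Integrable (fun x => (bb (x - t) : ℂ)) μT := by
  apply integrable_of_bounded _ (1 / 2)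
  · refine Eventually.of_forall fun x => ?_
    rw [Complex.norm_real]
    exact abs_bb_le _
  · apply Measurable.aestronglyMeasurable
    exact Complex.measurable_ofReal.comp (measurable_bb.comp (measurable_id.sub_const t))

/-! ### Fejér means -/

/-- The Fejér mean. -/
noncomputable def fej (N : ℕ) (G : T1 → ℂ) (x : T1) : ℂ :=
  (1 / (N : ℂ)) * ∑ j ∈ Finset.range N, ∑ l ∈ Finset.range N,
    fc G ((j : ℤ) - l) * ee ((j : ℤ) - l) x

/-- The Fejér kernel. -/
noncomputable def fker (N : ℕ) (x : T1) : ℝ := ‖∑ j ∈ Finset.range N, ee (j : ℤ) x‖ ^ 2 / N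

lemma fker_eq (N : ℕ) (x : T1) : (fker N x : ℂ) = (1 / (N : ℂ)) * ∑ j ∈ Finset.range N,
    ∑ l ∈ Finset.range N, ee ((j : ℤ) - l) x := by
  unfold fker
  have h2 : ((‖∑ j ∈ Finset.range N, ee (j : ℤ) x‖ ^ 2 : ℝ) : ℂ) =
      (∑ j ∈ Finset.range N, ee (j : ℤ) x) *
        (starRingEnd ℂ) (∑ j ∈ Finset.range N, ee (j : ℤ) x) := by
    rw [Complex.mul_conj, Complex.normSq_eq_norm_sq]
  rw [Complex.ofReal_div, h2, map_sum, Finset.sum_mul_sum]
  have h3 : ∀ j ∈ Finset.range N, ∑ l ∈ Finset.range N, ee (j : ℤ) x *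
      (starRingEnd ℂ) (ee (l : ℤ) x) = ∑ l ∈ Finset.range N, ee ((j : ℤ) - l) x := by
    intro j _
    refine Finset.sum_congr rfl fun l _ => ?_
    rw [ee_sub_left, ee_neg_left]
  rw [Finset.sum_congr rfl h3]
  push_cast
  ring

lemma fker_nonneg (N : ℕ) (x : T1) : 0 ≤ fker N x := by
  unfold fker
  positivity

lemma continuous_fker (N : ℕ) : Continuous (fker N) := by
  unfold fker
  have : Continuous fun x : T1 => ∑ j ∈ Finset.range N, ee (j : ℤ) x :=
    continuous_finsetSum _ fun j _ => continuous_ee _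
  fun_prop

lemma integral_fker (N : ℕ) (hN : 0 < N) : ∫ x, (fker N x : ℂ) ∂μT = 1 := by
  simp_rw [fker_eq]
  rw [integral_const_mul, integral_finsetSum]
  · have h1 : ∀ j ∈ Finset.range N, ∫ x, ∑ l ∈ Finset.range N, ee ((j : ℤ) - l) x ∂μT = 1 := by
      intro j hj
      rw [integral_finsetSum _ fun l _ => integrable_ee _]
      have h2 : ∀ l ∈ Finset.range N, ∫ x, ee ((j : ℤ) - l) x ∂μT = if l = j then 1 else 0 := by
        intro l _
        have h3 := fc_one (-((j : ℤ) - l))
        unfold fc at h3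
        simp only [neg_neg, mul_one] at h3
        rw [h3]
        congr 1
        rw [eq_iff_iff]
        omega
      rw [Finset.sum_congr rfl h2, Finset.sum_ite_eq' , if_pos hj]
    rw [Finset.sum_congr rfl h1]
    have : (N : ℂ) ≠ 0 := by exact_mod_cast hN.ne'
    simp [this]
  · intro j _
    exact integrable_finsetSum _ fun l _ => integrable_ee _

lemma fej_eq_integral {G : T1 → ℂ} (hG : Integrable G μT) (N : ℕ) (x : T1) :
    fej N G x = ∫ s, (fker N s : ℂ) * G (x - s) ∂μT := by
  have h0 : ∫ s, (fker N s : ℂ) * G (x - s) ∂μT = ∫ y, (fker N (x - y) : ℂ) * G y ∂μT := by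
    rw [← integral_sub_left_eq_self (fun s => (fker N s : ℂ) * G (x - s)) μT x]
    congr 1
    funext y
    rw [sub_sub_cancel]
  rw [h0]
  have h1 : ∀ y, (fker N (x - y) : ℂ) * G y = (1 / (N : ℂ)) * ∑ j ∈ Finset.range N,
      ∑ l ∈ Finset.range N, (ee ((j : ℤ) - l) x * (ee (-((j : ℤ) - l)) y * G y)) := by
    intro y
    rw [fker_eq, mul_assoc, Finset.sum_mul]
    congr 1
    refine Finset.sum_congr rfl fun j _ => ?_
    rw [Finset.sum_mul]
    refine Finset.sum_congr rfl fun l _ => ?_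
    rw [ee_sub_right]
    ring
  simp_rw [h1]
  rw [integral_const_mul, integral_finsetSum]
  · unfold fej
    congr 1
    refine Finset.sum_congr rfl fun j _ => ?_
    rw [integral_finsetSum]
    · refine Finset.sum_congr rfl fun l _ => ?_
      rw [integral_const_mul]
      unfold fc
      ring
    · intro l _
      exact (integrable_ee_mul hG _).const_mul _
  · intro j _
    apply integrable_finsetSum
    intro l _
    exact (integrable_ee_mul hG _).const_mul _

/-- The Fejér kernel is small away from zero. -/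
lemma fker_small (δ : ℝ) (hδ : 0 < δ) : ∃ B : ℝ, 0 ≤ B ∧ ∀ (N : ℕ) (s : T1), δ ≤ ‖s‖ →
    fker N s ≤ B / N := by
  have hK : IsCompact {s : T1 | δ ≤ ‖s‖} :=
    (isClosed_le continuous_const continuous_norm).isCompact
  by_cases hne : {s : T1 | δ ≤ ‖s‖}.Nonempty
  · obtain ⟨s₀, hs₀, hmin⟩ := hK.exists_isMinOn hne
      (f := fun s => ‖ee 1 s - 1‖) (((continuous_ee 1).sub continuous_const).norm.continuousOn)
    have hs0 : s₀ ≠ 0 := by
      rintro rfl
      have : δ ≤ ‖(0 : T1)‖ := hs₀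
      rw [norm_zero] at this
      linarith
    have hc : 0 < ‖ee 1 s₀ - 1‖ := norm_pos_iff.mpr (sub_ne_zero.mpr (ee_one_ne_one hs0))
    refine ⟨(2 / ‖ee 1 s₀ - 1‖) ^ 2, by positivity, fun N s hs => ?_⟩
    have hsne : s ≠ 0 := by
      rintro rfl
      rw [norm_zero] at hs
      linarith
    have h1 := geom_bound hsne 0 N
    simp only [zero_add] at h1
    have h2 : ‖ee 1 s₀ - 1‖ ≤ ‖ee 1 s - 1‖ := hmin hs
    unfold fker
    apply div_le_div_of_nonneg_right _ (Nat.cast_nonneg N)
    apply pow_le_pow_left₀ (norm_nonneg _)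
    exact h1.trans (div_le_div_of_nonneg_left (by norm_num) hc h2)
  · refine ⟨0, le_rfl, fun N s hs => ?_⟩
    exact absurd ⟨s, hs⟩ hne

/-- Pointwise estimate for Fejér means. -/
lemma fej_estimate (δ : ℝ) (hδ : 0 < δ) : ∃ B : ℝ, 0 ≤ B ∧ ∀ (N : ℕ) (_ : 0 < N) (G : T1 → ℂ)
    (_ : Integrable G μT) (x : T1) (c : ℂ) (κ M : ℝ) (_ : 0 ≤ κ) (_ : 0 ≤ M)
    (_ : ∀ᵐ s ∂μT, ‖s‖ < δ → ‖G (x - s) - c‖ ≤ κ) (_ : ∀ᵐ s ∂μT, ‖G (x - s) - c‖ ≤ M),
    ‖fej N G x - c‖ ≤ κ + M * B / N := by
  obtain ⟨B, hB0, hB⟩ := fker_small δ hδ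
  refine ⟨B, hB0, fun N hN G hG x c κ M hκ hM h1 h2 => ?_⟩
  have hint1 : Integrable (fun s => G (x - s)) μT := hG.comp_sub_left x
  have hfk : ∀ s, ‖(fker N s : ℂ)‖ ≤ N := by
    intro s
    rw [Complex.norm_real, Real.norm_of_nonneg (fker_nonneg _ _)]
    unfold fker
    have hNr : (0 : ℝ) < N := by exact_mod_cast hN
    rw [div_le_iff₀ hNr]
    have : ‖∑ j ∈ Finset.range N, ee (j : ℤ) s‖ ≤ N := by
      refine (norm_sum_le _ _).trans ?_
      simp [norm_ee]
    calc ‖∑ j ∈ Finset.range N, ee (j : ℤ) s‖ ^ 2 ≤ (N : ℝ) ^ 2 :=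
          pow_le_pow_left₀ (norm_nonneg _) this 2
      _ = N * N := by ring
  have hfkm : AEStronglyMeasurable (fun s => (fker N s : ℂ)) μT :=
    (Complex.continuous_ofReal.comp (continuous_fker N)).aestronglyMeasurable
  have hint2 : Integrable (fun s => (fker N s : ℂ) * G (x - s)) μT :=
    hint1.bdd_mul (c := N) hfkm (Eventually.of_forall hfk)
  have hint3 : Integrable (fun s => (fker N s : ℂ) * c) μT := by
    apply Integrable.mul_const
    exact integrable_of_bounded hfkm N (Eventually.of_forall hfk)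
  have h3 : fej N G x - c = ∫ s, (fker N s : ℂ) * (G (x - s) - c) ∂μT := by
    rw [fej_eq_integral hG]
    have : c = ∫ s, (fker N s : ℂ) * c ∂μT := by
      rw [integral_mul_const, integral_fker N hN, one_mul]
    conv_lhs => rw [this]
    rw [← integral_sub hint2 hint3]
    congr 1
    funext s
    ring
  rw [h3]
  have hfkint : Integrable (fun s => fker N s) μT := by
    have := integrable_of_bounded hfkm N (Eventually.of_forall hfk)
    exact this.re
  have hfk1 : ∫ s, fker N s ∂μT = 1 := by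
    have := integral_fker N hN
    rw [integral_complex_ofReal] at this
    exact_mod_cast this
  calc ‖∫ s, (fker N s : ℂ) * (G (x - s) - c) ∂μT‖
      ≤ ∫ s, (fker N s * κ + M * B / N) ∂μT := by
        apply norm_integral_le_of_norm_le
        · exact (hfkint.mul_const κ).add (integrable_const _)
        · filter_upwards [h1, h2] with s hs1 hs2
          rw [norm_mul, Complex.norm_real, Real.norm_of_nonneg (fker_nonneg _ _)]
          by_cases hsd : ‖s‖ < δ
          · have := mul_le_mul_of_nonneg_left (hs1 hsd) (fker_nonneg N s)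
            have : 0 ≤ M * B / N := by positivity
            linarith
          · push Not at hsd
            have h4 := hB N s hsd
            have h5 : fker N s * ‖G (x - s) - c‖ ≤ B / N * M :=
              mul_le_mul h4 hs2 (norm_nonneg _) (by positivity)
            have h6 : 0 ≤ fker N s * κ := mul_nonneg (fker_nonneg _ _) hκ
            calc fker N s * ‖G (x - s) - c‖ ≤ B / N * M := h5
              _ = M * B / N := by ring
              _ ≤ _ := by linarith
    _ = κ + M * B / N := by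
        rw [integral_add (hfkint.mul_const κ) (integrable_const _), integral_mul_const, hfk1]
        simp

end Pool.Agent.Helper57.Mp
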