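import Mathlib
import Pool.Agent.Helper57.Mp.Circle

/-!
Step functions on the circle and approximation in sup norm and multiplier norm simultaneously.
-/

namespace Pool.Agent.Helper57.Mp

open Finset Filter Topology MeasureTheory

variable {p q : ℝ}

/-- Step functions: integrable and locally constant off a finite set. -/
def IsStep (s : T1 → ℂ) : Prop :=
  Integrable s μT ∧ ∃ P : Set T1, P.Finite ∧ ∀ x, x ∉ P → ∀ᶠ y in 𝓝 x, s y = s x

/-- Approximability by step functions. -/
def Appr (p q : ℝ) (G : T1 → ℂ) : Prop :=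
  Integrable G μT ∧ ∀ ε : ℝ, 0 < ε → ∃ s : T1 → ℂ, IsStep s ∧ (∀ x, ‖G x - s x‖ ≤ ε) ∧
    Mult p q (fun n => fc G n - fc s n) ε

lemma IsStep.const (c : ℂ) : IsStep (fun _ => c) :=
  ⟨integrable_const _, ∅, Set.finite_empty, fun _ _ => Eventually.of_forall fun _ => rfl⟩

lemma IsStep.add {s s' : T1 → ℂ} (h : IsStep s) (h' : IsStep s') :
    IsStep (fun x => s x + s' x) := by
  obtain ⟨h1, P, hP, h2⟩ := h
  obtain ⟨h1', P', hP', h2'⟩ := h'
  refine ⟨h1.add h1', P ∪ P', hP.union hP', fun x hx => ?_⟩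
  rw [Set.mem_union, not_or] at hx
  filter_upwards [h2 x hx.1, h2' x hx.2] with y hy hy'
  rw [hy, hy']

lemma IsStep.const_mul {s : T1 → ℂ} (h : IsStep s) (c : ℂ) : IsStep (fun x => c * s x) := by
  obtain ⟨h1, P, hP, h2⟩ := h
  refine ⟨h1.const_mul c, P, hP, fun x hx => ?_⟩
  filter_upwards [h2 x hx] with y hy
  rw [hy]

lemma IsStep.translate {s : T1 → ℂ} (h : IsStep s) (t : T1) : IsStep (fun x => s (x - t)) := by
  obtain ⟨h1, P, hP, h2⟩ := h
  refine ⟨h1.comp_sub_right t, (fun x => x + t) '' P, hP.image _, fun x hx => ?_⟩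
  have hx' : x - t ∉ P := by
    intro hx'
    apply hx
    exact ⟨x - t, hx', by simp⟩
  have hc : Tendsto (fun y : T1 => y - t) (𝓝 x) (𝓝 (x - t)) :=
    (continuous_id.sub continuous_const).tendsto x
  exact hc.eventually (h2 _ hx')

lemma Appr.add {G G' : T1 → ℂ} (h : Appr p q G) (h' : Appr p q G') :
    Appr p q (fun x => G x + G' x) := by
  refine ⟨h.1.add h'.1, fun ε hε => ?_⟩
  obtain ⟨s, hs, h1, h2⟩ := h.2 (ε / 2) (by positivity)
  obtain ⟨s', hs', h1', h2'⟩ := h'.2 (ε / 2) (by positivity)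
  refine ⟨fun x => s x + s' x, hs.add hs', fun x => ?_, ?_⟩
  · have : G x + G' x - (s x + s' x) = (G x - s x) + (G' x - s' x) := by ring
    rw [this]
    refine (norm_add_le _ _).trans ?_
    linarith [h1 x, h1' x]
  · have := h2.add h2'
    rw [add_halves] at this
    refine this.congr fun n => ?_
    rw [fc_add h.1 h'.1, fc_add hs.1 hs'.1]
    ring

lemma Appr.const_mul (hpq : p.HolderConjugate q) {G : T1 → ℂ} (h : Appr p q G) (c : ℂ) :
    Appr p q (fun x => c * G x) := by
  refine ⟨h.1.const_mul c, fun ε hε => ?_⟩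
  have hc : 0 < ‖c‖ + 1 := by positivity
  obtain ⟨s, hs, h1, h2⟩ := h.2 (ε / (‖c‖ + 1)) (by positivity)
  have hle : ‖c‖ * (ε / (‖c‖ + 1)) ≤ ε := by
    rw [← mul_div_assoc, div_le_iff₀ hc]
    nlinarith [norm_nonneg c]
  refine ⟨fun x => c * s x, hs.const_mul c, fun x => ?_, ?_⟩
  · rw [← mul_sub, norm_mul]
    exact (mul_le_mul_of_nonneg_left (h1 x) (norm_nonneg _)).trans hle
  · refine ((h2.const_mul c).mono hpq hle).congr fun n => ?_
    rw [fc_const_mul, fc_const_mul]
    ring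

lemma Appr.zero (hpq : p.HolderConjugate q) : Appr p q (fun _ => 0) := by
  refine ⟨integrable_const _, fun ε hε => ⟨fun _ => 0, IsStep.const 0, fun x => ?_, ?_⟩⟩
  · simp [hε.le]
  · refine ((Mult.zero hpq).mono hpq hε.le).congr fun n => ?_
    simp

lemma Appr.sum (hpq : p.HolderConjugate q) {ι : Type*} (s : Finset ι) {G : ι → T1 → ℂ}
    (h : ∀ i ∈ s, Appr p q (G i)) : Appr p q (fun x => ∑ i ∈ s, G i x) := by
  classical
  induction s using Finset.induction_on with
  | empty => simpa using Appr.zero hpq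
  | insert i s hi ih =>
    simp only [Finset.sum_insert hi]
    exact (h i (Finset.mem_insert_self i s)).add
      (ih fun j hj => h j (Finset.mem_insert_of_mem hj))

lemma Appr.translate {G : T1 → ℂ} (h : Appr p q G) (t : T1) :
    Appr p q (fun x => G (x - t)) := by
  refine ⟨h.1.comp_sub_right t, fun ε hε => ?_⟩
  obtain ⟨s, hs, h1, h2⟩ := h.2 ε hε
  refine ⟨fun x => s (x - t), hs.translate t, fun x => h1 _, ?_⟩
  have h3 := h2.modulate (u := ee (-1) t) (norm_ee _ _)
  refine h3.congr fun n => ?_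
  rw [fc_translate, fc_translate]
  have : ee (-1) t ^ n = ee (-n) t := by
    rw [← ee_neg_right, ← ee_zpow, ee_neg_right]
  rw [this]
  ring

/-- Approximation in the limit. -/
lemma Appr.of_limit {G : T1 → ℂ} (hG : Integrable G μT)
    (h : ∀ ε : ℝ, 0 < ε → ∃ s : T1 → ℂ, Appr p q s ∧ (∀ x, ‖G x - s x‖ ≤ ε) ∧
    Mult p q (fun n => fc G n - fc s n) ε) : Appr p q G := by
  refine ⟨hG, fun ε hε => ?_⟩
  obtain ⟨s, hs, h1, h2⟩ := h (ε / 2) (by positivity)
  obtain ⟨s', hs', h1', h2'⟩ := hs.2 (ε / 2) (by positivity)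
  refine ⟨s', hs', fun x => ?_, ?_⟩
  · have : G x - s' x = (G x - s x) + (s x - s' x) := by ring
    rw [this]
    refine (norm_add_le _ _).trans ?_
    linarith [h1 x, h1' x]
  · have := h2.add h2'
    rw [add_halves] at this
    refine this.congr fun n => ?_
    ring

/-! ### Dilations -/

lemma ee_mul_zsmul (n k : ℤ) (x : T1) : ee (n * k) x = ee k (n • x) := by
  simp only [ee, fourier_apply]
  rw [← mul_smul, mul_comm]

lemma measurePreserving_dil (n : ℕ) (hn : 0 < n) :
    MeasurePreserving (fun x : T1 => (n : ℤ) • x) μT μT :=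
  MeasureTheory.Measure.measurePreserving_zsmul μT (by exact_mod_cast hn.ne')

lemma integrable_dil {G : T1 → ℂ} (hG : Integrable G μT) (n : ℕ) (hn : 0 < n) :
    Integrable (fun x => G ((n : ℤ) • x)) μT :=
  (measurePreserving_dil n hn).integrable_comp_of_integrable hG

lemma fc_dilate {G : T1 → ℂ} (hG : Integrable G μT) (n : ℕ) (hn : 0 < n) (m : ℤ) :
    fc (fun x => G ((n : ℤ) • x)) m = if (n : ℤ) ∣ m then fc G (m / n) else 0 := by
  have hnz : (n : ℤ) ≠ 0 := by exact_mod_cast hn.ne'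
  by_cases h : (n : ℤ) ∣ m
  · rw [if_pos h]
    obtain ⟨k, rfl⟩ := h
    rw [Int.mul_ediv_cancel_left _ hnz]
    unfold fc
    have h1 : ∀ x : T1, ee (-((n : ℤ) * k)) x * G ((n : ℤ) • x) =
        (fun y => ee (-k) y * G y) ((n : ℤ) • x) := by
      intro x
      simp only
      rw [← ee_mul_zsmul]
      congr 2
      ring
    simp_rw [h1]
    have h2 := (measurePreserving_dil n hn)
    have h3 := integral_map (μ := μT) (φ := fun x : T1 => (n : ℤ) • x) h2.aemeasurable
      (f := fun y => ee (-k) y * G y) (by rw [h2.map_eq]; exact (integrable_ee_mul hG _).1)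
    rw [h2.map_eq] at h3
    exact h3.symm
  · rw [if_neg h]
    set τ : T1 := ((1 / n : ℝ) : T1) with hτ
    have hnτ : (n : ℤ) • τ = 0 := by
      rw [hτ, ← AddCircle.coe_zsmul]
      have : (n : ℤ) • (1 / (n : ℝ)) = 1 := by
        have hn' : (n : ℝ) ≠ 0 := by exact_mod_cast hn.ne'
        simp [hn']
      rw [this]
      exact AddCircle.coe_period 1
    have h1 := fc_translate (fun x => G ((n : ℤ) • x)) τ m
    have h2 : (fun x => G ((n : ℤ) • (x - τ))) = fun x => G ((n : ℤ) • x) := by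
      funext x
      rw [smul_sub, hnτ, sub_zero]
    rw [h2] at h1
    have h3 : ee (-m) τ ≠ 1 := by
      intro h4
      rw [hτ, ee_coe, Complex.exp_eq_one_iff] at h4
      obtain ⟨k, hk⟩ := h4
      apply h
      have hpi : (2 * (Real.pi : ℂ) * Complex.I) ≠ 0 := Complex.two_pi_I_ne_zero
      have hn' : (n : ℂ) ≠ 0 := by exact_mod_cast hn.ne'
      have h6 : -(m : ℂ) = k * n := by
        push_cast at hk
        have h8 : (2 * (Real.pi : ℂ) * Complex.I) * (-(m : ℂ) / n - k) = 0 := by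
          linear_combination hk
        have h9 : -(m : ℂ) / n - k = 0 := (mul_eq_zero.mp h8).resolve_left hpi
        rw [sub_eq_zero, div_eq_iff hn'] at h9
        exact h9
      refine ⟨-k, ?_⟩
      have h7 : (-m : ℤ) = k * n := by exact_mod_cast h6
      linarith
    have h4 : (1 - ee (-m) τ) * fc (fun x => G ((n : ℤ) • x)) m = 0 := by
      linear_combination h1
    rcases mul_eq_zero.mp h4 with h5 | h5
    · exact absurd (sub_eq_zero.mp h5).symm h3
    · exact h5

lemma mult_dilate (hpq : p.HolderConjugate q) {G : T1 → ℂ} (hG : Integrable G μT) {C : ℝ}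
    (h : Mult p q (fc G) C) (n : ℕ) (hn : 0 < n) :
    Mult p q (fc (fun x => G ((n : ℤ) • x))) C :=
  (h.dilate hpq n hn).congr fun m => (fc_dilate hG n hn m).symm

/-! ### The sawtooth -/

lemma eventually_rep (x : T1) (δ : ℝ) (hδ : 0 < δ) :
    ∀ᶠ y in 𝓝 x, ∃ r : ℝ, y = x - (r : T1) ∧ |r| < δ := by
  filter_upwards [Metric.ball_mem_nhds x hδ] with y hy
  obtain ⟨r, hr, hr'⟩ := exists_real_rep (x - y)
  refine ⟨r, ?_, ?_⟩
  · rw [hr]
    abel
  · rw [hr', ← dist_eq_norm, dist_comm]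
    exact hy

lemma finite_torsion_set (n : ℕ) (hn : 0 < n) : {x : T1 | (n : ℤ) • x = 0}.Finite := by
  have := AddCircle.finite_torsion (p := (1 : ℝ)) hn
  simpa using this

lemma integrable_bb : Integrable (fun x => (bb x : ℂ)) μT := by
  have := integrable_bb_shift 0
  simpa using this

lemma appr_bb (hpq : p.HolderConjugate q) : Appr p q (fun x => (bb x : ℂ)) := by
  obtain ⟨C, hC⟩ := mult_Kb hpq
  have hC0 := hC.nonneg hpq
  refine ⟨integrable_bb, fun ε hε => ?_⟩
  obtain ⟨n, hn⟩ := exists_nat_gt ((C + 1) / ε)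
  have hn0 : 0 < n := by
    have h1 : 0 < (C + 1) / ε := by positivity
    have h2 : (0 : ℝ) < n := h1.trans hn
    exact_mod_cast h2
  have hnr : (0 : ℝ) < n := by exact_mod_cast hn0
  have hCn : (C + 1) / n ≤ ε := by
    rw [div_le_iff₀ hnr]
    rw [div_lt_iff₀ hε] at hn
    linarith
  have hdil := integrable_dil integrable_bb n hn0
  refine ⟨fun x => (bb x : ℂ) + (-(1 / (n : ℂ))) * (bb ((n : ℤ) • x) : ℂ), ⟨?_, ?_⟩, ?_, ?_⟩
  · exact integrable_bb.add (hdil.const_mul _)
  · refine ⟨{x : T1 | (n : ℤ) • x = 0}, finite_torsion_set n hn0, fun x hx => ?_⟩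
    have hnx : (n : ℤ) • x ≠ 0 := hx
    have hx0 : x ≠ 0 := by
      rintro rfl
      exact hnx (smul_zero _)
    have hpos1 : 0 < ‖x‖ := norm_pos_iff.mpr hx0
    have hpos2 : 0 < ‖(n : ℤ) • x‖ := norm_pos_iff.mpr hnx
    filter_upwards [eventually_rep x (min ‖x‖ (‖(n : ℤ) • x‖ / n)) (by positivity)] with y hy
    obtain ⟨r, rfl, hr⟩ := hy
    have hr1 : |r| < ‖x‖ := lt_of_lt_of_le hr (min_le_left _ _)
    have hr2 : |(n : ℝ) * r| < ‖(n : ℤ) • x‖ := by
      rw [abs_mul, abs_of_pos hnr]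
      have := lt_of_lt_of_le hr (min_le_right _ _)
      rw [lt_div_iff₀ hnr] at this
      linarith
    have e1 : (n : ℤ) • (x - (r : T1)) = (n : ℤ) • x - ((n * r : ℝ) : T1) := by
      rw [smul_sub, ← AddCircle.coe_zsmul]
      congr 2
      simp
    rw [e1, bb_sub x r hr1, bb_sub _ _ hr2]
    have hnc : (n : ℂ) ≠ 0 := by exact_mod_cast hn0.ne'
    push_cast
    field_simp
    ring
  · intro x
    have : (bb x : ℂ) - ((bb x : ℂ) + (-(1 / (n : ℂ))) * (bb ((n : ℤ) • x) : ℂ)) =
        (1 / (n : ℂ)) * (bb ((n : ℤ) • x) : ℂ) := by ring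
    rw [this, norm_mul, Complex.norm_real, Real.norm_eq_abs]
    have h1 : ‖1 / (n : ℂ)‖ = 1 / (n : ℝ) := by simp
    rw [h1]
    calc 1 / (n : ℝ) * |bb ((n : ℤ) • x)| ≤ 1 / (n : ℝ) * (1 / 2) :=
          mul_le_mul_of_nonneg_left (abs_bb_le _) (by positivity)
      _ ≤ (C + 1) / n := by
        rw [div_mul_eq_mul_div, one_mul]
        apply div_le_div_of_nonneg_right _ hnr.le
        linarith
      _ ≤ ε := hCn
  · have h1 := (mult_dilate hpq integrable_bb (hC.congr fun m => (fc_bb m).symm) n hn0).const_mul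
      (1 / (n : ℂ))
    have h2 : ‖1 / (n : ℂ)‖ * C ≤ ε := by
      have h1 : ‖1 / (n : ℂ)‖ = 1 / (n : ℝ) := by simp
      rw [h1]
      calc 1 / (n : ℝ) * C = C / n := by ring
        _ ≤ (C + 1) / n := by
          apply div_le_div_of_nonneg_right _ hnr.le
          linarith
        _ ≤ ε := hCn
    refine (h1.mono hpq h2).congr fun m => ?_
    rw [fc_add integrable_bb (hdil.const_mul _), fc_const_mul]
    ring

/-! ### Characters -/

/-- The auxiliary function `exp(- 2 π i α {y})`. -/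
noncomputable def uu (α : ℝ) (y : T1) : ℂ :=
  Complex.exp (Complex.I * ((-(2 * Real.pi * α * fr y) : ℝ) : ℂ))

lemma norm_uu (α : ℝ) (y : T1) : ‖uu α y‖ = 1 := by
  unfold uu
  rw [mul_comm, Complex.norm_exp_ofReal_mul_I]

lemma norm_one_sub_uu (α : ℝ) (y : T1) : ‖1 - uu α y‖ ≤ 2 * Real.pi * |α| := by
  rw [norm_sub_rev]
  unfold uu
  refine Real.norm_exp_I_mul_ofReal_sub_one_le.trans ?_
  rw [Real.norm_eq_abs, abs_neg, abs_mul, abs_mul, abs_of_pos (by positivity : 0 < 2 * Real.pi),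
    abs_of_nonneg (fr_nonneg y)]
  have h1 : 0 ≤ 2 * Real.pi * |α| := by positivity
  calc 2 * Real.pi * |α| * fr y ≤ 2 * Real.pi * |α| * 1 :=
        mul_le_mul_of_nonneg_left (fr_lt_one y).le h1
    _ = _ := mul_one _

lemma measurable_uu (α : ℝ) : Measurable (uu α) := by
  unfold uu
  apply Complex.continuous_exp.measurable.comp
  apply Measurable.const_mul
  apply Complex.measurable_ofReal.comp
  exact (measurable_fr.const_mul _).neg

lemma integrable_uu (α : ℝ) : Integrable (uu α) μT :=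
  integrable_of_bounded (measurable_uu α).aestronglyMeasurable 1
    (Eventually.of_forall fun y => (norm_uu α y).le)

lemma fc_uu (α : ℝ) (m : ℤ) (h : (m : ℝ) + α ≠ 0) : fc (uu α) m =
    (1 - Complex.exp (Complex.I * ((-(2 * Real.pi * α) : ℝ) : ℂ))) /
      (2 * (Real.pi : ℂ) * Complex.I * ((m : ℂ) + α)) := by
  have h1 : uu α = AddCircle.liftIco 1 0
      (fun y : ℝ => Complex.exp (Complex.I * ((-(2 * Real.pi * α * y) : ℝ) : ℂ))) := by
    funext x
    unfold uu
    conv_rhs => rw [← coe_fr x]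
    rw [AddCircle.liftIco_coe_apply ⟨fr_nonneg x, by rw [zero_add]; exact fr_lt_one x⟩]
  rw [fc_eq, h1, fourierCoeff_liftIco_eq, fourierCoeffOn_eq_integral]
  have hne : (2 * (Real.pi : ℂ) * Complex.I * ((m : ℂ) + α)) ≠ 0 := by
    apply mul_ne_zero Complex.two_pi_I_ne_zero
    exact_mod_cast h
  have h2 : ∀ x : ℝ, (fourier (-m) (x : AddCircle ((0 : ℝ) + 1 - 0)) : ℂ) •
      Complex.exp (Complex.I * ((-(2 * Real.pi * α * x) : ℝ) : ℂ)) =
      Complex.exp (-(2 * (Real.pi : ℂ) * Complex.I * ((m : ℂ) + α)) * x) := by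
    intro x
    rw [fourier_coe_apply, smul_eq_mul, ← Complex.exp_add]
    congr 1
    push_cast
    ring
  simp_rw [h2]
  rw [integral_exp_mul_complex (neg_ne_zero.mpr hne)]
  have h3 : Complex.exp (-(2 * (Real.pi : ℂ) * Complex.I * ((m : ℂ) + α)) * (((0 : ℝ) + 1 : ℝ) : ℂ))
      = Complex.exp (Complex.I * ((-(2 * Real.pi * α) : ℝ) : ℂ)) := by
    rw [Complex.exp_eq_exp_iff_exists_int]
    refine ⟨-m, ?_⟩
    push_cast
    ring
  rw [h3]
  simp only [Complex.ofReal_zero, mul_zero, Complex.exp_zero, zero_add, sub_zero]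
  rw [show (1 / (1 : ℝ)) = 1 by norm_num, one_smul]
  field_simp
  ring

lemma mult_one_sub_uu (hpq : p.HolderConjugate q) : ∃ D : ℝ, 0 ≤ D ∧ ∀ α : ℝ, |α| ≤ 1 / 2 →
    Mult p q (fc (fun y => 1 - uu α y)) (D * |α|) := by
  obtain ⟨C, hC⟩ := mult_Kb hpq
  have hC0 := hC.nonneg hpq
  obtain ⟨w, hw0, hw⟩ := exists_l1_bound
  have hpi := Real.pi_pos
  refine ⟨(2 * Real.pi + 2) * w + 2 * Real.pi * C, by positivity, fun α hα => ?_⟩
  set z : ℂ := 1 - Complex.exp (Complex.I * ((-(2 * Real.pi * α) : ℝ) : ℂ)) with hz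
  have hzn : ‖z‖ ≤ 2 * Real.pi * |α| := by
    rw [hz, norm_sub_rev]
    refine Real.norm_exp_I_mul_ofReal_sub_one_le.trans ?_
    rw [Real.norm_eq_abs, abs_neg, abs_mul, abs_of_pos (by positivity : 0 < 2 * Real.pi)]
  have hint1 : Integrable (fun _ : T1 => (1 : ℂ)) μT := integrable_const _
  -- E m = fc (1 - u) m + z Kb m
  have hE : Mult p q (fun m => fc (fun y => 1 - uu α y) m + z * Kb m)
      ((2 * Real.pi + 2) * |α| * w) := by
    apply Mult.of_l1 hpq
    intro S
    have hpt : ∀ m : ℤ, ‖fc (fun y => 1 - uu α y) m + z * Kb m‖ ≤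
        (2 * Real.pi + 2) * |α| * Pk (m : ℝ) := by
      intro m
      by_cases hm : m = 0
      · subst hm
        rw [Kb_zero, mul_zero, add_zero]
        have h1 : Pk ((0 : ℤ) : ℝ) = 1 := by simp [Pk]
        rw [h1, mul_one]
        unfold fc
        calc ‖∫ x, ee (-0) x * (1 - uu α x) ∂μT‖ ≤ ∫ x, (2 * Real.pi * |α|) ∂μT := by
              apply norm_integral_le_of_norm_le (integrable_const _)
              refine Eventually.of_forall fun x => ?_
              rw [norm_mul, norm_ee, one_mul]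
              exact norm_one_sub_uu α x
          _ = 2 * Real.pi * |α| := by simp
          _ ≤ _ := by
              apply mul_le_mul_of_nonneg_right _ (abs_nonneg _)
              linarith
      · have hm1 : (1 : ℝ) ≤ |(m : ℝ)| := by exact_mod_cast Int.one_le_abs hm
        have hmα : |(m : ℝ)| / 2 ≤ |(m : ℝ) + α| := by
          have h1 : |(m : ℝ)| ≤ |(m : ℝ) + α| + |α| := by
            calc |(m : ℝ)| = |((m : ℝ) + α) + (-α)| := by ring_nf
              _ ≤ |(m : ℝ) + α| + |-α| := abs_add_le _ _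
              _ = _ := by rw [abs_neg]
          linarith
        have hne : (m : ℝ) + α ≠ 0 := by
          intro h0
          rw [h0, abs_zero] at hmα
          linarith
        rw [fc_sub hint1 (integrable_uu α), fc_one, if_neg hm, fc_uu α m hne, ← hz]
        have hmc : (m : ℂ) ≠ 0 := by exact_mod_cast hm
        have hnec : (m : ℂ) + α ≠ 0 := by exact_mod_cast hne
        have hpic : (Real.pi : ℂ) ≠ 0 := by exact_mod_cast hpi.ne'
        have e1 : 0 - z / (2 * (Real.pi : ℂ) * Complex.I * ((m : ℂ) + α)) + z * Kb m =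
            z * (α : ℂ) / (2 * (Real.pi : ℂ) * Complex.I * ((m : ℂ) * ((m : ℂ) + α))) := by
          unfold Kb
          field_simp
          ring
        rw [e1, norm_div, norm_mul, norm_mul, norm_mul, norm_mul, norm_mul, Complex.norm_I,
          Complex.norm_real, Complex.norm_real, Real.norm_eq_abs, Real.norm_eq_abs,
          abs_of_pos hpi]
        have e2 : ‖(2 : ℂ)‖ = 2 := by norm_num
        have e3 : ‖(m : ℂ)‖ = |(m : ℝ)| := by
          rw [Complex.norm_intCast]
        have e4 : ‖(m : ℂ) + α‖ = |(m : ℝ) + α| := by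
          have h7 : (m : ℂ) + α = (((m : ℝ) + α : ℝ) : ℂ) := by push_cast; rfl
          rw [h7, Complex.norm_real, Real.norm_eq_abs]
        rw [e2, e3, e4, mul_one]
        have hden : 2 * Real.pi * (|(m : ℝ)| * (|(m : ℝ)| / 2)) ≤
            2 * Real.pi * (|(m : ℝ)| * |(m : ℝ) + α|) := by
          gcongr
        have hdenpos : 0 < 2 * Real.pi * (|(m : ℝ)| * (|(m : ℝ)| / 2)) := by positivity
        calc ‖z‖ * |α| / (2 * Real.pi * (|(m : ℝ)| * |(m : ℝ) + α|))
            ≤ (2 * Real.pi * |α|) * |α| / (2 * Real.pi * (|(m : ℝ)| * (|(m : ℝ)| / 2))) := by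
              gcongr
          _ = 2 * |α| * (|α| / |(m : ℝ)| ^ 2) := by
              field_simp
          _ ≤ 2 * |α| * (2 * (1 / 2) * Pk (m : ℝ)) := by
              apply mul_le_mul_of_nonneg_left _ (by positivity)
              unfold Pk
              rw [sq_abs, mul_one_div, div_le_div_iff₀ (by positivity) (by positivity)]
              have h5 : (1 : ℝ) ≤ (m : ℝ) ^ 2 := by
                rw [← sq_abs]
                nlinarith
              nlinarith [abs_nonneg α]
          _ = 2 * |α| * Pk (m : ℝ) := by ring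
          _ ≤ _ := by
              apply mul_le_mul_of_nonneg_right _ (Pk_pos _).le
              apply mul_le_mul_of_nonneg_right _ (abs_nonneg _)
              linarith
    calc ∑ x ∈ S, ‖fc (fun y => 1 - uu α y) x + z * Kb x‖
        ≤ ∑ x ∈ S, (2 * Real.pi + 2) * |α| * Pk (x : ℝ) := Finset.sum_le_sum fun m _ => hpt m
      _ = (2 * Real.pi + 2) * |α| * ∑ x ∈ S, Pk (x : ℝ) := by rw [Finset.mul_sum]
      _ ≤ _ := mul_le_mul_of_nonneg_left (hw S) (by positivity)
  have h2 := hE.add (hC.const_mul (-z))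
  have h3 : (2 * Real.pi + 2) * |α| * w + ‖-z‖ * C ≤
      ((2 * Real.pi + 2) * w + 2 * Real.pi * C) * |α| := by
    rw [norm_neg]
    have := mul_le_mul_of_nonneg_right hzn hC0
    nlinarith
  refine (h2.mono hpq h3).congr fun m => ?_
  ring

lemma appr_ee (hpq : p.HolderConjugate q) (k : ℤ) : Appr p q (ee k) := by
  obtain ⟨D, hD0, hD⟩ := mult_one_sub_uu hpq
  have hpi := Real.pi_pos
  refine ⟨integrable_ee k, fun ε hε => ?_⟩
  obtain ⟨n, hn⟩ := exists_nat_gt (max (2 * |(k : ℝ)|) ((2 * Real.pi + D) * |(k : ℝ)| / ε))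
  have hn1 : 2 * |(k : ℝ)| < n := lt_of_le_of_lt (le_max_left _ _) hn
  have hn2 : (2 * Real.pi + D) * |(k : ℝ)| / ε < n := lt_of_le_of_lt (le_max_right _ _) hn
  have hn0 : 0 < n := by
    have h1 : 0 ≤ 2 * |(k : ℝ)| := by positivity
    have h2 : (0 : ℝ) < n := lt_of_le_of_lt h1 hn1
    exact_mod_cast h2
  have hnr : (0 : ℝ) < n := by exact_mod_cast hn0
  set α : ℝ := (k : ℝ) / n with hα
  have habs : |α| = |(k : ℝ)| / n := by rw [hα, abs_div, abs_of_pos hnr]
  have hα2 : |α| ≤ 1 / 2 := by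
    rw [habs, div_le_iff₀ hnr]
    linarith
  have hαε : (2 * Real.pi + D) * |α| ≤ ε := by
    rw [habs, ← mul_div_assoc, div_le_iff₀ hnr]
    rw [div_lt_iff₀ hε] at hn2
    linarith
  have hdil := integrable_dil (integrable_uu α) n hn0
  have hbd : ∀ x, ‖uu α ((n : ℤ) • x)‖ ≤ 1 := fun x => (norm_uu α _).le
  have hint1 : Integrable (fun _ : T1 => (1 : ℂ)) μT := integrable_const _
  have hints : Integrable (fun x => ee k x * uu α ((n : ℤ) • x)) μT := integrable_ee_mul hdil k
  refine ⟨fun x => ee k x * uu α ((n : ℤ) • x), ⟨hints, ?_⟩, ?_, ?_⟩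
  · refine ⟨{x : T1 | (n : ℤ) • x = 0}, finite_torsion_set n hn0, fun x hx => ?_⟩
    have hnx : (n : ℤ) • x ≠ 0 := hx
    have hpos2 : 0 < ‖(n : ℤ) • x‖ := norm_pos_iff.mpr hnx
    filter_upwards [eventually_rep x (‖(n : ℤ) • x‖ / n) (by positivity)] with y hy
    obtain ⟨r, rfl, hr⟩ := hy
    have hr2 : |(n : ℝ) * r| < ‖(n : ℤ) • x‖ := by
      rw [abs_mul, abs_of_pos hnr]
      rw [lt_div_iff₀ hnr] at hr
      linarith
    have e1 : (n : ℤ) • (x - (r : T1)) = (n : ℤ) • x - ((n * r : ℝ) : T1) := by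
      rw [smul_sub, ← AddCircle.coe_zsmul]
      congr 2
      simp
    rw [e1]
    unfold uu
    rw [fr_sub _ _ hr2, ee_sub_right, ee_coe, mul_assoc, ← Complex.exp_add]
    congr 2
    rw [hα]
    have hnc : (n : ℂ) ≠ 0 := by exact_mod_cast hn0.ne'
    push_cast
    field_simp
    ring
  · intro x
    have : ee k x - ee k x * uu α ((n : ℤ) • x) = ee k x * (1 - uu α ((n : ℤ) • x)) := by ring
    rw [this, norm_mul, norm_ee, one_mul]
    refine (norm_one_sub_uu α _).trans (le_trans ?_ hαε)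
    apply mul_le_mul_of_nonneg_right _ (abs_nonneg _)
    linarith
  · have h1 := mult_dilate hpq (hint1.sub (integrable_uu α)) (hD α hα2) n hn0
    have h2 := h1.shift k
    have h3 : D * |α| ≤ ε := by
      refine le_trans ?_ hαε
      apply mul_le_mul_of_nonneg_right _ (abs_nonneg _)
      linarith
    refine (h2.mono hpq h3).congr fun m => ?_
    rw [← fc_sub (integrable_ee k) hints, ← fc_ee_mul]
    congr 1
    funext x
    simp only [Pi.sub_apply]
    ring

/-! ### Absolutely convergent Fourier series -/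

lemma fc_eq_fun (G : T1 → ℂ) : (fun n => fc G n) = fourierCoeff G := by
  funext n
  exact fc_eq G n

lemma hasSum_of_summable (G : C(T1, ℂ)) (hG : Summable (fun n => fc G n)) (x : T1) :
    HasSum (fun n => fc G n * ee n x) (G x) := by
  have hG' : Summable (fourierCoeff G) := by
    rw [← fc_eq_fun]
    exact hG
  have h1 := has_pointwise_sum_fourier_series_of_summable hG' x
  have h2 : (fun n => fc G n * ee n x) = fun i => fourierCoeff G i • fourier i x := by
    funext n
    rw [fc_eq, smul_eq_mul]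
    rfl
  rw [h2]
  exact h1

lemma appr_of_summable (hpq : p.HolderConjugate q) (G : C(T1, ℂ))
    (hG : Summable (fun n => fc G n)) : Appr p q (fun x => G x) := by
  have hGi : Integrable (fun x => G x) μT := by
    apply integrable_of_bounded G.continuous.aestronglyMeasurable ‖G‖
    exact Eventually.of_forall fun x => G.norm_coe_le_norm x
  apply Appr.of_limit hGi
  intro ε hε
  have hn : Summable (fun n => ‖fc G n‖) := hG.norm
  obtain ⟨s, hs⟩ := (summable_iff_vanishing_norm.mp hn) ε hε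
  have hs' : ∀ t : Finset ℤ, Disjoint t s → ∑ n ∈ t, ‖fc G n‖ ≤ ε := by
    intro t ht
    have h5 := hs t ht
    rw [Real.norm_eq_abs] at h5
    exact (abs_lt.mp h5).2.le
  refine ⟨fun x => ∑ n ∈ s, fc G n * ee n x, ?_, ?_, ?_⟩
  · exact Appr.sum hpq s fun n _ => (appr_ee hpq n).const_mul hpq _
  · intro x
    have h1 := hasSum_of_summable G hG x
    have h0 : Tendsto (fun t : Finset ℤ => ‖∑ n ∈ t, fc G n * ee n x - ∑ n ∈ s, fc G n * ee n x‖)
        atTop (𝓝 ‖G x - ∑ n ∈ s, fc G n * ee n x‖) :=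
      (Tendsto.sub_const h1 _).norm
    refine le_of_tendsto h0 ?_
    filter_upwards [eventually_ge_atTop s] with t ht
    rw [← Finset.sum_sdiff ht, add_sub_cancel_right]
    refine (norm_sum_le _ _).trans ?_
    calc ∑ n ∈ t \ s, ‖fc G n * ee n x‖ = ∑ n ∈ t \ s, ‖fc G n‖ := by
          refine Finset.sum_congr rfl fun n _ => ?_
          rw [norm_mul, norm_ee, mul_one]
      _ ≤ ε := hs' _ Finset.sdiff_disjoint
  · apply Mult.of_l1 hpq
    intro S
    have h1 : ∀ n : ℤ, fc (fun x => ∑ n ∈ s, fc G n * ee n x) n = if n ∈ s then fc G n else 0 := by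
      intro n
      rw [fc_sum s _ (fun i _ => (integrable_ee i).const_mul _)]
      simp_rw [fc_const_mul, fc_ee]
      simp
    have h2 : ∑ n ∈ S, ‖fc (fun x => G x) n - fc (fun x => ∑ n ∈ s, fc G n * ee n x) n‖ =
        ∑ n ∈ S.filter (fun n => n ∉ s), ‖fc G n‖ := by
      rw [Finset.sum_filter]
      refine Finset.sum_congr rfl fun n _ => ?_
      rw [h1]
      by_cases hn : n ∈ s
      · rw [if_pos hn, sub_self, norm_zero, if_neg (not_not.mpr hn)]
      · rw [if_neg hn, sub_zero, if_pos hn]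
    rw [h2]
    apply hs'
    rw [Finset.disjoint_left]
    intro a ha
    exact (Finset.mem_filter.mp ha).2

end Pool.Agent.Helper57.Mp
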