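import Mathlib
import Pool.Agent.Helper57.Mp.Transfer

/-!
Følner sets in finitely generated subgroups of the circle, and the resulting positive kernels.
-/

namespace Pool.Agent.Helper57.Mp

open Finset Filter Topology

open Classical in
/-- Iterated sumsets. -/
noncomputable def iterSum (D : Finset T1) : ℕ → Finset T1
  | 0 => {0}
  | (n + 1) => (iterSum D n ×ˢ D).image (fun x => x.1 + x.2)

lemma zero_mem_iterSum (D : Finset T1) (hD : (0 : T1) ∈ D) (n : ℕ) : (0 : T1) ∈ iterSum D n := by
  classical
  induction n with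
  | zero => simp [iterSum]
  | succ n ih =>
    simp only [iterSum, Finset.mem_image, Finset.mem_product, Prod.exists]
    exact ⟨0, 0, ⟨ih, hD⟩, by simp⟩

lemma add_mem_iterSum (D : Finset T1) (n : ℕ) {s t : T1} (hs : s ∈ iterSum D n) (ht : t ∈ D) :
    s + t ∈ iterSum D (n + 1) := by
  classical
  simp only [iterSum, Finset.mem_image, Finset.mem_product, Prod.exists]
  exact ⟨s, t, ⟨hs, ht⟩, rfl⟩

lemma card_iterSum_le (F : Finset T1) (n : ℕ) :
    (iterSum (insert 0 F) n).card ≤ (n + 1) ^ F.card := by
  classical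
  have h : iterSum (insert 0 F) n ⊆
      (Fintype.piFinset (fun _ : F => Finset.range (n + 1))).image
        (fun f => ∑ t : F, f t • (t : T1)) := by
    induction n with
    | zero =>
      intro x hx
      simp only [iterSum, Finset.mem_singleton] at hx
      rw [Finset.mem_image]
      refine ⟨fun _ => 0, ?_, ?_⟩
      · simp
      · simp [hx]
    | succ n ih =>
      intro x hx
      simp only [iterSum, Finset.mem_image, Finset.mem_product, Prod.exists] at hx
      obtain ⟨s, t, ⟨hs, ht⟩, rfl⟩ := hx
      have h1 := ih hs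
      rw [Finset.mem_image] at h1
      obtain ⟨f, hf, hfs⟩ := h1
      rw [Fintype.mem_piFinset] at hf
      rw [Finset.mem_image]
      rw [Finset.mem_insert] at ht
      rcases ht with ht | ht
      · refine ⟨f, ?_, ?_⟩
        · rw [Fintype.mem_piFinset]
          intro a
          have := hf a
          rw [Finset.mem_range] at this ⊢
          omega
        · rw [hfs, ht, add_zero]
      · refine ⟨Function.update f ⟨t, ht⟩ (f ⟨t, ht⟩ + 1), ?_, ?_⟩
        · rw [Fintype.mem_piFinset]
          intro a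
          by_cases ha : a = ⟨t, ht⟩
          · subst ha
            have := hf ⟨t, ht⟩
            rw [Finset.mem_range] at this ⊢
            simp only [Function.update_self]
            omega
          · have := hf a
            rw [Finset.mem_range] at this ⊢
            rw [Function.update_of_ne ha]
            omega
        · rw [← hfs]
          rw [← Finset.add_sum_erase Finset.univ _ (Finset.mem_univ (⟨t, ht⟩ : F)),
            ← Finset.add_sum_erase Finset.univ (fun a : F => f a • (a : T1))
              (Finset.mem_univ (⟨t, ht⟩ : F))]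
          simp only [Function.update_self, add_smul, one_smul]
          have : ∑ a ∈ Finset.univ.erase (⟨t, ht⟩ : F),
              Function.update f ⟨t, ht⟩ (f ⟨t, ht⟩ + 1) a • (a : T1) =
              ∑ a ∈ Finset.univ.erase (⟨t, ht⟩ : F), f a • (a : T1) := by
            refine Finset.sum_congr rfl fun a ha => ?_
            rw [Function.update_of_ne (Finset.ne_of_mem_erase ha)]
          rw [this]
          abel
  refine (Finset.card_le_card h).trans (Finset.card_image_le.trans ?_)
  rw [Fintype.card_piFinset]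
  simp

lemma exists_slow_growth (F : Finset T1) {ε : ℝ} (hε : 0 < ε) :
    ∃ n : ℕ, ((iterSum (insert 0 F) (n + 1)).card : ℝ) ≤
      (1 + ε) * (iterSum (insert 0 F) n).card := by
  classical
  by_contra hcon
  push Not at hcon
  have h1 : ∀ n : ℕ, (1 + ε) ^ n ≤ ((iterSum (insert 0 F) n).card : ℝ) := by
    intro n
    induction n with
    | zero => simp [iterSum]
    | succ n ih =>
      calc (1 + ε) ^ (n + 1) = (1 + ε) * (1 + ε) ^ n := by ring
        _ ≤ (1 + ε) * (iterSum (insert 0 F) n).card :=
            mul_le_mul_of_nonneg_left ih (by positivity)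
        _ ≤ _ := (hcon n).le
  have h2 : ∀ n : ℕ, (1 + ε) ^ n ≤ ((n : ℝ) + 1) ^ F.card := by
    intro n
    refine (h1 n).trans ?_
    exact_mod_cast card_iterSum_le F n
  have h3 : Tendsto (fun n : ℕ => ((n : ℝ) ^ F.card) / (1 + ε) ^ n) atTop (𝓝 0) :=
    tendsto_pow_const_div_const_pow_of_one_lt F.card (by linarith)
  have h4 := (tendsto_add_atTop_iff_nat 1).mpr h3
  have h5 : ∀ n : ℕ, 1 / (1 + ε) ≤ (((n + 1 : ℕ) : ℝ) ^ F.card) / (1 + ε) ^ (n + 1) := by
    intro n
    have hpos : (0 : ℝ) < (1 + ε) ^ n := by positivity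
    rw [div_le_div_iff₀ (by positivity) (by positivity), one_mul, pow_succ]
    push_cast
    exact mul_le_mul_of_nonneg_right (h2 n) (by positivity)
  have h6 := ge_of_tendsto' h4 h5
  have : (0 : ℝ) < 1 / (1 + ε) := by positivity
  linarith

/-- Følner sets. -/
lemma exists_folner (F : Finset T1) {ε : ℝ} (hε : 0 < ε) :
    ∃ A : Finset T1, A.Nonempty ∧ ∀ t ∈ F,
      ∃ B : Finset T1, B ⊆ A ∧ (∀ s ∈ B, s + t ∈ A) ∧ (1 - ε) * A.card ≤ B.card := by
  classical
  obtain ⟨n, hn⟩ := exists_slow_growth F hε
  set D : Finset T1 := insert 0 F with hD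
  have h0D : (0 : T1) ∈ D := Finset.mem_insert_self _ _
  set A := iterSum D n with hA
  set A' := iterSum D (n + 1) with hA'
  have hsub : A ⊆ A' := by
    intro s hs
    have := add_mem_iterSum D n hs h0D
    rwa [add_zero] at this
  refine ⟨A, ⟨0, zero_mem_iterSum D h0D n⟩, fun t ht => ?_⟩
  refine ⟨A.filter (fun s => s + t ∈ A), Finset.filter_subset _ _, fun s hs =>
    (Finset.mem_filter.mp hs).2, ?_⟩
  have h1 : (A.filter (fun s => ¬ (s + t ∈ A))).card ≤ (A' \ A).card := by
    apply Finset.card_le_card_of_injOn (fun s => s + t)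
    · intro s hs
      have hs' := Finset.mem_filter.mp (Finset.mem_coe.mp hs)
      rw [Finset.mem_coe, Finset.mem_sdiff]
      exact ⟨add_mem_iterSum D n hs'.1 (Finset.mem_insert_of_mem ht), hs'.2⟩
    · intro s _ s' _ hss
      exact add_right_cancel hss
  have h2 : (A' \ A).card + A.card = A'.card := Finset.card_sdiff_add_card_eq_card hsub
  have h3 : (A.filter (fun s => s + t ∈ A)).card + (A.filter (fun s => ¬ (s + t ∈ A))).card =
      A.card := Finset.card_filter_add_card_filter_not _
  have h4 : ((A' \ A).card : ℝ) ≤ ε * A.card := by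
    have : ((A' \ A).card : ℝ) + A.card = A'.card := by exact_mod_cast h2
    linarith
  have h5 : ((A.filter (fun s => s + t ∈ A)).card : ℝ) +
      (A.filter (fun s => ¬ (s + t ∈ A))).card = A.card := by exact_mod_cast h3
  have h6 : ((A.filter (fun s => ¬ (s + t ∈ A))).card : ℝ) ≤ (A' \ A).card := by
    exact_mod_cast h1
  linarith

open Classical in
/-- The number of representations of `t` as a difference. -/
noncomputable def reps (A : Finset T1) (t : T1) : ℕ :=
  ((A ×ˢ A).filter (fun x => x.1 - x.2 = t)).card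

lemma reps_zero (A : Finset T1) : reps A 0 = A.card := by
  classical
  unfold reps
  apply Finset.card_bij (fun x _ => x.1)
  · intro x hx
    exact (Finset.mem_product.mp (Finset.mem_filter.mp hx).1).1
  · intro x hx y hy h
    have h1 := (Finset.mem_filter.mp hx).2
    have h2 := (Finset.mem_filter.mp hy).2
    rw [sub_eq_zero] at h1 h2
    apply Prod.ext h
    rw [← h1, ← h2, h]
  · intro s hs
    refine ⟨(s, s), ?_, rfl⟩
    rw [Finset.mem_filter, Finset.mem_product]
    exact ⟨⟨hs, hs⟩, sub_self s⟩

lemma reps_neg (A : Finset T1) (t : T1) : reps A (-t) = reps A t := by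
  classical
  unfold reps
  apply Finset.card_bij (fun x _ => (x.2, x.1))
  · intro x hx
    rw [Finset.mem_filter, Finset.mem_product] at hx ⊢
    refine ⟨⟨hx.1.2, hx.1.1⟩, ?_⟩
    rw [← neg_sub, hx.2, neg_neg]
  · intro x _ y _ h
    exact Prod.ext (congrArg Prod.snd h) (congrArg Prod.fst h)
  · intro x hx
    rw [Finset.mem_filter, Finset.mem_product] at hx
    refine ⟨(x.2, x.1), ?_, rfl⟩
    rw [Finset.mem_filter, Finset.mem_product]
    refine ⟨⟨hx.1.2, hx.1.1⟩, ?_⟩
    rw [← hx.2, neg_sub]

lemma reps_le (A : Finset T1) (t : T1) : reps A t ≤ A.card := by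
  classical
  unfold reps
  apply Finset.card_le_card_of_injOn (fun x => x.1)
  · intro x hx
    exact (Finset.mem_product.mp (Finset.mem_filter.mp (Finset.mem_coe.mp hx)).1).1
  · intro x hx y hy h
    have h1 := (Finset.mem_filter.mp (Finset.mem_coe.mp hx)).2
    have h2 := (Finset.mem_filter.mp (Finset.mem_coe.mp hy)).2
    apply Prod.ext h
    have h3 : x.1 - x.2 = y.1 - y.2 := h1.trans h2.symm
    have h4 : x.1 = y.1 := h
    rw [h4] at h3
    exact sub_right_injective h3

lemma le_reps (A B : Finset T1) (t : T1) (hB : B ⊆ A) (hBt : ∀ s ∈ B, s + t ∈ A) :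
    B.card ≤ reps A t := by
  classical
  unfold reps
  apply Finset.card_le_card_of_injOn (fun s => (s + t, s))
  · intro s hs
    have hs' := Finset.mem_coe.mp hs
    rw [Finset.mem_coe, Finset.mem_filter, Finset.mem_product]
    exact ⟨⟨hBt s hs', hB hs'⟩, by simp⟩
  · intro s _ s' _ h
    exact congrArg Prod.snd h

open Classical in
/-- The positive kernel of a finite nonempty set. -/
noncomputable def PosKer.ofFinset (A : Finset T1) (hA : A.Nonempty) : PosKer where
  D := (A ×ˢ A).image (fun x => x.1 - x.2)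
  c := fun t => reps A t / A.card
  Φ := fun z => ‖∑ s ∈ A, ee z s‖ ^ 2 / A.card
  Φ_nonneg := fun z => by positivity
  Φ_eq := fun z => by
    have hAc : (A.card : ℂ) ≠ 0 := by exact_mod_cast hA.card_pos.ne'
    have h1 : ((‖∑ s ∈ A, ee z s‖ ^ 2 / A.card : ℝ) : ℂ) =
        (1 / (A.card : ℂ)) * ∑ x ∈ A ×ˢ A, ee z (x.1 - x.2) := by
      have h2 : ((‖∑ s ∈ A, ee z s‖ ^ 2 : ℝ) : ℂ) =
          (∑ s ∈ A, ee z s) * (starRingEnd ℂ) (∑ s ∈ A, ee z s) := by
        rw [Complex.mul_conj, Complex.normSq_eq_norm_sq]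
      rw [Complex.ofReal_div, h2, map_sum, Finset.sum_mul_sum, ← Finset.sum_product']
      have h3 : ∀ x ∈ A ×ˢ A, ee z x.1 * (starRingEnd ℂ) (ee z x.2) = ee z (x.1 - x.2) := by
        intro x _
        rw [ee_sub_right, ee_neg_left]
      rw [Finset.sum_congr rfl h3]
      push_cast
      ring
    rw [h1, Finset.mul_sum]
    rw [← Finset.sum_fiberwise_of_maps_to (t := (A ×ˢ A).image (fun x => x.1 - x.2))
      (g := fun x => x.1 - x.2) (fun x hx => Finset.mem_image_of_mem _ hx)]
    refine Finset.sum_congr rfl fun t _ => ?_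
    have h4 : ∀ x ∈ (A ×ˢ A).filter (fun x => x.1 - x.2 = t),
        (1 / (A.card : ℂ)) * ee z (x.1 - x.2) = (1 / (A.card : ℂ)) * ee z t := by
      intro x hx
      rw [(Finset.mem_filter.mp hx).2]
    rw [Finset.sum_congr rfl h4, Finset.sum_const, nsmul_eq_mul, reps]
    push_cast
    ring
  zero_mem := by
    obtain ⟨s, hs⟩ := hA
    rw [Finset.mem_image]
    exact ⟨(s, s), Finset.mem_product.mpr ⟨hs, hs⟩, sub_self s⟩
  c_zero := by
    have hAc : (A.card : ℝ) ≠ 0 := by exact_mod_cast hA.card_pos.ne'
    simp only [reps_zero]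
    exact div_self hAc
  neg_mem := fun t ht => by
    rw [Finset.mem_image] at ht ⊢
    obtain ⟨x, hx, rfl⟩ := ht
    rw [Finset.mem_product] at hx
    exact ⟨(x.2, x.1), Finset.mem_product.mpr ⟨hx.2, hx.1⟩, (neg_sub _ _).symm⟩
  c_neg := fun t => by rw [reps_neg]
  c_nonneg := fun t => by positivity
  c_le_one := fun t => by
    have hAc : (0 : ℝ) < A.card := by exact_mod_cast hA.card_pos
    rw [div_le_one hAc]
    exact_mod_cast reps_le A t

/-- Existence of positive kernels with coefficients close to `1` on a given finite set. -/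
lemma exists_posKer (F : Finset T1) {ε : ℝ} (hε : 0 < ε) (hε1 : ε < 1) :
    ∃ k : PosKer, F ⊆ k.D ∧ ∀ t ∈ F, 1 - ε ≤ k.c t := by
  classical
  obtain ⟨A, hA, h⟩ := exists_folner F hε
  have hAc : (0 : ℝ) < A.card := by exact_mod_cast hA.card_pos
  have key : ∀ t ∈ F, (1 - ε) * A.card ≤ reps A t := by
    intro t ht
    obtain ⟨B, hBA, hBt, hB⟩ := h t ht
    exact hB.trans (by exact_mod_cast le_reps A B t hBA hBt)
  refine ⟨PosKer.ofFinset A hA, ?_, ?_⟩
  · intro t ht
    have h1 : 0 < reps A t := by
      have h2 : (0 : ℝ) < reps A t := lt_of_lt_of_le (by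
        have : 0 < 1 - ε := by linarith
        positivity) (key t ht)
      exact_mod_cast h2
    unfold reps at h1
    rw [Finset.card_pos] at h1
    obtain ⟨x, hx⟩ := h1
    rw [Finset.mem_filter] at hx
    change t ∈ (A ×ˢ A).image (fun x => x.1 - x.2)
    rw [Finset.mem_image]
    exact ⟨x, hx.1, hx.2⟩
  · intro t ht
    change 1 - ε ≤ (reps A t : ℝ) / A.card
    rw [le_div_iff₀ hAc]
    exact key t ht

end Pool.Agent.Helper57.Mp
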