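import Mathlib
import Pool.Agent.Helper57.Mp.Kernel2
import Pool.Agent.Helper57.Mp.Folner
import Pool.Agent.Helper57.Mp.Approx

/-!
Modulated sawtooth functions, Fejér kernels, Lipschitz functions, oscillation and jump estimates.
-/

namespace Pool.Agent.Helper57.Mp

open Finset Filter Topology MeasureTheory

variable {p q : ℝ}

/-! ### Modulated sawtooth -/

lemma norm_Kb (n : ℤ) : ‖Kb n‖ = 1 / (2 * Real.pi * |(n : ℝ)|) := by
  unfold Kb
  rw [norm_div, norm_mul, norm_mul, norm_mul, Complex.norm_I, Complex.norm_real,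
    Real.norm_eq_abs, abs_of_pos Real.pi_pos, Complex.norm_intCast]
  simp

lemma norm_Kb_le_one (n : ℤ) : ‖Kb n‖ ≤ 1 := by
  by_cases h : n = 0
  · subst h
    rw [Kb_zero, norm_zero]
    norm_num
  · rw [norm_Kb]
    have h1 : (1 : ℝ) ≤ |(n : ℝ)| := by exact_mod_cast Int.one_le_abs h
    have hpi : (3 : ℝ) < Real.pi := Real.pi_gt_three
    rw [div_le_one (by positivity)]
    nlinarith

lemma Kb_diff_le (k n : ℤ) : ‖Kb (n - k) - Kb n‖ ≤ (1 + |(k : ℝ)|) ^ 2 * Pk (n : ℝ) := by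
  have hk0 : 0 ≤ |(k : ℝ)| := abs_nonneg _
  have hpi : (3 : ℝ) < Real.pi := Real.pi_gt_three
  by_cases hn : n = 0
  · subst hn
    rw [Kb_zero, sub_zero]
    have h1 : Pk ((0 : ℤ) : ℝ) = 1 := by simp [Pk]
    rw [h1, mul_one]
    refine (norm_Kb_le_one _).trans ?_
    nlinarith
  by_cases hnk : n = k
  · subst hnk
    rw [sub_self, Kb_zero, zero_sub, norm_neg]
    refine (norm_Kb_le_one _).trans ?_
    unfold Pk
    rw [mul_one_div, le_div_iff₀ (by positivity), one_mul]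
    nlinarith [sq_abs (n : ℝ)]
  have hnc : (n : ℂ) ≠ 0 := by exact_mod_cast hn
  have hnkc : (n : ℂ) - (k : ℂ) ≠ 0 := by
    rw [sub_ne_zero]
    exact_mod_cast hnk
  have hpic : (Real.pi : ℂ) ≠ 0 := by exact_mod_cast Real.pi_ne_zero
  have e1 : Kb (n - k) - Kb n = (k : ℂ) / (2 * (Real.pi : ℂ) * Complex.I * ((n : ℂ) * ((n : ℂ) - k))) := by
    unfold Kb
    push_cast
    field_simp
    ring
  have e4 : ‖(n : ℂ) - k‖ = |(n : ℝ) - k| := by
    have h7 : (n : ℂ) - k = (((n : ℝ) - k : ℝ) : ℂ) := by push_cast; rfl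
    rw [h7, Complex.norm_real, Real.norm_eq_abs]
  have e2 : ‖(2 : ℂ)‖ = 2 := by norm_num
  rw [e1, norm_div, norm_mul, norm_mul, norm_mul, norm_mul, Complex.norm_I, Complex.norm_real,
    Real.norm_eq_abs, abs_of_pos Real.pi_pos, Complex.norm_intCast, Complex.norm_intCast, e4, e2,
    mul_one]
  have h1 : (1 : ℝ) ≤ |(n : ℝ)| := by exact_mod_cast Int.one_le_abs hn
  have h2 : (1 : ℝ) ≤ |(n : ℝ) - k| := by
    have := Int.one_le_abs (sub_ne_zero.mpr hnk)
    exact_mod_cast this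
  have h3 : |(n : ℝ)| ≤ (1 + |(k : ℝ)|) * |(n : ℝ) - k| := by
    have : |(n : ℝ)| ≤ |(n : ℝ) - k| + |(k : ℝ)| := by
      calc |(n : ℝ)| = |((n : ℝ) - k) + k| := by ring_nf
        _ ≤ _ := abs_add_le _ _
    nlinarith
  unfold Pk
  rw [mul_one_div, div_le_div_iff₀ (by positivity) (by positivity)]
  have h4 : 1 + (n : ℝ) ^ 2 ≤ 2 * (|(n : ℝ)| * |(n : ℝ)|) := by
    nlinarith [sq_abs (n : ℝ)]
  calc |(k : ℝ)| * (1 + (n : ℝ) ^ 2) ≤ (1 + |(k : ℝ)|) * (2 * (|(n : ℝ)| * |(n : ℝ)|)) := by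
        apply mul_le_mul (by linarith) h4 (by positivity) (by positivity)
    _ ≤ (1 + |(k : ℝ)|) * (2 * (|(n : ℝ)| * ((1 + |(k : ℝ)|) * |(n : ℝ) - k|))) := by
        gcongr
    _ = (1 + |(k : ℝ)|) ^ 2 * (2 * 1 * (|(n : ℝ)| * |(n : ℝ) - k|)) := by ring
    _ ≤ (1 + |(k : ℝ)|) ^ 2 * (2 * Real.pi * (|(n : ℝ)| * |(n : ℝ) - k|)) := by
        gcongr
        linarith

lemma continuous_ee_sub_mul_bb (k : ℤ) :
    Continuous (fun x : T1 => (ee k x - 1) * (bb x : ℂ)) := by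
  rw [continuous_iff_continuousAt]
  intro x
  by_cases hx : x = 0
  · subst hx
    have h0 : Tendsto (fun x : T1 => ‖ee k x - 1‖) (𝓝 0) (𝓝 0) := by
      have : Continuous fun x : T1 => ‖ee k x - 1‖ := ((continuous_ee k).sub continuous_const).norm
      have h2 := this.tendsto 0
      simpa [ee_zero_right] using h2
    unfold ContinuousAt
    have h3 : (ee k (0 : T1) - 1) * (bb (0 : T1) : ℂ) = 0 := by
      rw [ee_zero_right, sub_self, zero_mul]
    simp only [h3]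
    rw [tendsto_zero_iff_norm_tendsto_zero]
    refine squeeze_zero (fun x => norm_nonneg _) (fun x => ?_) h0
    rw [norm_mul, Complex.norm_real, Real.norm_eq_abs]
    calc ‖ee k x - 1‖ * |bb x| ≤ ‖ee k x - 1‖ * 1 :=
          mul_le_mul_of_nonneg_left ((abs_bb_le x).trans (by norm_num)) (norm_nonneg _)
      _ = _ := mul_one _
  · have hpos : 0 < ‖x‖ := norm_pos_iff.mpr hx
    apply ContinuousAt.mul
    · exact ((continuous_ee k).sub continuous_const).continuousAt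
    · have h1 : ContinuousAt bb x := by
        rw [Metric.continuousAt_iff]
        intro ε hε
        refine ⟨min ‖x‖ ε, by positivity, fun y hy => ?_⟩
        obtain ⟨r, hr, hr'⟩ := exists_real_rep (x - y)
        have hyx : y = x - (r : T1) := by
          rw [hr]
          abel
        have hrn : |r| < min ‖x‖ ε := by
          rw [hr', ← dist_eq_norm, dist_comm]
          exact hy
        rw [hyx, bb_sub x r (lt_of_lt_of_le hrn (min_le_left _ _)), Real.dist_eq, add_sub_cancel_left]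
        exact lt_of_lt_of_le hrn (min_le_right _ _)
      exact Complex.continuous_ofReal.continuousAt.comp h1

lemma appr_ee_mul_bb (hpq : p.HolderConjugate q) (k : ℤ) :
    Appr p q (fun x => ee k x * (bb x : ℂ)) := by
  obtain ⟨w, hw0, hw⟩ := exists_l1_bound
  set G : C(T1, ℂ) := ⟨fun x : T1 => (ee k x - 1) * (bb x : ℂ), continuous_ee_sub_mul_bb k⟩ with hG
  have hfc : ∀ n, fc G n = Kb (n - k) - Kb n := by
    intro n
    have h1 : (G : T1 → ℂ) = fun x => ee k x * (bb x : ℂ) - (bb x : ℂ) := by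
      funext x
      simp only [hG, ContinuousMap.coe_mk]
      ring
    rw [h1, fc_sub (integrable_ee_mul integrable_bb k) integrable_bb, fc_ee_mul, fc_bb, fc_bb]
  have hsumP : Summable (fun n : ℤ => (1 + |(k : ℝ)|) ^ 2 * Pk (n : ℝ)) := by
    apply Summable.mul_left
    exact summable_of_sum_le (fun n => (Pk_pos _).le) hw
  have hsum : Summable (fun n => fc G n) := by
    apply Summable.of_norm_bounded hsumP
    intro n
    rw [hfc]
    exact Kb_diff_le k n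
  have h1 := (appr_of_summable hpq G hsum).add (appr_bb hpq)
  have h2 : (fun x => G x + (bb x : ℂ)) = fun x => ee k x * (bb x : ℂ) := by
    funext x
    simp only [hG, ContinuousMap.coe_mk]
    ring
  rw [h2] at h1
  exact h1

lemma appr_ee_mul_bb_shift (hpq : p.HolderConjugate q) (k : ℤ) (t : T1) :
    Appr p q (fun x => ee k x * (bb (x - t) : ℂ)) := by
  have h1 := ((appr_ee_mul_bb hpq k).translate t).const_mul hpq (ee k t)
  have h2 : (fun x => ee k t * (ee k (x - t) * (bb (x - t) : ℂ))) =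
      fun x => ee k x * (bb (x - t) : ℂ) := by
    funext x
    rw [← mul_assoc, ← ee_add_right, add_sub_cancel]
  rw [h2] at h1
  exact h1

/-! ### Fourier coefficients of Fejér means -/

lemma card_pairs (N : ℕ) (n : ℤ) :
    ((((Finset.range N ×ˢ Finset.range N).filter
      (fun x : ℕ × ℕ => (x.1 : ℤ) - x.2 = n)).card : ℕ) : ℝ) = max 0 ((N : ℝ) - |(n : ℝ)|) := by
  have h1 : ((Finset.range N ×ˢ Finset.range N).filter
      (fun x : ℕ × ℕ => (x.1 : ℤ) - x.2 = n)).card = (Finset.Ico (max 0 (-n)) (min N (N - n))).card := by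
    apply Finset.card_bij (fun x _ => (x.2 : ℤ))
    · intro x hx
      rw [Finset.mem_filter, Finset.mem_product, Finset.mem_range, Finset.mem_range] at hx
      rw [Finset.mem_Ico]
      omega
    · intro x hx y hy hxy
      rw [Finset.mem_filter] at hx hy
      have h2 : x.2 = y.2 := by exact_mod_cast hxy
      have h3 : x.1 = y.1 := by omega
      exact Prod.ext h3 h2
    · intro b hb
      rw [Finset.mem_Ico] at hb
      refine ⟨((b + n).toNat, b.toNat), ?_, ?_⟩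
      · rw [Finset.mem_filter, Finset.mem_product, Finset.mem_range, Finset.mem_range]
        simp only
        omega
      · simp only
        omega
  rw [h1, Int.card_Ico]
  have h2 : ((min (N : ℤ) (N - n) - max 0 (-n)).toNat : ℤ) = max 0 ((N : ℤ) - |n|) := by
    rw [Int.toNat_eq_max]
    rcases le_total 0 n with h | h
    · rw [abs_of_nonneg h]
      omega
    · rw [abs_of_nonpos h]
      omega
  have h3 : (((min (N : ℤ) (N - n) - max 0 (-n)).toNat : ℤ) : ℝ) = ((max 0 ((N : ℤ) - |n|) : ℤ) : ℝ) := by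
    rw [h2]
  have h4 : (((min (N : ℤ) (N - n) - max 0 (-n)).toNat : ℤ) : ℝ) =
      ((min (N : ℤ) (N - n) - max 0 (-n)).toNat : ℝ) := Int.cast_natCast _
  rw [← h4, h3]
  push_cast
  rfl

lemma fc_fej (G : T1 → ℂ) (N : ℕ) (hN : 0 < N) (n : ℤ) :
    fc (fej N G) n = ((max 0 (1 - |(n : ℝ)| / N) : ℝ) : ℂ) * fc G n := by
  have hNr : (0 : ℝ) < N := by exact_mod_cast hN
  have hNc : (N : ℂ) ≠ 0 := by exact_mod_cast hN.ne'
  have h1 : fej N G = fun x => (1 / (N : ℂ)) * ∑ y ∈ Finset.range N ×ˢ Finset.range N,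
      fc G ((y.1 : ℤ) - y.2) * ee ((y.1 : ℤ) - y.2) x := by
    funext x
    unfold fej
    rw [Finset.sum_product]
  rw [h1, fc_const_mul, fc_sum _ _ fun i _ => (integrable_ee _).const_mul _]
  simp_rw [fc_const_mul, fc_ee]
  have h2 : ∀ y ∈ Finset.range N ×ˢ Finset.range N,
      fc G ((y.1 : ℤ) - y.2) * (if n = (y.1 : ℤ) - y.2 then 1 else 0) =
      if (y.1 : ℤ) - y.2 = n then fc G n else 0 := by
    intro y _
    by_cases h : (y.1 : ℤ) - y.2 = n
    · rw [if_pos h, if_pos h.symm, h, mul_one]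
    · rw [if_neg h, if_neg (fun h' => h h'.symm), mul_zero]
  rw [Finset.sum_congr rfl h2, ← Finset.sum_filter, Finset.sum_const, nsmul_eq_mul]
  have h3 := card_pairs N n
  have h4 : ((((Finset.range N ×ˢ Finset.range N).filter
      (fun x : ℕ × ℕ => (x.1 : ℤ) - x.2 = n)).card : ℕ) : ℂ) = ((max 0 ((N : ℝ) - |(n : ℝ)|) : ℝ) : ℂ) := by
    rw [← h3]
    simp
  rw [h4]
  have h5 : max 0 ((N : ℝ) - |(n : ℝ)|) = N * max 0 (1 - |(n : ℝ)| / N) := by
    rw [mul_max_of_nonneg _ _ hNr.le, mul_zero]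
    congr 1
    field_simp
  rw [h5]
  push_cast
  field_simp

lemma mult_fej (hpq : p.HolderConjugate q) {G : T1 → ℂ} {C : ℝ} (h : Mult p q (fc G) C) (N : ℕ)
    (hN : 0 < N) : Mult p q (fc (fej N G)) C :=
  (h.fejer hpq N hN).congr fun n => (fc_fej G N hN n).symm

lemma fej_as_sum (G : T1 → ℂ) (N : ℕ) (x : T1) :
    fej N G x = ∑ y ∈ Finset.range N ×ˢ Finset.range N,
      ((1 / (N : ℂ)) * fc G ((y.1 : ℤ) - y.2)) * ee ((y.1 : ℤ) - y.2) x := by
  unfold fej
  rw [Finset.sum_product, Finset.mul_sum]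
  refine Finset.sum_congr rfl fun j _ => ?_
  rw [Finset.mul_sum]
  refine Finset.sum_congr rfl fun l _ => ?_
  ring

lemma integrable_fej (G : T1 → ℂ) (N : ℕ) : Integrable (fej N G) μT := by
  have : fej N G = fun x => ∑ y ∈ Finset.range N ×ˢ Finset.range N,
      ((1 / (N : ℂ)) * fc G ((y.1 : ℤ) - y.2)) * ee ((y.1 : ℤ) - y.2) x := by
    funext x
    exact fej_as_sum G N x
  rw [this]
  exact integrable_finsetSum _ fun y _ => (integrable_ee _).const_mul _

lemma appr_fej (hpq : p.HolderConjugate q) (G : T1 → ℂ) (N : ℕ) : Appr p q (fej N G) := by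
  have : fej N G = fun x => ∑ y ∈ Finset.range N ×ˢ Finset.range N,
      ((1 / (N : ℂ)) * fc G ((y.1 : ℤ) - y.2)) * ee ((y.1 : ℤ) - y.2) x := by
    funext x
    exact fej_as_sum G N x
  rw [this]
  exact Appr.sum hpq _ fun y _ => (appr_ee hpq _).const_mul hpq _

/-! ### Lipschitz functions -/

/-- Lipschitz and bounded. -/
def Lp (F : T1 → ℂ) : Prop :=
  ∃ Λ : ℝ, 0 ≤ Λ ∧ (∀ (x : T1) (r : ℝ), ‖F (x - (r : T1)) - F x‖ ≤ Λ * |r|) ∧ ∀ x, ‖F x‖ ≤ Λ

lemma Lp.const (c : ℂ) : Lp (fun _ => c) :=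
  ⟨‖c‖, norm_nonneg _, fun x r => by simp; positivity, fun _ => le_rfl⟩

lemma Lp.add {F F' : T1 → ℂ} (h : Lp F) (h' : Lp F') : Lp (fun x => F x + F' x) := by
  obtain ⟨Λ, h0, h1, h2⟩ := h
  obtain ⟨Λ', h0', h1', h2'⟩ := h'
  refine ⟨Λ + Λ', by positivity, fun x r => ?_, fun x => ?_⟩
  · have : F (x - (r : T1)) + F' (x - (r : T1)) - (F x + F' x) =
        (F (x - (r : T1)) - F x) + (F' (x - (r : T1)) - F' x) := by ring
    rw [this]
    refine (norm_add_le _ _).trans ?_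
    linarith [h1 x r, h1' x r]
  · refine (norm_add_le _ _).trans ?_
    linarith [h2 x, h2' x]

lemma Lp.mul {F F' : T1 → ℂ} (h : Lp F) (h' : Lp F') : Lp (fun x => F x * F' x) := by
  obtain ⟨Λ, h0, h1, h2⟩ := h
  obtain ⟨Λ', h0', h1', h2'⟩ := h'
  refine ⟨2 * Λ * Λ', by positivity, fun x r => ?_, fun x => ?_⟩
  · have : F (x - (r : T1)) * F' (x - (r : T1)) - (F x * F' x) =
        (F (x - (r : T1)) - F x) * F' (x - (r : T1)) + F x * (F' (x - (r : T1)) - F' x) := by ring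
    rw [this]
    refine (norm_add_le _ _).trans ?_
    rw [norm_mul, norm_mul]
    have e1 : ‖F (x - (r : T1)) - F x‖ * ‖F' (x - (r : T1))‖ ≤ (Λ * |r|) * Λ' :=
      mul_le_mul (h1 x r) (h2' _) (norm_nonneg _) (by positivity)
    have e2 : ‖F x‖ * ‖F' (x - (r : T1)) - F' x‖ ≤ Λ * (Λ' * |r|) :=
      mul_le_mul (h2 x) (h1' x r) (norm_nonneg _) h0
    nlinarith
  · rw [norm_mul]
    have : ‖F x‖ * ‖F' x‖ ≤ Λ * Λ' := mul_le_mul (h2 x) (h2' x) (norm_nonneg _) h0
    have : 0 ≤ Λ * Λ' := by positivity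
    nlinarith

lemma Lp.sum {ι : Type*} (s : Finset ι) {F : ι → T1 → ℂ} (h : ∀ i ∈ s, Lp (F i)) :
    Lp (fun x => ∑ i ∈ s, F i x) := by
  classical
  induction s using Finset.induction_on with
  | empty => simpa using Lp.const 0
  | insert i s hi ih =>
    simp only [Finset.sum_insert hi]
    exact (h i (Finset.mem_insert_self i s)).add
      (ih fun j hj => h j (Finset.mem_insert_of_mem hj))

lemma Lp.neg {F : T1 → ℂ} (h : Lp F) : Lp (fun x => - F x) := by
  have := (Lp.const (-1)).mul h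
  simpa using this

lemma Lp.sub {F F' : T1 → ℂ} (h : Lp F) (h' : Lp F') : Lp (fun x => F x - F' x) := by
  have := h.add h'.neg
  simpa [sub_eq_add_neg] using this

lemma Lp.translate {F : T1 → ℂ} (h : Lp F) (t : T1) : Lp (fun x => F (x + t)) := by
  obtain ⟨Λ, h0, h1, h2⟩ := h
  refine ⟨Λ, h0, fun x r => ?_, fun x => h2 _⟩
  have := h1 (x + t) r
  rw [show x + t - (r : T1) = x - (r : T1) + t by abel] at this
  exact this

lemma Lp.ee (n : ℤ) : Lp (ee n) := by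
  have hpi := Real.pi_pos
  refine ⟨2 * Real.pi * |(n : ℝ)| + 1, by positivity, fun x r => ?_, fun x => ?_⟩
  · have h1 : Mp.ee n (x - (r : T1)) - Mp.ee n x = Mp.ee n x * (Mp.ee (-n) (r : T1) - 1) := by
      rw [ee_sub_right]
      ring
    rw [h1, norm_mul, norm_ee, one_mul, ee_coe]
    have h2 : 2 * (Real.pi : ℂ) * Complex.I * ((-n : ℤ) : ℂ) * (r : ℂ) =
        Complex.I * ((-(2 * Real.pi * n * r) : ℝ) : ℂ) := by
      push_cast
      ring
    rw [h2]
    refine Real.norm_exp_I_mul_ofReal_sub_one_le.trans ?_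
    rw [Real.norm_eq_abs, abs_neg, abs_mul, abs_mul, abs_of_pos (by positivity : 0 < 2 * Real.pi)]
    have : 0 ≤ |r| := abs_nonneg _
    nlinarith
  · rw [norm_ee]
    have : 0 ≤ 2 * Real.pi * |(n : ℝ)| := by positivity
    linarith

lemma Lp.fej (G : T1 → ℂ) (N : ℕ) : Lp (fej N G) := by
  have : Mp.fej N G = fun x => ∑ y ∈ Finset.range N ×ˢ Finset.range N,
      ((1 / (N : ℂ)) * fc G ((y.1 : ℤ) - y.2)) * Mp.ee ((y.1 : ℤ) - y.2) x := by
    funext x
    exact fej_as_sum G N x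
  rw [this]
  exact Lp.sum _ fun y _ => (Lp.const _).mul (Lp.ee _)

/-- A common Lipschitz constant. -/
lemma exists_common_lip (E : Finset T1) (Δ : T1 → T1 → ℂ) (hΔ : ∀ t ∈ E, Lp (Δ t)) :
    ∃ Λ : ℝ, 0 ≤ Λ ∧ ∀ t ∈ E, (∀ (x : T1) (r : ℝ), ‖Δ t (x - (r : T1)) - Δ t x‖ ≤ Λ * |r|) ∧
      ∀ x, ‖Δ t x‖ ≤ Λ := by
  classical
  induction E using Finset.induction_on with
  | empty => exact ⟨0, le_rfl, fun t ht => absurd ht (Finset.notMem_empty t)⟩
  | insert i s hi ih =>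
    obtain ⟨Λ, h0, h1⟩ := ih fun t ht => hΔ t (Finset.mem_insert_of_mem ht)
    obtain ⟨Λ', h0', h1', h2'⟩ := hΔ i (Finset.mem_insert_self i s)
    refine ⟨Λ + Λ', by positivity, fun t ht => ?_⟩
    rw [Finset.mem_insert] at ht
    rcases ht with rfl | ht
    · refine ⟨fun x r => (h1' x r).trans ?_, fun x => (h2' x).trans (by linarith)⟩
      apply mul_le_mul_of_nonneg_right _ (abs_nonneg _)
      linarith
    · refine ⟨fun x r => ((h1 t ht).1 x r).trans ?_, fun x => ((h1 t ht).2 x).trans (by linarith)⟩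
      apply mul_le_mul_of_nonneg_right _ (abs_nonneg _)
      linarith

lemma exists_separation (E : Finset T1) :
    ∃ s : ℝ, 0 < s ∧ ∀ t ∈ E, ∀ t' ∈ E, t ≠ t' → s ≤ ‖t - t'‖ := by
  classical
  set P : Finset (T1 × T1) := (E ×ˢ E).filter (fun x => x.1 ≠ x.2) with hP
  by_cases hne : P.Nonempty
  · obtain ⟨x, hx, hmin⟩ := P.exists_min_image (fun x => ‖x.1 - x.2‖) hne
    refine ⟨‖x.1 - x.2‖, ?_, fun t ht t' ht' htt => ?_⟩
    · rw [norm_pos_iff, sub_ne_zero]
      exact (Finset.mem_filter.mp hx).2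
    · exact hmin (t, t') (Finset.mem_filter.mpr ⟨Finset.mem_product.mpr ⟨ht, ht'⟩, htt⟩)
  · refine ⟨1, one_pos, fun t ht t' ht' htt => ?_⟩
    exact absurd ⟨(t, t'), Finset.mem_filter.mpr ⟨Finset.mem_product.mpr ⟨ht, ht'⟩, htt⟩⟩ hne

/-- A sum of modulated sawtooth functions. -/
noncomputable def bsum (c : ℂ) (E : Finset T1) (Δ : T1 → T1 → ℂ) (x : T1) : ℂ :=
  c + ∑ t ∈ E, Δ t x * (bb (x - t) : ℂ)

/-- Oscillation of sums of modulated sawtooth functions. -/
lemma osc (c : ℂ) (E : Finset T1) (Δ : T1 → T1 → ℂ) (hΔ : ∀ t ∈ E, Lp (Δ t)) (κ κ' : ℝ)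
    (hκ : 0 ≤ κ) (h : ∀ t ∈ E, ‖Δ t t‖ ≤ κ) (hκ' : κ < κ') :
    ∃ δ : ℝ, 0 < δ ∧ ∀ (x : T1) (r : ℝ), |r| < δ →
      ‖bsum c E Δ (x - (r : T1)) - bsum c E Δ x‖ ≤ κ' := by
  classical
  obtain ⟨Λ, hΛ0, hΛ⟩ := exists_common_lip E Δ hΔ
  obtain ⟨s, hs0, hs⟩ := exists_separation E
  set M : ℝ := 2 * Λ * E.card + 1 with hM
  have hM0 : 0 < M := by positivity
  have hd : 0 < κ' - κ := by linarith
  refine ⟨min (s / 2) ((κ' - κ) / M), by positivity, fun x r hr => ?_⟩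
  have hr1 : |r| < s / 2 := lt_of_lt_of_le hr (min_le_left _ _)
  have hr2 : |r| < (κ' - κ) / M := lt_of_lt_of_le hr (min_le_right _ _)
  have hr0 := abs_nonneg r
  have e0 : bsum c E Δ (x - (r : T1)) - bsum c E Δ x =
      ∑ t ∈ E, (Δ t (x - (r : T1)) * (bb (x - (r : T1) - t) : ℂ) - Δ t x * (bb (x - t) : ℂ)) := by
    unfold bsum
    rw [Finset.sum_sub_distrib]
    ring
  rw [e0]
  have hterm : ∀ t ∈ E, ‖Δ t (x - (r : T1)) * (bb (x - (r : T1) - t) : ℂ) -
      Δ t x * (bb (x - t) : ℂ)‖ ≤ 2 * Λ * |r| + if ‖x - t‖ ≤ |r| then κ else 0 := by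
    intro t ht
    obtain ⟨h1, h2⟩ := hΛ t ht
    have e1 : Δ t (x - (r : T1)) * (bb (x - (r : T1) - t) : ℂ) - Δ t x * (bb (x - t) : ℂ) =
        (Δ t (x - (r : T1)) - Δ t x) * (bb (x - (r : T1) - t) : ℂ) +
        Δ t x * ((bb (x - (r : T1) - t) - bb (x - t) : ℝ) : ℂ) := by
      push_cast
      ring
    rw [e1]
    refine (norm_add_le _ _).trans ?_
    rw [norm_mul, norm_mul, Complex.norm_real, Complex.norm_real, Real.norm_eq_abs,
      Real.norm_eq_abs]
    have e2 : ‖Δ t (x - (r : T1)) - Δ t x‖ * |bb (x - (r : T1) - t)| ≤ (Λ * |r|) * (1 / 2) :=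
      mul_le_mul (h1 x r) (abs_bb_le _) (abs_nonneg _) (by positivity)
    by_cases hxt : ‖x - t‖ ≤ |r|
    · rw [if_pos hxt]
      obtain ⟨ρ, hρ, hρ'⟩ := exists_real_rep (x - t)
      have h3 : t = x - (ρ : T1) := by rw [hρ]; abel
      have h4 : ‖Δ t x‖ ≤ κ + Λ * |r| := by
        have h5 : ‖Δ t x‖ ≤ ‖Δ t t‖ + ‖Δ t t - Δ t x‖ := by
          have : Δ t x = Δ t t - (Δ t t - Δ t x) := by ring
          calc ‖Δ t x‖ = ‖Δ t t - (Δ t t - Δ t x)‖ := by rw [← this]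
            _ ≤ _ := norm_sub_le _ _
        have h6 := h1 x ρ
        rw [← h3] at h6
        have h7 : Λ * |ρ| ≤ Λ * |r| := by
          rw [hρ']
          exact mul_le_mul_of_nonneg_left hxt hΛ0
        linarith [h t ht]
      have h8 : ‖Δ t x‖ * |bb (x - (r : T1) - t) - bb (x - t)| ≤ (κ + Λ * |r|) * 1 :=
        mul_le_mul h4 (abs_bb_sub_le _ _) (abs_nonneg _) (by positivity)
      nlinarith [mul_nonneg hΛ0 hr0]
    · rw [if_neg hxt]
      push Not at hxt
      have h3 : x - (r : T1) - t = (x - t) - (r : T1) := by abel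
      have h4 : bb (x - (r : T1) - t) - bb (x - t) = r := by
        rw [h3, bb_sub _ _ hxt]
        ring
      rw [h4]
      have h5 : ‖Δ t x‖ * |r| ≤ Λ * |r| := mul_le_mul_of_nonneg_right (h2 x) hr0
      nlinarith [mul_nonneg hΛ0 hr0]
  refine (norm_sum_le _ _).trans ((Finset.sum_le_sum hterm).trans ?_)
  rw [Finset.sum_add_distrib, Finset.sum_const, nsmul_eq_mul, ← Finset.sum_filter,
    Finset.sum_const, nsmul_eq_mul]
  have hcard : (E.filter (fun t => ‖x - t‖ ≤ |r|)).card ≤ 1 := by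
    rw [Finset.card_le_one]
    intro t ht t' ht'
    rw [Finset.mem_filter] at ht ht'
    by_contra htt
    have h1 := hs t ht.1 t' ht'.1 htt
    have h2 : ‖t - t'‖ ≤ ‖x - t‖ + ‖x - t'‖ := by
      have : t - t' = (x - t') - (x - t) := by abel
      rw [this]
      refine (norm_sub_le _ _).trans ?_
      linarith
    linarith [ht.2, ht'.2]
  have h1 : (((E.filter (fun t => ‖x - t‖ ≤ |r|)).card : ℕ) : ℝ) * κ ≤ 1 * κ :=
    mul_le_mul_of_nonneg_right (by exact_mod_cast hcard) hκ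
  have h2 : |r| * M < κ' - κ := (lt_div_iff₀ hM0).mp hr2
  have h3 : (E.card : ℝ) * (2 * Λ * |r|) ≤ |r| * M := by
    rw [hM]
    nlinarith
  linarith

lemma norm_bsum_le (c : ℂ) (E : Finset T1) (Δ : T1 → T1 → ℂ) (hΔ : ∀ t ∈ E, Lp (Δ t)) :
    ∃ M : ℝ, 0 ≤ M ∧ ∀ x, ‖bsum c E Δ x‖ ≤ M := by
  obtain ⟨Λ, hΛ0, hΛ⟩ := exists_common_lip E Δ hΔ
  refine ⟨‖c‖ + E.card * Λ, by positivity, fun x => ?_⟩
  unfold bsum
  refine (norm_add_le _ _).trans ?_
  have : ‖∑ t ∈ E, Δ t x * (bb (x - t) : ℂ)‖ ≤ ∑ t ∈ E, Λ := by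
    refine (norm_sum_le _ _).trans (Finset.sum_le_sum fun t ht => ?_)
    rw [norm_mul, Complex.norm_real, Real.norm_eq_abs]
    calc ‖Δ t x‖ * |bb (x - t)| ≤ Λ * 1 :=
          mul_le_mul ((hΛ t ht).2 x) ((abs_bb_le _).trans (by norm_num)) (abs_nonneg _) hΛ0
      _ = Λ := mul_one _
  rw [Finset.sum_const, nsmul_eq_mul] at this
  linarith

lemma ae_sub_left {P : T1 → Prop} (h : ∀ᵐ x ∂μT, P x) (x : T1) : ∀ᵐ s ∂μT, P (x - s) :=
  (MeasureTheory.Measure.measurePreserving_sub_left μT x).quasiMeasurePreserving.ae h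

end Pool.Agent.Helper57.Mp
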