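import Mathlib
import Pool.Agent.Helper57.Mp.Osc

/-!
Main approximation theorem on the circle.
-/

namespace Pool.Agent.Helper57.Mp

open Finset Filter Topology MeasureTheory

variable {p q : ℝ}

/-- The jumps of a sum of sawtooth functions are detected by Fejér means. -/
lemma jump_estimate {f : T1 → ℂ} (hf : Integrable f μT) (c : ℂ) (E : Finset T1) (j : T1 → ℂ)
    {e : ℝ} (he : 0 < e) (hg : ∀ᵐ x ∂μT, ‖f x - bsum c E (fun t _ => j t) x‖ ≤ e) :
    ∃ (η : ℝ) (N : ℕ), 0 < N ∧ ∀ t ∈ E,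
      ‖fej N f (t + (η : T1)) - fej N f (t + ((-η : ℝ) : T1)) - j t‖ ≤ 3 * e := by
  classical
  obtain ⟨s, hs0, hs⟩ := exists_separation E
  set B : ℝ := ∑ t ∈ E, ‖j t‖ with hB
  have hB0 : 0 ≤ B := Finset.sum_nonneg fun t _ => norm_nonneg _
  set η : ℝ := min (min (s / 2) (1 / 2)) (e / (6 * (B + 1))) with hη
  have hη0 : 0 < η := by positivity
  have hη1 : η ≤ s / 2 := (min_le_left _ _).trans (min_le_left _ _)
  have hη2 : η ≤ 1 / 2 := (min_le_left _ _).trans (min_le_right _ _)
  have hη3 : η * (6 * (B + 1)) ≤ e := by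
    have := min_le_right (min (s / 2) (1 / 2)) (e / (6 * (B + 1)))
    rw [← hη] at this
    exact (le_div_iff₀ (by positivity)).mp this
  obtain ⟨B', hB'0, hB'⟩ := fej_estimate (η / 2) (by positivity)
  set M : ℝ := e + 2 * (‖c‖ + B) with hM
  have hM0 : 0 ≤ M := by positivity
  obtain ⟨N, hN⟩ := exists_nat_gt (M * B' / (e / 4))
  have hN0 : 0 < N := by
    have h1 : 0 ≤ M * B' / (e / 4) := by positivity
    have h2 : (0 : ℝ) < N := lt_of_le_of_lt h1 hN
    exact_mod_cast h2
  have hNr : (0 : ℝ) < N := by exact_mod_cast hN0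
  have hMN : M * B' / N ≤ e / 4 := by
    rw [div_lt_iff₀ (by positivity)] at hN
    rw [div_le_iff₀ hNr]
    linarith
  refine ⟨η, N, hN0, fun t ht => ?_⟩
  -- bound on the approximating function
  have hgb : ∀ x, ‖bsum c E (fun t _ => j t) x‖ ≤ ‖c‖ + B := by
    intro x
    unfold bsum
    refine (norm_add_le _ _).trans ?_
    have : ‖∑ t ∈ E, j t * (bb (x - t) : ℂ)‖ ≤ ∑ t ∈ E, ‖j t‖ := by
      refine (norm_sum_le _ _).trans (Finset.sum_le_sum fun t ht => ?_)
      rw [norm_mul, Complex.norm_real, Real.norm_eq_abs]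
      calc ‖j t‖ * |bb (x - t)| ≤ ‖j t‖ * 1 :=
            mul_le_mul_of_nonneg_left ((abs_bb_le _).trans (by norm_num)) (norm_nonneg _)
        _ = ‖j t‖ := mul_one _
    linarith
  set R : ℂ := ∑ t' ∈ E.erase t, j t' * (bb (t - t') : ℂ) with hR
  have hRb : ‖R‖ ≤ ∑ t' ∈ E.erase t, ‖j t'‖ := by
    refine (norm_sum_le _ _).trans (Finset.sum_le_sum fun t' ht' => ?_)
    rw [norm_mul, Complex.norm_real, Real.norm_eq_abs]
    calc ‖j t'‖ * |bb (t - t')| ≤ ‖j t'‖ * 1 :=
          mul_le_mul_of_nonneg_left ((abs_bb_le _).trans (by norm_num)) (norm_nonneg _)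
      _ = ‖j t'‖ := mul_one _
  have hBsplit : B = ‖j t‖ + ∑ t' ∈ E.erase t, ‖j t'‖ := (Finset.add_sum_erase _ _ ht).symm
  -- values to the right/left
  have hval : ∀ u : ℝ, 0 < u → u < s → u < 1 →
      bsum c E (fun t _ => j t) (t - ((-u : ℝ) : T1)) =
        (c + j t / 2 + R) - (u : ℂ) * ∑ t' ∈ E, j t' ∧
      bsum c E (fun t _ => j t) (t - (u : T1)) =
        (c - j t / 2 + R) + (u : ℂ) * ∑ t' ∈ E, j t' := by
    intro u hu0 hus hu1
    have hother : ∀ t' ∈ E.erase t, u < ‖t - t'‖ := by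
      intro t' ht'
      rw [Finset.mem_erase] at ht'
      exact lt_of_lt_of_le hus (hs t ht t' ht'.2 (fun h => ht'.1 h.symm))
    constructor
    · unfold bsum
      rw [← Finset.add_sum_erase _ _ ht, ← Finset.add_sum_erase _ _ ht]
      have e1 : t - ((-u : ℝ) : T1) - t = (u : T1) := by
        rw [AddCircle.coe_neg]
        abel
      rw [e1, bb_coe_pos u hu0 hu1]
      have e2 : ∑ t' ∈ E.erase t, j t' * (bb (t - ((-u : ℝ) : T1) - t') : ℂ) =
          R - (u : ℂ) * ∑ t' ∈ E.erase t, j t' := by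
        rw [hR, Finset.mul_sum, ← Finset.sum_sub_distrib]
        refine Finset.sum_congr rfl fun t' ht' => ?_
        have e3 : t - ((-u : ℝ) : T1) - t' = (t - t') - ((-u : ℝ) : T1) := by abel
        rw [e3, bb_sub _ _ (by rw [abs_neg, abs_of_pos hu0]; exact hother t' ht')]
        push_cast
        ring
      rw [e2]
      push_cast
      ring
    · unfold bsum
      rw [← Finset.add_sum_erase _ _ ht, ← Finset.add_sum_erase _ _ ht]
      have e1 : t - (u : T1) - t = -(u : T1) := by abel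
      rw [e1, bb_coe_neg u hu0 hu1]
      have e2 : ∑ t' ∈ E.erase t, j t' * (bb (t - (u : T1) - t') : ℂ) =
          R + (u : ℂ) * ∑ t' ∈ E.erase t, j t' := by
        rw [hR, Finset.mul_sum, ← Finset.sum_add_distrib]
        refine Finset.sum_congr rfl fun t' ht' => ?_
        have e3 : t - (u : T1) - t' = (t - t') - (u : T1) := by abel
        rw [e3, bb_sub _ _ (by rw [abs_of_pos hu0]; exact hother t' ht')]
        push_cast
        ring
      rw [e2]
      push_cast
      ring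
  have hjB : ‖∑ t' ∈ E, j t'‖ ≤ B := norm_sum_le _ _
  have hu : ∀ u : ℝ, 0 < u → u < 3 * η / 2 → ‖(u : ℂ) * ∑ t' ∈ E, j t'‖ ≤ e / 4 := by
    intro u hu0 hu1
    rw [norm_mul, Complex.norm_real, Real.norm_of_nonneg hu0.le]
    calc u * ‖∑ t' ∈ E, j t'‖ ≤ (3 * η / 2) * B :=
          mul_le_mul hu1.le hjB (norm_nonneg _) (by positivity)
      _ ≤ e / 4 := by nlinarith
  -- right side
  have hright : ‖fej N f (t + (η : T1)) - (c + j t / 2 + R)‖ ≤ (e + e / 4) + M * B' / N := by
    apply hB' N hN0 f hf (t + (η : T1)) (c + j t / 2 + R) (e + e / 4) M (by positivity) hM0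
    · filter_upwards [ae_sub_left hg (t + (η : T1))] with σ hσ hσ2
      obtain ⟨ρ, hρ, hρ'⟩ := exists_real_rep σ
      rw [← hρ'] at hσ2
      have h1 := abs_lt.mp hσ2
      have h2 : t + (η : T1) - σ = t - ((-(η - ρ) : ℝ) : T1) := by
        rw [← hρ, AddCircle.coe_neg, AddCircle.coe_sub]
        abel
      have h3 := (hval (η - ρ) (by linarith) (by linarith) (by linarith)).1
      rw [h2, h3] at hσ
      rw [h2]
      have h4 := hu (η - ρ) (by linarith) (by linarith)
      set X : ℂ := ((η - ρ : ℝ) : ℂ) * ∑ t' ∈ E, j t' with hX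
      have h5 : f (t - ((-(η - ρ) : ℝ) : T1)) - (c + j t / 2 + R) =
          (f (t - ((-(η - ρ) : ℝ) : T1)) - (c + j t / 2 + R - X)) - X := by ring
      rw [h5]
      refine (norm_sub_le _ _).trans ?_
      linarith
    · filter_upwards [ae_sub_left hg (t + (η : T1))] with σ hσ
      have h1 := hgb (t + (η : T1) - σ)
      have h5 : f (t + (η : T1) - σ) - (c + j t / 2 + R) =
          (f (t + (η : T1) - σ) - bsum c E (fun t _ => j t) (t + (η : T1) - σ)) +
          bsum c E (fun t _ => j t) (t + (η : T1) - σ) - (c + j t / 2 + R) := by ring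
      have h6 : ‖c + j t / 2 + R‖ ≤ ‖c‖ + B := by
        refine (norm_add_le _ _).trans ?_
        have h7 : ‖c + j t / 2‖ ≤ ‖c‖ + ‖j t‖ := by
          refine (norm_add_le _ _).trans ?_
          rw [norm_div]
          have : ‖(2 : ℂ)‖ = 2 := by norm_num
          rw [this]
          linarith [norm_nonneg (j t)]
        linarith
      rw [h5]
      refine (norm_sub_le _ _).trans ?_
      have h8 := norm_add_le (f (t + (η : T1) - σ) - bsum c E (fun t _ => j t) (t + (η : T1) - σ))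
        (bsum c E (fun t _ => j t) (t + (η : T1) - σ))
      linarith
  have hleft : ‖fej N f (t + ((-η : ℝ) : T1)) - (c - j t / 2 + R)‖ ≤ (e + e / 4) + M * B' / N := by
    apply hB' N hN0 f hf (t + ((-η : ℝ) : T1)) (c - j t / 2 + R) (e + e / 4) M (by positivity) hM0
    · filter_upwards [ae_sub_left hg (t + ((-η : ℝ) : T1))] with σ hσ hσ2
      obtain ⟨ρ, hρ, hρ'⟩ := exists_real_rep σ
      rw [← hρ'] at hσ2
      have h1 := abs_lt.mp hσ2
      have h2 : t + ((-η : ℝ) : T1) - σ = t - ((η + ρ : ℝ) : T1) := by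
        rw [← hρ, AddCircle.coe_neg, AddCircle.coe_add]
        abel
      have h3 := (hval (η + ρ) (by linarith) (by linarith) (by linarith)).2
      rw [h2, h3] at hσ
      rw [h2]
      have h4 := hu (η + ρ) (by linarith) (by linarith)
      set X : ℂ := ((η + ρ : ℝ) : ℂ) * ∑ t' ∈ E, j t' with hX
      have h5 : f (t - ((η + ρ : ℝ) : T1)) - (c - j t / 2 + R) =
          (f (t - ((η + ρ : ℝ) : T1)) - (c - j t / 2 + R + X)) + X := by ring
      rw [h5]
      refine (norm_add_le _ _).trans ?_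
      linarith
    · filter_upwards [ae_sub_left hg (t + ((-η : ℝ) : T1))] with σ hσ
      have h1 := hgb (t + ((-η : ℝ) : T1) - σ)
      have h5 : f (t + ((-η : ℝ) : T1) - σ) - (c - j t / 2 + R) =
          (f (t + ((-η : ℝ) : T1) - σ) - bsum c E (fun t _ => j t) (t + ((-η : ℝ) : T1) - σ)) +
          bsum c E (fun t _ => j t) (t + ((-η : ℝ) : T1) - σ) - (c - j t / 2 + R) := by ring
      have h6 : ‖c - j t / 2 + R‖ ≤ ‖c‖ + B := by
        refine (norm_add_le _ _).trans ?_
        have h7 : ‖c - j t / 2‖ ≤ ‖c‖ + ‖j t‖ := by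
          refine (norm_sub_le _ _).trans ?_
          rw [norm_div]
          have : ‖(2 : ℂ)‖ = 2 := by norm_num
          rw [this]
          linarith [norm_nonneg (j t)]
        linarith
      rw [h5]
      refine (norm_sub_le _ _).trans ?_
      have h8 := norm_add_le (f (t + ((-η : ℝ) : T1) - σ) -
        bsum c E (fun t _ => j t) (t + ((-η : ℝ) : T1) - σ))
        (bsum c E (fun t _ => j t) (t + ((-η : ℝ) : T1) - σ))
      linarith
  have h9 : fej N f (t + (η : T1)) - fej N f (t + ((-η : ℝ) : T1)) - j t =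
      (fej N f (t + (η : T1)) - (c + j t / 2 + R)) -
      (fej N f (t + ((-η : ℝ) : T1)) - (c - j t / 2 + R)) := by ring
  rw [h9]
  refine (norm_sub_le _ _).trans ?_
  linarith

/-! ### The almost periodic singular kernel -/

lemma PosKer.h_neg (k : PosKer) (n : ℤ) : k.h (-n) = k.h n := by
  unfold PosKer.h
  refine Finset.sum_bij (fun t _ => -t) (fun t ht => k.neg_mem t ht) (fun s _ t _ h => neg_inj.mp h)
    (fun t ht => ⟨-t, k.neg_mem t ht, neg_neg t⟩) (fun t _ => ?_)
  rw [k.c_neg, ee_neg_right]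

/-- The trigonometric window. -/
noncomputable def ww (L : ℕ) (y : T1) : ℂ :=
  (1 / (L : ℂ) ^ 2) * ∑ i ∈ Finset.range L, ∑ j ∈ Finset.range L, ee ((i : ℤ) + j) y

lemma ww_zero (L : ℕ) (hL : 0 < L) : ww L 0 = 1 := by
  have hLc : (L : ℂ) ≠ 0 := by exact_mod_cast hL.ne'
  unfold ww
  simp only [ee_zero_right, Finset.sum_const, Finset.card_range, nsmul_eq_mul, mul_one]
  field_simp

lemma Lp.ww (L : ℕ) : Lp (ww L) := by
  unfold Mp.ww
  exact (Lp.const _).mul (Lp.sum _ fun i _ => Lp.sum _ fun j _ => Lp.ee _)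

/-- The function with Fourier coefficients `k.h n * smooth L Kb n`. -/
noncomputable def HH (k : PosKer) (L : ℕ) (x : T1) : ℂ :=
  ∑ t ∈ k.D, ((k.c t ^ 2 : ℝ) : ℂ) * (ww L (x - t) * (bb (x - t) : ℂ))

lemma wb_as_sum (L : ℕ) (y : T1) : ww L y * (bb y : ℂ) = (1 / (L : ℂ) ^ 2) *
    ∑ i ∈ Finset.range L, ∑ j ∈ Finset.range L, ee ((i : ℤ) + j) y * (bb y : ℂ) := by
  unfold ww
  rw [mul_assoc, Finset.sum_mul]
  congr 1
  refine Finset.sum_congr rfl fun i _ => ?_
  rw [Finset.sum_mul]

lemma integrable_wb (L : ℕ) : Integrable (fun y => ww L y * (bb y : ℂ)) μT := by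
  simp_rw [wb_as_sum]
  exact (integrable_finsetSum _ fun i _ => integrable_finsetSum _ fun j _ =>
    integrable_ee_mul integrable_bb _).const_mul _

lemma fc_wb (L : ℕ) (n : ℤ) : fc (fun y => ww L y * (bb y : ℂ)) n = smooth L Kb n := by
  simp_rw [wb_as_sum]
  rw [fc_const_mul, fc_sum _ _ fun i _ => integrable_finsetSum _ fun j _ =>
    integrable_ee_mul integrable_bb _]
  unfold smooth
  congr 1
  refine Finset.sum_congr rfl fun i _ => ?_
  rw [fc_sum _ _ fun j _ => integrable_ee_mul integrable_bb _]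
  refine Finset.sum_congr rfl fun j _ => ?_
  rw [fc_ee_mul, fc_bb]
  congr 1
  ring

lemma integrable_HH (k : PosKer) (L : ℕ) : Integrable (HH k L) μT := by
  unfold HH
  exact integrable_finsetSum _ fun t _ => ((integrable_wb L).comp_sub_right t).const_mul _

lemma fc_HH (k : PosKer) (L : ℕ) (n : ℤ) : fc (HH k L) n = k.h n * smooth L Kb n := by
  have h1 : HH k L = fun x => ∑ t ∈ k.D, ((k.c t ^ 2 : ℝ) : ℂ) *
      (fun y => ww L y * (bb y : ℂ)) (x - t) := rfl
  rw [h1, fc_sum _ _ fun t _ => ((integrable_wb L).comp_sub_right t).const_mul _]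
  rw [← k.h_neg n]
  unfold PosKer.h
  rw [Finset.sum_mul]
  refine Finset.sum_congr rfl fun t _ => ?_
  rw [fc_const_mul, fc_translate (fun y => ww L y * (bb y : ℂ)) t n, fc_wb]
  ring

/-- Trigonometric polynomials. -/
def TP (F : T1 → ℂ) : Prop :=
  ∃ (J : Finset ℤ) (a : ℤ → ℂ), (∀ n, n ∉ J → a n = 0) ∧ ∀ x, F x = ∑ n ∈ J, a n * ee n x

lemma fc_of_TP {F : T1 → ℂ} {J : Finset ℤ} {a : ℤ → ℂ} (ha : ∀ n, n ∉ J → a n = 0)
    (h : ∀ x, F x = ∑ n ∈ J, a n * ee n x) (n : ℤ) : fc F n = a n := by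
  classical
  have h1 : F = fun x => ∑ n ∈ J, a n * ee n x := funext h
  rw [h1, fc_sum _ _ fun i _ => (integrable_ee i).const_mul _]
  simp_rw [fc_const_mul, fc_ee]
  by_cases hn : n ∈ J
  · simp [hn]
  · simp [hn, ha n hn]

lemma TP.fej (G : T1 → ℂ) (N : ℕ) (hN : 0 < N) : TP (fej N G) := by
  classical
  refine ⟨(Finset.range N ×ˢ Finset.range N).image (fun y => (y.1 : ℤ) - y.2), fc (Mp.fej N G),
    fun n hn => ?_, fun x => ?_⟩
  · rw [fc_fej G N hN]
    have h1 := card_pairs N n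
    have h2 : ((Finset.range N ×ˢ Finset.range N).filter
      (fun x : ℕ × ℕ => (x.1 : ℤ) - x.2 = n)).card = 0 := by
      rw [Finset.card_eq_zero, Finset.filter_eq_empty_iff]
      intro y hy h
      apply hn
      rw [Finset.mem_image]
      exact ⟨y, hy, h⟩
    rw [h2] at h1
    have hNr : (0 : ℝ) < N := by exact_mod_cast hN
    have h3 : max 0 (1 - |(n : ℝ)| / N) = 0 := by
      have h4 : (N : ℝ) - |(n : ℝ)| ≤ 0 := by
        have := le_max_right (0 : ℝ) ((N : ℝ) - |(n : ℝ)|)
        rw [← h1] at this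
        simpa using this
      apply max_eq_left
      have : 1 ≤ |(n : ℝ)| / N := by
        rw [le_div_iff₀ hNr]
        linarith
      linarith
    rw [h3]
    simp
  · rw [fej_as_sum, ← Finset.sum_fiberwise_of_maps_to
      (t := (Finset.range N ×ˢ Finset.range N).image (fun y => (y.1 : ℤ) - y.2))
      (g := fun y => (y.1 : ℤ) - y.2) (fun y hy => Finset.mem_image_of_mem _ hy)]
    refine Finset.sum_congr rfl fun n _ => ?_
    have h4 : ∀ y ∈ (Finset.range N ×ˢ Finset.range N).filter (fun y => (y.1 : ℤ) - y.2 = n),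
        ((1 / (N : ℂ)) * fc G ((y.1 : ℤ) - y.2)) * ee ((y.1 : ℤ) - y.2) x =
        (1 / (N : ℂ)) * fc G n * ee n x := by
      intro y hy
      rw [(Finset.mem_filter.mp hy).2]
    rw [Finset.sum_congr rfl h4, Finset.sum_const, nsmul_eq_mul, fc_fej G N hN]
    have h3 := card_pairs N n
    have h5 : ((((Finset.range N ×ˢ Finset.range N).filter
        (fun x : ℕ × ℕ => (x.1 : ℤ) - x.2 = n)).card : ℕ) : ℂ) =
        ((max 0 ((N : ℝ) - |(n : ℝ)|) : ℝ) : ℂ) := by
      rw [← h3]
      simp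
    rw [h5]
    have hNr : (0 : ℝ) < N := by exact_mod_cast hN
    have hNc : (N : ℂ) ≠ 0 := by exact_mod_cast hN.ne'
    have h5 : max 0 ((N : ℝ) - |(n : ℝ)|) = N * max 0 (1 - |(n : ℝ)| / N) := by
      rw [mul_max_of_nonneg _ _ hNr.le, mul_zero]
      congr 1
      field_simp
    rw [h5]
    push_cast
    field_simp

lemma TP.translate {F : T1 → ℂ} (h : TP F) (t : T1) : TP (fun x => F (x + t)) := by
  obtain ⟨J, a, ha, h⟩ := h
  refine ⟨J, fun n => ee n t * a n, fun n hn => ?_, fun x => ?_⟩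
  · simp only
    rw [ha n hn, mul_zero]
  · simp only
    rw [h]
    refine Finset.sum_congr rfl fun n _ => ?_
    rw [ee_add_right]
    ring

lemma TP.sub {F F' : T1 → ℂ} (h : TP F) (h' : TP F') : TP (fun x => F x - F' x) := by
  classical
  obtain ⟨J, a, ha, h⟩ := h
  obtain ⟨J', a', ha', h'⟩ := h'
  refine ⟨J ∪ J', fun n => a n - a' n, fun n hn => ?_, fun x => ?_⟩
  · rw [Finset.mem_union, not_or] at hn
    simp only
    rw [ha n hn.1, ha' n hn.2, sub_zero]
  · simp only
    rw [h, h']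
    have h1 : ∑ n ∈ J, a n * ee n x = ∑ n ∈ J ∪ J', a n * ee n x := by
      apply Finset.sum_subset Finset.subset_union_left
      intro n _ hn
      rw [ha n hn, zero_mul]
    have h2 : ∑ n ∈ J', a' n * ee n x = ∑ n ∈ J ∪ J', a' n * ee n x := by
      apply Finset.sum_subset Finset.subset_union_right
      intro n _ hn
      rw [ha' n hn, zero_mul]
    rw [h1, h2, ← Finset.sum_sub_distrib]
    refine Finset.sum_congr rfl fun n _ => ?_
    ring

/-- Product of a trigonometric polynomial and `HH`. -/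
lemma prod_facts (hpq : p.HolderConjugate q) {m : T1 → ℂ} (hm : TP m) (k : PosKer) (L : ℕ)
    {D C : ℝ} (hD : Mult p q (fc m) D) (hC : Mult p q (fc (HH k L)) C) :
    Integrable (fun x => m x * HH k L x) μT ∧
    Mult p q (fc (fun x => m x * HH k L x)) (C * max (strongC p q D) 1) ∧
    Appr p q (fun x => m x * HH k L x) := by
  obtain ⟨J, a, ha, h⟩ := hm
  have hfc := fc_of_TP ha h
  have e1 : (fun x => m x * HH k L x) = fun x => ∑ n ∈ J, a n * (ee n x * HH k L x) := by
    funext x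
    rw [h, Finset.sum_mul]
    refine Finset.sum_congr rfl fun n _ => ?_
    ring
  refine ⟨?_, ?_, ?_⟩
  · rw [e1]
    exact integrable_finsetSum _ fun n _ => (integrable_ee_mul (integrable_HH k L) n).const_mul _
  · refine (hC.finite_mul hpq hD J (fun n hn => by rw [hfc, ha n hn])).congr fun n => ?_
    rw [e1, fc_sum _ _ fun n _ => (integrable_ee_mul (integrable_HH k L) n).const_mul _]
    refine Finset.sum_congr rfl fun i _ => ?_
    rw [fc_const_mul, fc_ee_mul, hfc]
  · rw [e1]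
    apply Appr.sum hpq
    intro n _
    apply Appr.const_mul hpq
    have e2 : (fun x => ee n x * HH k L x) = fun x => ∑ t ∈ k.D, ((k.c t ^ 2 : ℝ) : ℂ) *
        ((1 / (L : ℂ) ^ 2) * ∑ i ∈ Finset.range L, ∑ j ∈ Finset.range L,
          ee (-((i : ℤ) + j)) t * (ee (n + ((i : ℤ) + j)) x * (bb (x - t) : ℂ))) := by
      funext x
      unfold HH
      rw [Finset.mul_sum]
      refine Finset.sum_congr rfl fun t _ => ?_
      rw [wb_as_sum]
      have e3 : ∀ i ∈ Finset.range L, ∑ j ∈ Finset.range L, ee ((i : ℤ) + j) (x - t) *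
          (bb (x - t) : ℂ) = ∑ j ∈ Finset.range L, ee (-((i : ℤ) + j)) t *
          (ee ((i : ℤ) + j) x * (bb (x - t) : ℂ)) := by
        intro i _
        refine Finset.sum_congr rfl fun j _ => ?_
        rw [ee_sub_right]
        ring
      rw [Finset.sum_congr rfl e3]
      have e4 : ∀ i ∈ Finset.range L, ∑ j ∈ Finset.range L, ee (-((i : ℤ) + j)) t *
          (ee (n + ((i : ℤ) + j)) x * (bb (x - t) : ℂ)) = ee n x * ∑ j ∈ Finset.range L,
          ee (-((i : ℤ) + j)) t * (ee ((i : ℤ) + j) x * (bb (x - t) : ℂ)) := by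
        intro i _
        rw [Finset.mul_sum]
        refine Finset.sum_congr rfl fun j _ => ?_
        rw [ee_add_left n]
        ring
      rw [Finset.sum_congr rfl e4, ← Finset.mul_sum]
      ring
    rw [e2]
    exact Appr.sum hpq _ fun t _ => (((Appr.sum hpq _ fun i _ => Appr.sum hpq _ fun j _ =>
      (appr_ee_mul_bb_shift hpq _ t).const_mul hpq _).const_mul hpq _).const_mul hpq _)

end Pool.Agent.Helper57.Mp
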