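import Mathlib
import Pool.Agent.Helper57.Mp.Final

/-!
Conversion between the circle and the unit interval.
-/

namespace Pool.Agent.Helper57.Mp

open Finset Filter Topology MeasureTheory
open scoped ENNReal

variable {p q : ℝ}

/-- Lebesgue measure on the unit interval. -/
noncomputable abbrev nuI : Measure ℝ := volume.restrict (Set.Icc (0 : ℝ) 1)

lemma mp_mk : MeasurePreserving (fun x : ℝ => (x : T1)) nuI μT := by
  have h1 := AddCircle.measurePreserving_mk (1 : ℝ) 0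
  have h2 : (volume : Measure T1) = μT := by
    rw [AddCircle.volume_eq_smul_haarAddCircle]
    simp
  rw [h2, zero_add] at h1
  have h3 : nuI = volume.restrict (Set.Ioc (0 : ℝ) 1) :=
    (Measure.restrict_congr_set Ioc_ae_eq_Icc).symm
  rw [h3]
  exact h1

lemma ae_nuI_Ico : ∀ᵐ x ∂nuI, x ∈ Set.Ico (0 : ℝ) 1 := by
  have h3 : nuI = volume.restrict (Set.Ico (0 : ℝ) 1) :=
    (Measure.restrict_congr_set Ico_ae_eq_Icc).symm
  rw [h3]
  exact ae_restrict_mem measurableSet_Ico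

lemma fr_coe_of_mem {x : ℝ} (hx : x ∈ Set.Ico (0 : ℝ) 1) : fr (x : T1) = x := by
  rw [fr_coe, Int.fract_eq_self.mpr ⟨hx.1, hx.2⟩]

lemma mp_fr : MeasurePreserving fr μT nuI := by
  refine ⟨measurable_fr, ?_⟩
  rw [← mp_mk.map_eq, Measure.map_map measurable_fr mp_mk.measurable]
  have h1 : fr ∘ (fun x : ℝ => (x : T1)) =ᵐ[nuI] id := by
    filter_upwards [ae_nuI_Ico] with x hx
    exact fr_coe_of_mem hx
  rw [Measure.map_congr h1, Measure.map_id]

/-- Fourier coefficients on the interval and on the circle. -/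
lemma interval_fc (g : ℝ → ℂ) (n : ℤ) :
    ∫ x in (0 : ℝ)..1, Complex.exp (-(2 * (Real.pi : ℂ) * Complex.I * (n : ℂ) * (x : ℂ))) * g x =
      fc (fun y => g (fr y)) n := by
  have h1 : (fun y => g (fr y)) = AddCircle.liftIco 1 0 g := by
    funext x
    conv_rhs => rw [← coe_fr x]
    rw [AddCircle.liftIco_coe_apply ⟨fr_nonneg x, by rw [zero_add]; exact fr_lt_one x⟩]
  rw [fc_eq, h1, fourierCoeff_liftIco_eq, fourierCoeffOn_eq_integral]
  have h2 : ∀ x : ℝ, (fourier (-n) (x : AddCircle ((0 : ℝ) + 1 - 0)) : ℂ) • g x =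
      Complex.exp (-(2 * (Real.pi : ℂ) * Complex.I * (n : ℂ) * (x : ℂ))) * g x := by
    intro x
    rw [fourier_coe_apply, smul_eq_mul]
    congr 2
    push_cast
    ring
  simp_rw [h2]
  norm_num

/-! ### Sums of sawtooth functions -/

/-- Finite sums of sawtooth functions. -/
def IsB (G : T1 → ℂ) : Prop :=
  ∃ (D : Finset T1) (j : T1 → ℂ) (c : ℂ), ∀ x, G x = bsum c D (fun t _ => j t) x

lemma IsB.const (c : ℂ) : IsB (fun _ => c) :=
  ⟨∅, fun _ => 0, c, fun x => by simp [bsum]⟩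

lemma IsB.bb (t : T1) : IsB (fun x => (Mp.bb (x - t) : ℂ)) :=
  ⟨{t}, fun _ => 1, 0, fun x => by simp [bsum]⟩

lemma IsB.const_mul {G : T1 → ℂ} (h : IsB G) (a : ℂ) : IsB (fun x => a * G x) := by
  obtain ⟨D, j, c, h⟩ := h
  refine ⟨D, fun t => a * j t, a * c, fun x => ?_⟩
  simp only [h, bsum, mul_add, Finset.mul_sum, mul_assoc]

lemma IsB.add {G G' : T1 → ℂ} (h : IsB G) (h' : IsB G') : IsB (fun x => G x + G' x) := by
  classical
  obtain ⟨D, j, c, h⟩ := h
  obtain ⟨D', j', c', h'⟩ := h'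
  refine ⟨D ∪ D', fun t => (if t ∈ D then j t else 0) + (if t ∈ D' then j' t else 0), c + c',
    fun x => ?_⟩
  simp only [h, h', bsum, add_mul, Finset.sum_add_distrib]
  have h1 : ∑ t ∈ D ∪ D', (if t ∈ D then j t else 0) * (Mp.bb (x - t) : ℂ) =
      ∑ t ∈ D, j t * (Mp.bb (x - t) : ℂ) := by
    rw [← Finset.sum_subset (Finset.subset_union_left : D ⊆ D ∪ D')]
    · refine Finset.sum_congr rfl fun t ht => ?_
      rw [if_pos ht]
    · intro t _ ht
      rw [if_neg ht, zero_mul]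
  have h2 : ∑ t ∈ D ∪ D', (if t ∈ D' then j' t else 0) * (Mp.bb (x - t) : ℂ) =
      ∑ t ∈ D', j' t * (Mp.bb (x - t) : ℂ) := by
    rw [← Finset.sum_subset (Finset.subset_union_right : D' ⊆ D ∪ D')]
    · refine Finset.sum_congr rfl fun t ht => ?_
      rw [if_pos ht]
    · intro t _ ht
      rw [if_neg ht, zero_mul]
  rw [h1, h2]
  ring

lemma IsB.sum {ι : Type*} (s : Finset ι) {G : ι → T1 → ℂ} (h : ∀ i ∈ s, IsB (G i)) :
    IsB (fun x => ∑ i ∈ s, G i x) := by
  classical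
  induction s using Finset.induction_on with
  | empty => simpa using IsB.const 0
  | insert i s hi ih =>
    simp only [Finset.sum_insert hi]
    exact (h i (Finset.mem_insert_self i s)).add
      (ih fun j hj => h j (Finset.mem_insert_of_mem hj))

lemma bb_sub_real (y : T1) (a : ℝ) (ha0 : 0 ≤ a) (ha1 : a ≤ 1) (hne : fr y ≠ a) :
    bb (y - (a : T1)) = if a < fr y then 1 / 2 - (fr y - a) else 1 / 2 - (fr y - a + 1) := by
  have h0 := fr_nonneg y
  have h1 := fr_lt_one y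
  have h4 : y - (a : T1) = ((fr y - a : ℝ) : T1) := by
    rw [AddCircle.coe_sub, coe_fr]
  unfold bb
  rw [h4, fr_coe]
  split_ifs with h
  · rw [Int.fract_eq_self.mpr ⟨by linarith, by linarith⟩]
  · have h2 : fr y < a := lt_of_le_of_ne (not_lt.mp h) hne
    have h3 : Int.fract (fr y - a) = fr y - a + 1 := by
      rw [Int.fract_eq_iff]
      exact ⟨by linarith, by linarith, -1, by push_cast; ring⟩
    rw [h3]

lemma ind_eq (y : T1) (a b : ℝ) (ha0 : 0 ≤ a) (hab : a < b) (hb1 : b ≤ 1) (hna : fr y ≠ a)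
    (hnb : fr y ≠ b) :
    bb (y - (a : T1)) - bb (y - (b : T1)) + (b - a) = if a < fr y ∧ fr y < b then 1 else 0 := by
  rw [bb_sub_real y a ha0 (by linarith) hna, bb_sub_real y b (by linarith) hb1 hnb]
  by_cases h1 : a < fr y
  · by_cases h2 : b < fr y
    · have h3 : ¬ (a < fr y ∧ fr y < b) := fun h => absurd h.2 (not_lt.mpr h2.le)
      rw [if_pos h1, if_pos h2, if_neg h3]
      ring
    · have h3 : a < fr y ∧ fr y < b := ⟨h1, lt_of_le_of_ne (not_lt.mp h2) hnb⟩
      rw [if_pos h1, if_neg h2, if_pos h3]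
      ring
  · have h2 : ¬ b < fr y := fun h => h1 (hab.trans h)
    have h3 : ¬ (a < fr y ∧ fr y < b) := fun h => h1 h.1
    rw [if_neg h1, if_neg h2, if_neg h3]
    ring

/-- Step functions on the interval. -/
def SStep (g : ℝ → ℂ) : Prop := ∃ (m : ℕ) (t : Fin (m + 1) → ℝ) (c : Fin m → ℂ),
      StrictMono t ∧ t 0 = 0 ∧ t (Fin.last m) = 1 ∧
      ∀ i : Fin m, ∀ x ∈ Set.Ioo (t i.castSucc) (t i.succ), g x = c i

lemma bsum_of_sstep {g : ℝ → ℂ} (hg : SStep g) :
    ∃ (D : Finset T1) (j : T1 → ℂ) (c : ℂ),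
      ∀ᵐ y ∂μT, g (fr y) = bsum c D (fun t _ => j t) y := by
  classical
  obtain ⟨m, t, c, ht, ht0, ht1, hg⟩ := hg
  have hIsB : IsB (fun y => ∑ i : Fin m, c i * (((bb (y - (t i.castSucc : T1)) : ℂ) +
      (-1) * (bb (y - (t i.succ : T1)) : ℂ)) + ((t i.succ - t i.castSucc : ℝ) : ℂ))) := by
    apply IsB.sum
    intro i _
    exact (((IsB.bb _).add ((IsB.bb _).const_mul _)).add (IsB.const _)).const_mul _
  obtain ⟨D, j, c', hB⟩ := hIsB
  refine ⟨D, j, c', ?_⟩
  have h1 : ∀ᵐ x ∂nuI, x ∉ Set.range t := by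
    have h2 : (Set.range t).Finite := Set.finite_range t
    have h3 : nuI (Set.range t) = 0 := h2.measure_zero _
    exact measure_eq_zero_iff_ae_notMem.mp h3
  have h2 := mp_fr.quasiMeasurePreserving.ae h1
  filter_upwards [h2] with y hy
  rw [← hB y]
  set x := fr y with hx
  have hx0 : 0 ≤ x := fr_nonneg y
  have hx1 : x < 1 := fr_lt_one y
  have hne : ∀ k, x ≠ t k := fun k h => hy ⟨k, h.symm⟩
  have ht0' : ∀ k, 0 ≤ t k := fun k => by
    rw [← ht0]
    exact ht.monotone (Fin.zero_le k)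
  have ht1' : ∀ k, t k ≤ 1 := fun k => by
    rw [← ht1]
    exact ht.monotone (Fin.le_last k)
  -- the interval containing x
  obtain ⟨i, hi1, hi2⟩ : ∃ i : Fin m, t i.castSucc < x ∧ x < t i.succ := by
    obtain ⟨k, hk, hmax⟩ := (Finset.univ.filter (fun k : Fin (m + 1) => t k ≤ x)).exists_max_image
      id ⟨0, by rw [Finset.mem_filter]; exact ⟨Finset.mem_univ _, by rw [ht0]; exact hx0⟩⟩
    rw [Finset.mem_filter] at hk
    have hkl : k ≠ Fin.last m := by
      rintro rfl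
      rw [ht1] at hk
      linarith [hk.2]
    obtain ⟨i, rfl⟩ := Fin.exists_castSucc_eq.mpr hkl
    refine ⟨i, lt_of_le_of_ne hk.2 (fun h => hne _ h.symm), not_le.mp fun h => ?_⟩
    have h5 := hmax i.succ (by rw [Finset.mem_filter]; exact ⟨Finset.mem_univ _, h⟩)
    simp only [id] at h5
    exact absurd (Fin.castSucc_lt_succ (i := i)) (not_lt.mpr h5)
  rw [hg i x ⟨hi1, hi2⟩]
  have hterm : ∀ i' : Fin m, c i' * (((bb (y - (t i'.castSucc : T1)) : ℂ) +
      (-1) * (bb (y - (t i'.succ : T1)) : ℂ)) + ((t i'.succ - t i'.castSucc : ℝ) : ℂ)) =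
      if i' = i then c i else 0 := by
    intro i'
    have h6 := ind_eq y (t i'.castSucc) (t i'.succ) (ht0' _) (ht Fin.castSucc_lt_succ) (ht1' _)
      (hne _) (hne _)
    have h7 : ((bb (y - (t i'.castSucc : T1)) : ℂ) +
      (-1) * (bb (y - (t i'.succ : T1)) : ℂ)) + ((t i'.succ - t i'.castSucc : ℝ) : ℂ) =
      ((bb (y - (t i'.castSucc : T1)) - bb (y - (t i'.succ : T1)) +
        (t i'.succ - t i'.castSucc) : ℝ) : ℂ) := by
      push_cast
      ring
    rw [h7, h6]
    by_cases hii : i' = i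
    · subst hii
      rw [if_pos rfl, if_pos ⟨hi1, hi2⟩]
      simp
    · rw [if_neg hii]
      have h8 : ¬ (t i'.castSucc < fr y ∧ fr y < t i'.succ) := by
        rintro ⟨h9, h10⟩
        rcases lt_or_gt_of_ne hii with h11 | h11
        · have h12 : t i'.succ ≤ t i.castSucc :=
            ht.monotone (Fin.succ_le_castSucc_iff.mpr h11)
          linarith
        · have h12 : t i.succ ≤ t i'.castSucc :=
            ht.monotone (Fin.succ_le_castSucc_iff.mpr h11)
          linarith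
      rw [if_neg h8]
      simp
  simp only
  rw [Finset.sum_congr rfl fun i' _ => hterm i']
  simp

lemma sstep_of_isStep {s : T1 → ℂ} (hs : IsStep s) : SStep (fun x : ℝ => s (x : T1)) := by
  classical
  obtain ⟨_, P, hP, hloc⟩ := hs
  set Q : Finset ℝ := (hP.toFinset.image fr) ∪ {0, 1} with hQ
  have h0Q : (0 : ℝ) ∈ Q := by simp [hQ]
  have h1Q : (1 : ℝ) ∈ Q := by simp [hQ]
  have hQ01 : ∀ x ∈ Q, 0 ≤ x ∧ x ≤ 1 := by
    intro x hx
    rw [hQ, Finset.mem_union, Finset.mem_image] at hx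
    rcases hx with ⟨y, _, rfl⟩ | hx
    · exact ⟨fr_nonneg y, (fr_lt_one y).le⟩
    · rw [Finset.mem_insert, Finset.mem_singleton] at hx
      rcases hx with rfl | rfl <;> norm_num
  have hcard : 0 < Q.card := Finset.card_pos.mpr ⟨0, h0Q⟩
  obtain ⟨m, hm⟩ : ∃ m, Q.card = m + 1 := ⟨Q.card - 1, by omega⟩
  set t := Q.orderEmbOfFin hm with ht
  have htm : StrictMono t := t.strictMono
  have hrange : Set.range t = (Q : Set ℝ) := Finset.range_orderEmbOfFin Q hm
  have hne : Q.Nonempty := ⟨0, h0Q⟩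
  refine ⟨m, t, fun i => s (((t i.castSucc + t i.succ) / 2 : ℝ) : T1), htm, ?_, ?_, ?_⟩
  · have h1 : (0 : ℝ) ∈ Set.range t := by rw [hrange]; exact h0Q
    obtain ⟨k, hk⟩ := h1
    have h2 : t 0 ≤ t k := htm.monotone (Fin.zero_le k)
    have h3 := (hQ01 (t 0) (Finset.orderEmbOfFin_mem Q hm 0)).1
    linarith
  · have h1 : (1 : ℝ) ∈ Set.range t := by rw [hrange]; exact h1Q
    obtain ⟨k, hk⟩ := h1
    have h2 : t k ≤ t (Fin.last m) := htm.monotone (Fin.le_last k)
    have h3 := (hQ01 (t (Fin.last m)) (Finset.orderEmbOfFin_mem Q hm _)).2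
    linarith
  · intro i x hx
    have hlt : t i.castSucc < t i.succ := htm Fin.castSucc_lt_succ
    have hnot : ∀ z ∈ Set.Ioo (t i.castSucc) (t i.succ), (z : T1) ∉ P := by
      intro z hz hzP
      have hz0 : 0 ≤ z := (hQ01 _ (Finset.orderEmbOfFin_mem Q hm i.castSucc)).1.trans hz.1.le
      have hz1 : z < 1 := lt_of_lt_of_le hz.2 (hQ01 _ (Finset.orderEmbOfFin_mem Q hm i.succ)).2
      have h4 : z ∈ Set.range t := by
        rw [hrange, Finset.mem_coe, hQ, Finset.mem_union, Finset.mem_image]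
        left
        exact ⟨(z : T1), hP.mem_toFinset.mpr hzP, fr_coe_of_mem ⟨hz0, hz1⟩⟩
      obtain ⟨k, rfl⟩ := h4
      have h5 := htm.lt_iff_lt.mp hz.1
      have h6 := htm.lt_iff_lt.mp hz.2
      exact absurd (Fin.castSucc_lt_iff_succ_le.mp h5) (not_le.mpr h6)
    have hder : ∀ z ∈ Set.Ioo (t i.castSucc) (t i.succ),
        HasDerivAt (fun x : ℝ => s (x : T1)) 0 z := by
      intro z hz
      have h7 := hloc (z : T1) (hnot z hz)
      have h8 : ∀ᶠ y : ℝ in 𝓝 z, s (y : T1) = s (z : T1) := by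
        have hc : Tendsto (fun y : ℝ => (y : T1)) (𝓝 z) (𝓝 (z : T1)) :=
          (AddCircle.continuous_mk' (1 : ℝ)).tendsto z
        exact hc.eventually h7
      exact (hasDerivAt_const z (s (z : T1))).congr_of_eventuallyEq h8
    exact isOpen_Ioo.is_const_of_deriv_eq_zero (𝕜 := ℝ) isPreconnected_Ioo
      (f := fun x : ℝ => s (x : T1))
      (fun z hz => (hder z hz).differentiableAt.differentiableWithinAt)
      (fun z hz => (hder z hz).deriv) hx ⟨by linarith, by linarith⟩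

/-! ### Multiplier bounds -/

lemma tsum_bound_of_mult (hpq : p.HolderConjugate q) {K : ℤ → ℂ} {C : ℝ} (h : Mult p q K C)
    (a : ℤ →₀ ℂ) :
    ∑' n : ℤ, ENNReal.ofReal ‖∑ k ∈ a.support, K (n - k) * a k‖ ^ p
      ≤ ENNReal.ofReal ((strongC p q C) ^ (1 / p)) ^ p *
        ∑ k ∈ a.support, ENNReal.ofReal ‖a k‖ ^ p := by
  have hp := hpq.pos
  have hC := h.nonneg hpq
  have hS := strongC_nonneg hpq hC
  have h1 : ∀ (b : ℤ → ℂ) (T : Finset ℤ), ∑ n ∈ T, ENNReal.ofReal ‖b n‖ ^ p =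
      ENNReal.ofReal (∑ n ∈ T, ‖b n‖ ^ p) := by
    intro b T
    rw [ENNReal.ofReal_sum_of_nonneg fun n _ => by positivity]
    refine Finset.sum_congr rfl fun n _ => ?_
    rw [ENNReal.ofReal_rpow_of_nonneg (norm_nonneg _) hp.le]
  have h2 : ENNReal.ofReal ((strongC p q C) ^ (1 / p)) ^ p = ENNReal.ofReal (strongC p q C) := by
    rw [ENNReal.ofReal_rpow_of_nonneg (Real.rpow_nonneg hS _) hp.le, ← Real.rpow_mul hS,
      one_div_mul_cancel hp.ne', Real.rpow_one]
  rw [h1 a, h2, ← ENNReal.ofReal_mul hS, ENNReal.tsum_eq_iSup_sum]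
  apply iSup_le
  intro T
  rw [h1 (fun n => ∑ k ∈ a.support, K (n - k) * a k) T]
  exact ENNReal.ofReal_le_ofReal (h.strong hpq a.support T a)

lemma mult_of_tsum_bound (hpq : p.HolderConjugate q) {K : ℤ → ℂ} {C : ℝ}
    (h : ∀ a : ℤ →₀ ℂ, ∑' n : ℤ, ENNReal.ofReal ‖∑ k ∈ a.support, K (n - k) * a k‖ ^ p
      ≤ ENNReal.ofReal C ^ p * ∑ k ∈ a.support, ENNReal.ofReal ‖a k‖ ^ p) :
    ∃ A : ℝ, Mult p q K A := by
  classical
  have hp := hpq.pos
  refine ⟨max ((max C 0) ^ p) 1, Mult.of_strong hpq (by positivity) fun S T a => ?_⟩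
  have h1 : ∀ (b : ℤ → ℂ) (T : Finset ℤ), ∑ n ∈ T, ENNReal.ofReal ‖b n‖ ^ p =
      ENNReal.ofReal (∑ n ∈ T, ‖b n‖ ^ p) := by
    intro b T
    rw [ENNReal.ofReal_sum_of_nonneg fun n _ => by positivity]
    refine Finset.sum_congr rfl fun n _ => ?_
    rw [ENNReal.ofReal_rpow_of_nonneg (norm_nonneg _) hp.le]
  set a' : ℤ →₀ ℂ := Finsupp.onFinset S (fun y => if y ∈ S then a y else 0)
    (fun y hy => by
      by_contra hyS
      rw [if_neg hyS] at hy
      exact hy rfl) with ha'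
  have ha'v : ∀ y ∈ S, a' y = a y := by
    intro y hy
    simp [ha', hy]
  have hsupp : a'.support ⊆ S := Finsupp.support_onFinset_subset
  have hsum1 : ∀ n, ∑ k ∈ a'.support, K (n - k) * a' k = ∑ y ∈ S, K (n - y) * a y := by
    intro n
    rw [Finset.sum_subset hsupp]
    · refine Finset.sum_congr rfl fun y hy => ?_
      rw [ha'v y hy]
    · intro y _ hy
      rw [Finsupp.notMem_support_iff.mp hy, mul_zero]
  have hsum2 : ∑ k ∈ a'.support, ‖a' k‖ ^ p = ∑ y ∈ S, ‖a y‖ ^ p := by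
    rw [Finset.sum_subset hsupp]
    · refine Finset.sum_congr rfl fun y hy => ?_
      rw [ha'v y hy]
    · intro y _ hy
      rw [Finsupp.notMem_support_iff.mp hy, norm_zero, Real.zero_rpow hp.ne']
  have h2 := h a'
  simp_rw [hsum1] at h2
  rw [h1 a', hsum2] at h2
  have h3 : ENNReal.ofReal C = ENNReal.ofReal (max C 0) := by
    rcases le_total C 0 with hC | hC
    · rw [max_eq_right hC, ENNReal.ofReal_of_nonpos hC, ENNReal.ofReal_zero]
    · rw [max_eq_left hC]
  rw [h3, ENNReal.ofReal_rpow_of_nonneg (le_max_right _ _) hp.le,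
    ← ENNReal.ofReal_mul (by positivity)] at h2
  have h4 := (ENNReal.sum_le_tsum T).trans h2
  rw [h1 (fun n => ∑ y ∈ S, K (n - y) * a y) T] at h4
  exact (ENNReal.ofReal_le_ofReal_iff (by positivity)).mp h4

/-- Integrability of uniform limits. -/
lemma integrable_of_happ {f : T1 → ℂ}
    (happ : ∀ ε : ℝ, 0 < ε → ∃ (D : Finset T1) (j : T1 → ℂ) (c : ℂ),
      ∀ᵐ x ∂μT, ‖f x - bsum c D (fun t _ => j t) x‖ ≤ ε) : Integrable f μT := by
  have hbi : ∀ (D : Finset T1) (j : T1 → ℂ) (c : ℂ), Integrable (bsum c D (fun t _ => j t)) μT := by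
    intro D j c
    unfold bsum
    exact (integrable_const c).add (integrable_finsetSum _ fun t _ =>
      (integrable_bb_shift t).const_mul _)
  choose D j c h using fun n : ℕ => happ (1 / ((n : ℝ) + 1)) (by positivity)
  have hm : AEStronglyMeasurable f μT := by
    apply aestronglyMeasurable_of_tendsto_ae atTop
      (f := fun n => bsum (c n) (D n) (fun t _ => j n t)) (fun n => (hbi _ _ _).1)
    filter_upwards [ae_all_iff.mpr h] with x hx
    rw [tendsto_iff_norm_sub_tendsto_zero]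
    refine squeeze_zero (fun n => norm_nonneg _) (fun n => ?_) tendsto_one_div_add_atTop_nhds_zero_nat
    rw [norm_sub_rev]
    exact hx n
  have h1 : Integrable (fun x => f x - bsum (c 0) (D 0) (fun t _ => j 0 t) x) μT :=
    integrable_of_bounded (hm.sub (hbi _ _ _).1) _ (h 0)
  have h2 := h1.add (hbi (D 0) (j 0) (c 0))
  refine h2.congr (Eventually.of_forall fun x => ?_)
  simp only [Pi.add_apply]
  ring

end Pool.Agent.Helper57.Mp
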