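import Mathlib
import Pool.Agent.Helper57.Mp.Conv

set_option autoImplicit false
open Filter Topology MeasureTheory
open scoped ENNReal

namespace Pool.Agent.Helper57.Mp

/-- For every p in (1,∞), p≠2, every uniform limit of step functions on the circle that is an ℓ^p Fourier-coefficient multiplier is the uniform limit of step functions whose ℓ^p multiplier norms are uniformly bounded. -/
theorem frozen_result :
  ∀ (cf : (ℝ → ℂ) → ℤ → ℂ),
    (∀ (g : ℝ → ℂ) (n : ℤ), cf g n =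
      ∫ x in (0:ℝ)..1, Complex.exp (-(2 * (Real.pi : ℂ) * Complex.I * (n : ℂ) * (x : ℂ))) * g x) →
  ∀ (Step : (ℝ → ℂ) → Prop),
    (∀ g : ℝ → ℂ, Step g ↔ ∃ (m : ℕ) (t : Fin (m + 1) → ℝ) (c : Fin m → ℂ),
      StrictMono t ∧ t 0 = 0 ∧ t (Fin.last m) = 1 ∧
      ∀ i : Fin m, ∀ x ∈ Set.Ioo (t i.castSucc) (t i.succ), g x = c i) →
  ∀ (p : ℝ), 1 < p → p ≠ 2 →
  ∀ (Mb : (ℝ → ℂ) → ℝ → Prop),
    (∀ (g : ℝ → ℂ) (C : ℝ), Mb g C ↔ ∀ a : ℤ →₀ ℂ,
      ∑' n : ℤ, ENNReal.ofReal ‖∑ k ∈ a.support, cf g (n - k) * a k‖ ^ p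
        ≤ ENNReal.ofReal C ^ p * ∑ k ∈ a.support, ENNReal.ofReal ‖a k‖ ^ p) →
  ∀ f : ℝ → ℂ,
    (∀ ε : ℝ≥0∞, 0 < ε → ∃ g : ℝ → ℂ, Step g ∧
      eLpNorm (fun x => f x - g x) ⊤ (volume.restrict (Set.Icc (0:ℝ) 1)) < ε) →
    (∃ C : ℝ, Mb f C) →
    ∃ g : ℕ → ℝ → ℂ, (∀ j, Step (g j)) ∧ (∃ C : ℝ, ∀ j, Mb (g j) C) ∧
      Tendsto (fun j => eLpNorm (fun x => g j x - f x) ⊤ (volume.restrict (Set.Icc (0:ℝ) 1)))
        atTop (𝓝 0) := by
  intro cf hcf Step hStep p hp1 _ Mb hMb f happ hmb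
  obtain ⟨C, hC⟩ := hmb
  have hpq : p.HolderConjugate (p / (p - 1)) := Real.HolderConjugate.conjExponent hp1
  have hcf' : ∀ (g : ℝ → ℂ) (n : ℤ), cf g n = fc (fun y => g (fr y)) n := by
    intro g n
    rw [hcf, interval_fc]
  -- approximation on the circle
  have happ' : ∀ ε : ℝ, 0 < ε → ∃ (D : Finset T1) (j : T1 → ℂ) (c : ℂ),
      ∀ᵐ y ∂μT, ‖f (fr y) - bsum c D (fun t _ => j t) y‖ ≤ ε := by
    intro ε hε
    obtain ⟨g, hg, hfg⟩ := happ (ENNReal.ofReal ε) (ENNReal.ofReal_pos.mpr hε)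
    obtain ⟨D, j, c, hD⟩ := bsum_of_sstep ((hStep g).mp hg)
    refine ⟨D, j, c, ?_⟩
    have h1 : ∀ᵐ x ∂nuI, ‖f x - g x‖ ≤ ε := by
      rw [eLpNorm_exponent_top] at hfg
      have h2 := ae_le_eLpNormEssSup (f := fun x => f x - g x) (μ := nuI)
      filter_upwards [h2] with x hx
      have h3 := hx.trans hfg.le
      rw [← ofReal_norm] at h3
      exact (ENNReal.ofReal_le_ofReal_iff hε.le).mp h3
    have h2 := mp_fr.quasiMeasurePreserving.ae h1
    filter_upwards [h2, hD] with y hy hy'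
    rw [← hy']
    exact hy
  have hFi : Integrable (fun y => f (fr y)) μT := integrable_of_happ happ'
  obtain ⟨A, hA⟩ : ∃ A : ℝ, Mult p (p / (p - 1)) (fc (fun y => f (fr y))) A := by
    apply mult_of_tsum_bound hpq
    intro a
    have h1 := (hMb f C).mp hC a
    simp_rw [hcf'] at h1
    exact h1
  obtain ⟨C', _, h⟩ := circle_main hpq hFi hA happ'
  choose s hs1 hs2 hs3 using fun n : ℕ => h (1 / ((n : ℝ) + 1)) (by positivity)
  refine ⟨fun n x => s n (x : T1), fun n => (hStep _).mpr (sstep_of_isStep (hs1 n)),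
    ⟨(strongC p (p / (p - 1)) C') ^ (1 / p), fun n => ?_⟩, ?_⟩
  · rw [hMb]
    intro a
    have h1 : ∀ k, cf (fun x : ℝ => s n (x : T1)) k = fc (s n) k := by
      intro k
      rw [hcf']
      simp only [coe_fr]
    simp_rw [h1]
    exact tsum_bound_of_mult hpq (hs3 n) a
  · have h1 : ∀ n : ℕ, eLpNorm (fun x : ℝ => s n (x : T1) - f x) ⊤
        (volume.restrict (Set.Icc (0:ℝ) 1)) ≤ ENNReal.ofReal (1 / ((n : ℝ) + 1)) := by
      intro n
      rw [eLpNorm_exponent_top]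
      apply eLpNormEssSup_le_of_ae_bound
      have h2 := mp_mk.quasiMeasurePreserving.ae (hs2 n)
      filter_upwards [h2, ae_nuI_Ico] with x hx hx'
      rw [fr_coe_of_mem hx'] at hx
      rw [norm_sub_rev]
      exact hx
    have h2 : Tendsto (fun n : ℕ => ENNReal.ofReal (1 / ((n : ℝ) + 1))) atTop (𝓝 0) := by
      rw [← ENNReal.ofReal_zero]
      exact ENNReal.tendsto_ofReal tendsto_one_div_add_atTop_nhds_zero_nat
    exact tendsto_of_tendsto_of_tendsto_of_le_of_le tendsto_const_nhds h2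
      (fun n => zero_le) h1

end Pool.Agent.Helper57.Mp
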