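import Mathlib
import Pool.Agent.Helper57.Mp.Main

/-!
The theorem on the circle with a constant depending only on the exponent and on the norm.
-/

namespace Pool.Agent.Helper57.Mp

open Finset Filter Topology MeasureTheory

variable {p q : ℝ}

/-- **Main theorem on the circle, uniform version.** -/
theorem circle_uniform (hpq : p.HolderConjugate q) (A : ℝ) (hA0 : 0 ≤ A) :
    ∃ C : ℝ, 0 ≤ C ∧ ∀ f : T1 → ℂ, Integrable f μT → Mult p q (fc f) A →
    (∀ ε : ℝ, 0 < ε → ∃ (D : Finset T1) (j : T1 → ℂ) (c : ℂ),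
      ∀ᵐ x ∂μT, ‖f x - bsum c D (fun t _ => j t) x‖ ≤ ε) →
    ∀ ε : ℝ, 0 < ε → ∃ s : T1 → ℂ, IsStep s ∧ (∀ᵐ x ∂μT, ‖f x - s x‖ ≤ ε) ∧
      Mult p q (fc s) C := by
  classical
  obtain ⟨C₁, hC₁⟩ := mult_Kb hpq
  have hC₁0 := hC₁.nonneg hpq
  set CH : ℝ := C₁ * max (2 ^ p) (2 ^ q) with hCH
  have hCH0 : 0 ≤ CH := by positivity
  set C₃ : ℝ := CH * max (strongC p q (A + A)) 1 with hC₃
  have hC₃0 : 0 ≤ C₃ := mul_nonneg hCH0 (le_trans zero_le_one (le_max_right _ _))
  refine ⟨A + C₃ + C₃ + 1, by positivity, fun f hf hA happ ε hε => ?_⟩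
  -- parameters
  set e : ℝ := min (ε / 10) 1 with he
  have he0 : 0 < e := by positivity
  have he1 : e ≤ 1 := min_le_right _ _
  have he2 : 10 * e ≤ ε := by
    have := min_le_left (ε / 10) 1
    rw [← he] at this
    linarith
  obtain ⟨D, j, c, hg⟩ := happ e he0
  set J : ℝ := ∑ t ∈ D, ‖j t‖ with hJ
  have hJ0 : 0 ≤ J := Finset.sum_nonneg fun t _ => norm_nonneg _
  set ε₁ : ℝ := min (e / (2 * (J + 1))) (1 / 2) with hε₁
  have hε₁0 : 0 < ε₁ := by positivity
  have hε₁1 : ε₁ < 1 := lt_of_le_of_lt (min_le_right _ _) (by norm_num)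
  have hε₁J : ε₁ * (2 * (J + 1)) ≤ e := by
    have := min_le_left (e / (2 * (J + 1))) (1 / 2)
    rw [← hε₁] at this
    exact (le_div_iff₀ (by positivity)).mp this
  obtain ⟨k, hDk, hck⟩ := exists_posKer D hε₁0 hε₁1
  set j' : T1 → ℂ := fun t => if t ∈ D then j t else 0 with hj'
  have hgE : ∀ x, bsum c D (fun t _ => j t) x = bsum c k.D (fun t _ => j' t) x := by
    intro x
    unfold bsum
    congr 1
    rw [← Finset.sum_subset hDk]
    · refine Finset.sum_congr rfl fun t ht => ?_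
      simp only [hj', if_pos ht]
    · intro t _ ht
      simp only [hj', if_neg ht, zero_mul]
  have hg' : ∀ᵐ x ∂μT, ‖f x - bsum c k.D (fun t _ => j' t) x‖ ≤ e := by
    filter_upwards [hg] with x hx
    rw [← hgE]
    exact hx
  have hj'small : ∀ t ∈ k.D, ‖j' t‖ * (1 - k.c t ^ 2) ≤ e := by
    intro t _
    by_cases ht : t ∈ D
    · simp only [hj', if_pos ht]
      have h1 := hck t ht
      have h2 := k.c_le_one t
      have h3 := k.c_nonneg t
      have h4 : 1 - k.c t ^ 2 ≤ 2 * ε₁ := by nlinarith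
      have h5 : ‖j t‖ ≤ J := Finset.single_le_sum (f := fun t => ‖j t‖)
        (fun t _ => norm_nonneg _) ht
      have h6 : 0 ≤ 1 - k.c t ^ 2 := by nlinarith
      calc ‖j t‖ * (1 - k.c t ^ 2) ≤ (J + 1) * (2 * ε₁) :=
            mul_le_mul (by linarith) h4 h6 (by positivity)
        _ ≤ e := by linarith
    · simp only [hj', if_neg ht, norm_zero, zero_mul]
      exact he0.le
  -- the trigonometric polynomial with prescribed values
  obtain ⟨η, N, hN0, hjump⟩ := jump_estimate hf c k.D j' he0 hg'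
  set m : T1 → ℂ := fun x => fej N f (x + (η : T1)) - fej N f (x + ((-η : ℝ) : T1)) with hm
  have hmTP : TP m := ((TP.fej f N hN0).translate _).sub ((TP.fej f N hN0).translate _)
  have hmLp : Lp m := ((Lp.fej f N).translate _).sub ((Lp.fej f N).translate _)
  have hmt : ∀ t ∈ k.D, ‖m t - j' t‖ ≤ 3 * e := hjump
  have hmM : Mult p q (fc m) (A + A) := by
    have h1 := mult_fej hpq hA N hN0
    have h2 := h1.modulate (u := ee 1 (η : T1)) (norm_ee _ _)
    have h3 := h1.modulate (u := ee 1 ((-η : ℝ) : T1)) (norm_ee _ _)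
    have h4 : ∀ (τ : T1) (n : ℤ), fc (fun x => fej N f (x + τ)) n =
        ee 1 τ ^ n * fc (fej N f) n := by
      intro τ n
      have h5 : (fun x => fej N f (x + τ)) = fun x => fej N f (x - (-τ)) := by
        funext x
        rw [sub_neg_eq_add]
      rw [h5, fc_translate, ee_neg_right, neg_neg, ee_zpow]
    have hfi : ∀ τ : T1, Integrable (fun x => fej N f (x + τ)) μT := fun τ =>
      (integrable_fej f N).comp_add_right τ
    refine (h2.sub h3).congr fun n => ?_
    rw [hm, fc_sub (hfi _) (hfi _), h4, h4]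
  -- the kernel
  obtain ⟨L, hL0, hL⟩ := k.avg_bound
  have hHM : Mult p q (fc (HH k L)) CH :=
    (hC₁.transfer hpq k hL0 hL).congr fun n => (fc_HH k L n).symm
  obtain ⟨hmHi, hmHM, hmHA⟩ := prod_facts hpq hmTP k L hmM hHM
  set mH : T1 → ℂ := fun x => m x * HH k L x with hmH
  set G : T1 → ℂ := fun x => f x - mH x with hG
  have hGi : Integrable G μT := hf.sub hmHi
  -- the difference
  set Δ : T1 → T1 → ℂ := fun t x => j' t - ((k.c t ^ 2 : ℝ) : ℂ) * (m x * ww L (x - t)) with hΔ
  have hΔLp : ∀ t ∈ k.D, Lp (Δ t) := by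
    intro t _
    refine (Lp.const _).sub ((Lp.const _).mul (hmLp.mul ?_))
    have := (Lp.ww L).translate (-t)
    simpa [sub_eq_add_neg] using this
  have hΔt : ∀ t ∈ k.D, ‖Δ t t‖ ≤ 4 * e := by
    intro t ht
    have h1 : Δ t t = j' t * ((1 - k.c t ^ 2 : ℝ) : ℂ) -
        ((k.c t ^ 2 : ℝ) : ℂ) * (m t - j' t) := by
      simp only [hΔ, sub_self, ww_zero L hL0]
      push_cast
      ring
    have h2 := k.c_le_one t
    have h3 := k.c_nonneg t
    have h6 : 0 ≤ 1 - k.c t ^ 2 := by nlinarith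
    rw [h1]
    refine (norm_sub_le _ _).trans ?_
    rw [norm_mul, norm_mul, Complex.norm_real, Complex.norm_real, Real.norm_of_nonneg h6,
      Real.norm_of_nonneg (sq_nonneg _)]
    have h7 := hj'small t ht
    have h8 : k.c t ^ 2 * ‖m t - j' t‖ ≤ 1 * (3 * e) :=
      mul_le_mul (by nlinarith) (hmt t ht) (norm_nonneg _) (by norm_num)
    linarith
  set V : T1 → ℂ := bsum c k.D Δ with hV
  have hVeq : ∀ x, V x = bsum c k.D (fun t _ => j' t) x - mH x := by
    intro x
    simp only [hV, hmH, bsum, hΔ, HH]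
    rw [Finset.mul_sum, add_sub_assoc, ← Finset.sum_sub_distrib]
    congr 1
    refine Finset.sum_congr rfl fun t _ => ?_
    ring
  obtain ⟨δ, hδ0, hosc⟩ := osc c k.D Δ hΔLp (4 * e) (5 * e) (by positivity) hΔt (by linarith)
  obtain ⟨MV, hMV0, hMV⟩ := norm_bsum_le c k.D Δ hΔLp
  obtain ⟨B, hB0, hB⟩ := fej_estimate δ hδ0
  obtain ⟨N', hN'⟩ := exists_nat_gt ((e + 2 * MV) * B / e)
  have hN'0 : 0 < N' := by
    have h1 : 0 ≤ (e + 2 * MV) * B / e := by positivity
    have h2 : (0 : ℝ) < N' := lt_of_le_of_lt h1 hN'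
    exact_mod_cast h2
  have hN'r : (0 : ℝ) < N' := by exact_mod_cast hN'0
  have hMN' : (e + 2 * MV) * B / N' ≤ e := by
    rw [div_lt_iff₀ he0] at hN'
    rw [div_le_iff₀ hN'r]
    linarith
  have hGV : ∀ x, ‖fej N' G x - V x‖ ≤ 7 * e := by
    intro x
    have h1 := hB N' hN'0 G hGi x (V x) (6 * e) (e + 2 * MV) (by positivity) (by positivity)
      ?_ ?_
    · linarith
    · filter_upwards [ae_sub_left hg' x] with σ hσ hσ2
      obtain ⟨ρ, hρ, hρ'⟩ := exists_real_rep σ
      rw [← hρ'] at hσ2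
      have h2 := hosc x ρ hσ2
      rw [hρ] at h2
      have h3 : G (x - σ) - V x = (f (x - σ) - bsum c k.D (fun t _ => j' t) (x - σ)) +
          (V (x - σ) - V x) := by
        rw [hVeq (x - σ)]
        simp only [hG]
        ring
      rw [h3]
      refine (norm_add_le _ _).trans ?_
      linarith
    · filter_upwards [ae_sub_left hg' x] with σ hσ
      have h3 : G (x - σ) - V x = (f (x - σ) - bsum c k.D (fun t _ => j' t) (x - σ)) +
          V (x - σ) - V x := by
        rw [hVeq (x - σ)]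
        simp only [hG]
        ring
      rw [h3]
      refine (norm_sub_le _ _).trans ?_
      have h4 := norm_add_le (f (x - σ) - bsum c k.D (fun t _ => j' t) (x - σ)) (V (x - σ))
      have h5 := hMV x
      have h6 := hMV (x - σ)
      linarith
  -- the approximant
  have hgi : Integrable (fun x => fej N' G x + mH x) μT := (integrable_fej G N').add hmHi
  have hgA : Appr p q (fun x => fej N' G x + mH x) := (appr_fej hpq G N').add hmHA
  have hGM : Mult p q (fc G) (A + C₃) := (hA.sub hmHM).congr fun n => (fc_sub hf hmHi n).symm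
  have hgM : Mult p q (fc (fun x => fej N' G x + mH x)) (A + C₃ + C₃) :=
    ((mult_fej hpq hGM N' hN'0).add hmHM).congr fun n => (fc_add (integrable_fej G N') hmHi n).symm
  obtain ⟨s, hs, hs1, hs2⟩ := hgA.2 e he0
  refine ⟨s, hs, ?_, ?_⟩
  · filter_upwards [hg'] with x hx
    have h1 := hGV x
    have h2 := hs1 x
    have h3 : f x - s x = (f x - bsum c k.D (fun t _ => j' t) x) -
        (fej N' G x - V x) + (fej N' G x + mH x - s x) := by
      rw [hVeq x]
      ring
    rw [h3]
    refine (norm_add_le _ _).trans ?_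
    have h4 := norm_sub_le (f x - bsum c k.D (fun t _ => j' t) x) (fej N' G x - V x)
    linarith
  · have h1 := hgM.sub hs2
    have h2 : A + C₃ + C₃ + e ≤ A + C₃ + C₃ + 1 := by linarith
    refine (h1.mono hpq h2).congr fun n => ?_
    ring

end Pool.Agent.Helper57.Mp
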