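import Mathlib
import Pool.Agent.Helper57.Mp.Conv
import Pool.Agent.Helper57.Mp.Uniform

/-!
Multiplication operators on `ℓ^p(ℤ)` and the bilinear bounds.
-/

namespace Pool.Agent.Helper57.Mp

open Finset Filter Topology MeasureTheory
open scoped ENNReal NNReal

/-- `ℓ^P(ℤ)`. -/
abbrev El (P : ℝ≥0∞) : Type := lp (fun _ : ℤ => ℂ) P

variable {P : ℝ≥0∞} [Fact (1 ≤ P)] {q : ℝ}

/-- The operator `T` of `ℓ^P(ℤ)` is the convolution by `K`. -/
def IsConv (K : ℤ → ℂ) (T : El P →L[ℂ] El P) : Prop :=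
  ∀ k n : ℤ, T (lp.single P k (1 : ℂ)) n = K (n - k)

omit [Fact (1 ≤ P)] in
lemma smul_single (k : ℤ) (z : ℂ) :
    z • (lp.single P k (1 : ℂ) : El P) = lp.single P k z := by
  have h := lp.single_smul (E := fun _ : ℤ => ℂ) P k z (1 : ℂ)
  rw [← h]
  congr 1
  simp

lemma IsConv.sum {K : ℤ → ℂ} {T : El P →L[ℂ] El P} (h : IsConv K T) (S : Finset ℤ) (a : ℤ → ℂ)
    (n : ℤ) : T (∑ k ∈ S, lp.single P k (a k)) n = ∑ k ∈ S, K (n - k) * a k := by
  rw [map_sum, lp.coeFn_sum, Finset.sum_apply]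
  refine Finset.sum_congr rfl fun k _ => ?_
  rw [← smul_single, map_smul, lp.coeFn_smul, Pi.smul_apply, h k n, smul_eq_mul, mul_comm]

/-- From an operator to a bilinear bound. -/
lemma mult_of_op (hpq : P.toReal.HolderConjugate q) {K : ℤ → ℂ} {T : El P →L[ℂ] El P}
    (h : IsConv K T) : Mult P.toReal q K ‖T‖ := by
  have hp := hpq.pos
  have hq := hpq.symm.pos
  intro S U a b
  set A : El P := ∑ k ∈ S, lp.single P k (a k) with hA
  have hAn : ‖A‖ ^ P.toReal = ∑ k ∈ S, ‖a k‖ ^ P.toReal :=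
    lp.norm_sum_single (E := fun _ : ℤ => ℂ) hp a S
  have h1 : Bil K S U a b = ∑ x ∈ U, T A x * b x := by
    unfold Bil
    refine Finset.sum_congr rfl fun x _ => ?_
    rw [h.sum S a x, Finset.sum_mul]
  have h2 : ∑ x ∈ U, ‖T A x‖ ^ P.toReal ≤ ‖T‖ ^ P.toReal * ∑ k ∈ S, ‖a k‖ ^ P.toReal := by
    refine (lp.sum_rpow_le_norm_rpow hp (T A) U).trans ?_
    rw [← hAn, ← Real.mul_rpow (norm_nonneg _) (norm_nonneg _)]
    exact Real.rpow_le_rpow (norm_nonneg _) (T.le_opNorm A) hp.le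
  rw [h1]
  rcases eq_or_lt_of_le (norm_nonneg T) with h0 | h0
  · have hT : T = 0 := norm_eq_zero.mp h0.symm
    rw [← h0, zero_mul, hT]
    simp
  · calc ‖∑ x ∈ U, T A x * b x‖ ≤ ∑ x ∈ U, ‖T A x‖ * ‖b x‖ := by
          refine (norm_sum_le _ _).trans (Finset.sum_le_sum fun x _ => ?_)
          rw [norm_mul]
      _ ≤ ∑ x ∈ U, ‖T‖ * ((‖T A x‖ ^ P.toReal / ‖T‖ ^ P.toReal) / P.toReal + ‖b x‖ ^ q / q) := by
          refine Finset.sum_le_sum fun x _ => ?_
          have h3 := Real.young_inequality_of_nonneg (a := ‖T A x‖ / ‖T‖) (b := ‖b x‖)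
            (by positivity) (norm_nonneg _) hpq
          rw [Real.div_rpow (norm_nonneg _) h0.le] at h3
          calc ‖T A x‖ * ‖b x‖ = ‖T‖ * (‖T A x‖ / ‖T‖ * ‖b x‖) := by field_simp
            _ ≤ _ := mul_le_mul_of_nonneg_left h3 h0.le
      _ = ‖T‖ * ((∑ x ∈ U, ‖T A x‖ ^ P.toReal) / ‖T‖ ^ P.toReal / P.toReal +
            (∑ x ∈ U, ‖b x‖ ^ q) / q) := by
          rw [← Finset.mul_sum, Finset.sum_add_distrib, Finset.sum_div, Finset.sum_div,
            Finset.sum_div]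
      _ ≤ ‖T‖ * En P.toReal q S U a b := by
          unfold En
          apply mul_le_mul_of_nonneg_left _ h0.le
          gcongr
          rw [div_le_iff₀ (by positivity)]
          linarith

omit [Fact (1 ≤ P)] in
/-- The columns of a bounded kernel. -/
lemma exists_column (hpq : P.toReal.HolderConjugate q) {K : ℤ → ℂ} {C : ℝ}
    (h : Mult P.toReal q K C) : ∃ v : ℤ → El P, ∀ k n, v k n = K (n - k) := by
  have h1 : ∀ k : ℤ, Memℓp (fun n : ℤ => K (n - k)) P := by
    intro k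
    apply memℓp_gen' (C := strongC P.toReal q C)
    intro s
    have h2 := h.strong hpq {k} s (fun _ => 1)
    simpa using h2
  exact ⟨fun k => ⟨fun n => K (n - k), h1 k⟩, fun k n => rfl⟩

/-- From a bilinear bound to an operator. -/
lemma op_of_mult (hP : P ≠ ⊤) (hpq : P.toReal.HolderConjugate q) {K : ℤ → ℂ} {C : ℝ}
    (h : Mult P.toReal q K C) : ∃ T : El P →L[ℂ] El P, IsConv K T ∧
      ‖T‖ ≤ (strongC P.toReal q C) ^ (1 / P.toReal) := by
  have hp := hpq.pos
  have hC := h.nonneg hpq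
  have hS := strongC_nonneg hpq hC
  set κ : ℝ := (strongC P.toReal q C) ^ (1 / P.toReal) with hκ
  have hκ0 : 0 ≤ κ := Real.rpow_nonneg hS _
  have hκp : κ ^ P.toReal = strongC P.toReal q C := by
    rw [hκ, ← Real.rpow_mul hS, one_div_mul_cancel hp.ne', Real.rpow_one]
  obtain ⟨v, hv⟩ := exists_column hpq h
  have key : ∀ (S : Finset ℤ) (a : ℤ → ℂ),
      ‖∑ k ∈ S, a k • v k‖ ≤ κ * ‖∑ k ∈ S, lp.single P k (a k)‖ := by
    intro S a
    apply lp.norm_le_of_forall_sum_le hp (by positivity)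
    intro s
    rw [Real.mul_rpow hκ0 (norm_nonneg _), hκp, lp.norm_sum_single (E := fun _ : ℤ => ℂ) hp a S]
    refine (le_of_eq ?_).trans (h.strong hpq S s a)
    refine Finset.sum_congr rfl fun n _ => ?_
    rw [lp.coeFn_sum, Finset.sum_apply]
    congr 2
    refine Finset.sum_congr rfl fun k _ => ?_
    rw [lp.coeFn_smul, Pi.smul_apply, hv, smul_eq_mul, mul_comm]
  have hsing : ∀ a : El P, HasSum (fun k => lp.single P k (a k)) a := fun a =>
    lp.hasSum_single hP a
  have hsum : ∀ a : El P, Summable (fun k => a k • v k) := by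
    intro a
    rw [summable_iff_vanishing_norm]
    intro ε hε
    obtain ⟨s, hs⟩ := summable_iff_vanishing_norm.mp (hsing a).summable (ε / (κ + 1))
      (by positivity)
    refine ⟨s, fun t ht => ?_⟩
    have h1 := hs t ht
    have h2 := key t a
    rw [lt_div_iff₀ (by positivity)] at h1
    nlinarith [norm_nonneg (∑ k ∈ t, lp.single P k (a k) : El P)]
  have hbd : ∀ a : El P, ‖∑' k, a k • v k‖ ≤ κ * ‖a‖ := by
    intro a
    have h1 : Tendsto (fun S : Finset ℤ => ‖∑ k ∈ S, a k • v k‖) atTop (𝓝 ‖∑' k, a k • v k‖) :=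
      ((hsum a).hasSum).norm
    have h2 : Tendsto (fun S : Finset ℤ => κ * ‖∑ k ∈ S, lp.single P k (a k)‖) atTop
        (𝓝 (κ * ‖a‖)) := ((hsing a).norm).const_mul κ
    exact le_of_tendsto_of_tendsto' h1 h2 fun S => key S a
  let L : El P →ₗ[ℂ] El P :=
    { toFun := fun a => ∑' k, a k • v k
      map_add' := by
        intro a b
        rw [← (hsum a).tsum_add (hsum b)]
        refine tsum_congr fun k => ?_
        rw [lp.coeFn_add, Pi.add_apply, add_smul]
      map_smul' := by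
        intro z a
        rw [RingHom.id_apply, ← (hsum a).tsum_const_smul]
        refine tsum_congr fun k => ?_
        rw [lp.coeFn_smul, Pi.smul_apply, smul_eq_mul, mul_smul] }
  refine ⟨L.mkContinuous κ hbd, ?_, L.mkContinuous_norm_le hκ0 hbd⟩
  intro k n
  have h1 : L.mkContinuous κ hbd (lp.single P k (1 : ℂ)) = v k := by
    change ∑' j, (lp.single P k (1 : ℂ) : El P) j • v j = v k
    rw [tsum_eq_single k]
    · rw [lp.single_apply_self, one_smul]
    · intro j hj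
      have h5 : (lp.single P k (1 : ℂ) : El P) j = 0 :=
        lp.single_apply_ne (E := fun _ : ℤ => ℂ) P k (1 : ℂ) hj
      rw [h5, zero_smul]
  rw [h1, hv]

/-- Bilinear bounds pass to pointwise limits of the kernels. -/
lemma mult_of_tendsto {p : ℝ} {K : ℕ → ℤ → ℂ} {K' : ℤ → ℂ} {C : ℝ}
    (h : ∀ n, Mult p q (K n) C) (hK : ∀ k, Tendsto (fun n => K n k) atTop (𝓝 (K' k))) :
    Mult p q K' C := by
  intro S U a b
  have h1 : Tendsto (fun n => ‖Bil (K n) S U a b‖) atTop (𝓝 ‖Bil K' S U a b‖) := by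
    unfold Bil
    exact (tendsto_finsetSum _ fun x _ => tendsto_finsetSum _ fun y _ =>
      ((hK (x - y)).mul_const _).mul_const _).norm
  exact le_of_tendsto' h1 fun n => h n S U a b

end Pool.Agent.Helper57.Mp
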